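import Pool.Agent.Helper35.TR.Ind

set_option autoImplicit false

/-!
MP_120218_co, project TR: the main lemma for a family of columns (module TR-10).

Choose `σ`, then `κ`, such that `7 k^4 / log (1/σ) + 3 k^3 κ/σ ≤ ε/16`, and `τ` with
`7 k^4 / τ ≤ ε/16`; `ind_cols` with `ω = n^(-2)`, `n = |Y|`, `L = log n`, gives for `n` large
`CE ≤ n^k (ε/4) L` and that the sum over pairs is `≤ n^2 (ε/4) L ≤ n^4`. With
`En (tup k Y) (c ∘ w) = k n^(k-1) En Y c` (`En_tup`), `En_le_CE` and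
`En (tup k Y) g ≤ n^k log (n^(k-ε))` (`En_le` of Helper80.LL) this gives
`En Y c ≤ (1 - 3ε/(4k)) n L`, that is `∑ a ∈ Y, log (fib Y c a) ≥ (3ε/(4k)) n L`; the classes with
fewer than `n^(ε/(8k))` elements contribute at most `(ε/(8k)) n L`.
Equal labels give `|v q a - v q a'| < U q` directly.
-/

open Finset

namespace Pool.Agent.Helper35.TR

open Pool.Agent.Helper80.LL (fib En)

/-- equal dithered labels: the values differ by less than `U` -/
theorem Aml_close {α : Type*} (v : α → ℕ) {U t : ℕ} (hU : 1 ≤ U) {a a' : α}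
    (h : dl v U t a = dl v U t a') : |(v a : ℝ) - (v a' : ℝ)| < (U : ℝ) := by
  unfold dl at h
  have h1 := Nat.div_add_mod (v a + t) U
  have h2 := Nat.div_add_mod (v a' + t) U
  have h3 := Nat.mod_lt (v a + t) hU
  have h4 := Nat.mod_lt (v a' + t) hU
  rw [h] at h1
  have h5 : v a < v a' + U := by omega
  have h6 : v a' < v a + U := by omega
  have h5' : (v a : ℝ) < (v a' : ℝ) + (U : ℝ) := by exact_mod_cast h5
  have h6' : (v a' : ℝ) < (v a : ℝ) + (U : ℝ) := by exact_mod_cast h6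
  rw [abs_lt]
  constructor <;> linarith

/-- the popular classes, from an upper bound for the entropy -/
theorem Aml_pop {Y : Finset ℤ} (hY : 2 ≤ Y.card) (c : ℤ → List ℕ) {δ ρ : ℝ} (hδ : 0 ≤ δ)
    (h : En Y c ≤ (1 - ρ) * (Y.card * Real.log Y.card)) :
    (ρ - δ) * Y.card ≤
      ((Y.filter (fun a => (Y.card : ℝ) ^ δ ≤ (fib Y c a : ℝ))).card : ℝ) := by
  classical
  have hn1 : (1 : ℝ) < (Y.card : ℝ) := by exact_mod_cast (by omega : 1 < Y.card)
  have hn : (0 : ℝ) < (Y.card : ℝ) := by linarith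
  have hL : 0 < Real.log (Y.card : ℝ) := Real.log_pos hn1
  have e1 : En Y c = Y.card * Real.log Y.card - ∑ a ∈ Y, Real.log (fib Y c a : ℝ) := by
    unfold En
    have : ∀ a ∈ Y, Real.log ((Y.card : ℝ) / (fib Y c a : ℝ)) =
        Real.log (Y.card : ℝ) - Real.log (fib Y c a : ℝ) := by
      intro a ha
      have hf : (0 : ℝ) < (fib Y c a : ℝ) := by
        exact_mod_cast Pool.Agent.Helper80.LL.fib_pos ha
      rw [Real.log_div hn.ne' hf.ne']
    rw [sum_congr rfl this, sum_sub_distrib, sum_const, nsmul_eq_mul]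
  have e2 : ∀ a ∈ Y, Real.log (fib Y c a : ℝ) ≤
      (if (Y.card : ℝ) ^ δ ≤ (fib Y c a : ℝ) then Real.log (Y.card : ℝ) else 0) +
        δ * Real.log (Y.card : ℝ) := by
    intro a ha
    have hf : (0 : ℝ) < (fib Y c a : ℝ) := by
      exact_mod_cast Pool.Agent.Helper80.LL.fib_pos ha
    have hfn : (fib Y c a : ℝ) ≤ (Y.card : ℝ) := by
      exact_mod_cast Pool.Agent.Helper80.LL.fib_le Y c a
    split_ifs with h1
    · have := Real.log_le_log hf hfn
      have h2 : 0 ≤ δ * Real.log (Y.card : ℝ) := by positivity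
      linarith
    · push Not at h1
      have h2 := Real.log_le_log hf h1.le
      rw [Real.log_rpow hn] at h2
      linarith
  have e3 := sum_le_sum e2
  rw [sum_add_distrib, ← sum_filter, sum_const, sum_const, nsmul_eq_mul, nsmul_eq_mul] at e3
  rw [e1] at h
  have e4 : ρ * (Y.card * Real.log Y.card) ≤
      ((Y.filter (fun a => (Y.card : ℝ) ^ δ ≤ (fib Y c a : ℝ))).card : ℝ) * Real.log Y.card +
        Y.card * (δ * Real.log Y.card) := by linarith
  have e5 : ((ρ - δ) * Y.card) * Real.log Y.card ≤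
      ((Y.filter (fun a => (Y.card : ℝ) ^ δ ≤ (fib Y c a : ℝ))).card : ℝ) *
        Real.log Y.card := by linarith
  exact le_of_mul_le_mul_right e5 hL

theorem aml (k : ℕ) (hk : 2 ≤ k) (ε : ℝ) (hε : 0 < ε) : ∃ κ τ : ℝ, 0 < κ ∧ κ ≤ 1 ∧ 1 ≤ τ ∧
    ∃ n0 : ℕ, ∀ (Y : Finset ℤ) (v : ℕ → ℤ → ℕ) (lam U : ℕ → ℕ) (ps : List ℕ),
      n0 ≤ Y.card → ps.Nodup →
      (∀ q ∈ ps, 1 ≤ U q ∧ k * lam q ≤ U q ∧
        ((Y.filter (fun a => lam q < v q a)).card : ℝ) ≤ κ * Y.card) →
      (ps.map (fun q => (lam q : ℝ) / (U q : ℝ))).sum ≤ Real.log Y.card / τ →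
      (((tup k Y).image (fun w => ps.map (fun q => ∑ i, v q (w i)))).card : ℝ) ≤
        (Y.card : ℝ) ^ ((k : ℝ) - ε) →
      ∃ c : ℤ → List ℕ,
        (∀ a ∈ Y, ∀ a' ∈ Y, c a = c a' →
          (∀ q ∈ ps, |(v q a : ℝ) - (v q a' : ℝ)| < (U q : ℝ)) ∧
          (ps.map (fun q => |(v q a : ℝ) - (v q a' : ℝ)| / (U q : ℝ))).sum ≤
            4 * Real.log Y.card) ∧
        ε / (8 * k) * Y.card ≤
          ((Y.filter (fun a => (Y.card : ℝ) ^ (ε / (8 * k)) ≤ (fib Y c a : ℝ))).card : ℝ) := by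
  classical
  have hk0 : (0 : ℝ) < (k : ℝ) := by
    have : 0 < k := by omega
    exact_mod_cast this
  -- parameters
  set lσ : ℝ := 224 * (k : ℝ) ^ 4 / ε + 1 with hlσ
  have hlσ1 : 1 ≤ lσ := by
    have : 0 ≤ 224 * (k : ℝ) ^ 4 / ε := by positivity
    linarith
  set σ : ℝ := Real.exp (-lσ) with hσdef
  have hσ0 : 0 < σ := Real.exp_pos _
  have hlogσ : Real.log (1 / σ) = lσ := by
    rw [one_div, Real.log_inv, hσdef, Real.log_exp, neg_neg]
  have hσ2 : σ ≤ 1 / 2 := by
    have h1 : (2 : ℝ) ≤ Real.exp lσ := by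
      have := Real.add_one_le_exp lσ
      linarith
    rw [hσdef, Real.exp_neg, one_div]
    exact inv_anti₀ (by norm_num) h1
  set κ : ℝ := min 1 (ε * σ / (96 * (k : ℝ) ^ 3)) with hκdef
  have hκ0 : 0 < κ := by
    rw [hκdef]
    exact lt_min one_pos (by positivity)
  have hκ1 : κ ≤ 1 := min_le_left _ _
  have hκ2 : κ ≤ ε * σ / (96 * (k : ℝ) ^ 3) := min_le_right _ _
  set τ : ℝ := max 1 (112 * (k : ℝ) ^ 4 / ε) with hτdef
  have hτ1 : 1 ≤ τ := le_max_left _ _
  have hτ2 : 112 * (k : ℝ) ^ 4 / ε ≤ τ := le_max_right _ _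
  have hA1 : 7 * (k : ℝ) ^ 4 / Real.log (1 / σ) ≤ ε / 32 := by
    rw [hlogσ, div_le_iff₀ (by linarith)]
    have : ε / 32 * lσ = 7 * (k : ℝ) ^ 4 + ε / 32 := by
      rw [hlσ]
      field_simp
      ring
    rw [this]
    linarith
  have hA2 : 3 * (k : ℝ) ^ 3 * (κ / σ) ≤ ε / 32 := by
    have h1 : κ / σ ≤ ε / (96 * (k : ℝ) ^ 3) := by
      rw [div_le_iff₀ hσ0]
      calc κ ≤ ε * σ / (96 * (k : ℝ) ^ 3) := hκ2
        _ = ε / (96 * (k : ℝ) ^ 3) * σ := by ring
    calc 3 * (k : ℝ) ^ 3 * (κ / σ) ≤ 3 * (k : ℝ) ^ 3 * (ε / (96 * (k : ℝ) ^ 3)) :=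
          mul_le_mul_of_nonneg_left h1 (by positivity)
      _ = ε / 32 := by
          field_simp
          norm_num
  have hA3 : 7 * (k : ℝ) ^ 4 / τ ≤ ε / 16 := by
    rw [div_le_iff₀ (by linarith)]
    have h1 : ε / 16 * (112 * (k : ℝ) ^ 4 / ε) = 7 * (k : ℝ) ^ 4 := by
      field_simp
      norm_num
    have h2 : ε / 16 * (112 * (k : ℝ) ^ 4 / ε) ≤ ε / 16 * τ :=
      mul_le_mul_of_nonneg_left hτ2 (by positivity)
    linarith
  refine ⟨κ, τ, hκ0, hκ1, hτ1, ⌈Real.exp (8 / ε)⌉₊ + ⌈ε⌉₊ + 2, ?_⟩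
  intro Y v lam U ps hn0 hnd hq hsum himg
  have hcard2 : 2 ≤ Y.card := by omega
  have hYne : Y.Nonempty := card_pos.1 (by omega)
  set n : ℝ := (Y.card : ℝ) with hndef
  have hn2 : (2 : ℝ) ≤ n := by rw [hndef]; exact_mod_cast hcard2
  have hnpos : 0 < n := by linarith
  have hnexp : Real.exp (8 / ε) ≤ n := by
    have h1 : (⌈Real.exp (8 / ε)⌉₊ : ℝ) ≤ n := by
      rw [hndef]
      exact_mod_cast (by omega : ⌈Real.exp (8 / ε)⌉₊ ≤ Y.card)
    exact le_trans (Nat.le_ceil _) h1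
  have hnε : ε ≤ n := by
    have h1 : (⌈ε⌉₊ : ℝ) ≤ n := by
      rw [hndef]
      exact_mod_cast (by omega : ⌈ε⌉₊ ≤ Y.card)
    exact le_trans (Nat.le_ceil _) h1
  set L : ℝ := Real.log n with hLdef
  have hL8 : 8 / ε ≤ L := by
    rw [hLdef, Real.le_log_iff_exp_le hnpos]
    exact hnexp
  have hLpos : 0 < L := lt_of_lt_of_le (by positivity) hL8
  have hεL : 1 ≤ ε / 8 * L := by
    have h1 : ε / 8 * (8 / ε) = 1 := by field_simp
    have h2 : ε / 8 * (8 / ε) ≤ ε / 8 * L := mul_le_mul_of_nonneg_left hL8 (by positivity)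
    linarith
  have hLn : L ≤ n := by
    have := Real.log_le_sub_one_of_pos hnpos
    rw [← hLdef] at this
    linarith
  -- the induction over the columns
  obtain ⟨θ, hθ⟩ := ind_cols (k := k) hk hYne v lam U (σ := σ) (κ := κ) (ω := (n ^ 2)⁻¹)
    hσ0 hσ2 (by positivity) ps hnd hq
  rw [← hndef] at hθ
  set c : ℤ → List ℕ := lab v U θ ps with hcdef
  set g : (Fin k → ℤ) → List ℕ := fun w => ps.map (fun q => ∑ i, v q (w i)) with hgdef
  set S : ℝ := ∑ a ∈ Y, ∑ a' ∈ Y, (if c a = c a' then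
          Real.exp ((ps.map (fun q => |(v q a : ℝ) - (v q a' : ℝ)| / (U q : ℝ))).sum) else 0)
    with hSdef
  have hS0 : 0 ≤ S := by
    rw [hSdef]
    apply sum_nonneg
    intro a _
    apply sum_nonneg
    intro a' _
    split_ifs
    · exact (Real.exp_pos _).le
    · exact le_rfl
  have hCE0 : 0 ≤ CE (tup k Y) (fun w i => c (w i)) g := CE_nonneg _ _ _
  have hEn0 : 0 ≤ En Y c := Pool.Agent.Helper80.LL.En_nonneg _ _
  have hEnle : En Y c ≤ n * L := by
    have h1 := Pool.Agent.Helper80.LL.En_le (Ω := Y) (f := c) (S := Y.image c) hYne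
      (fun w hw => mem_image_of_mem c hw)
    have h2 : Real.log ((Y.image c).card : ℝ) ≤ L := by
      apply Real.log_le_log
      · exact_mod_cast card_pos.2 (hYne.image c)
      · rw [hndef]
        exact_mod_cast card_image_le
    calc En Y c ≤ n * Real.log ((Y.image c).card : ℝ) := h1
      _ ≤ n * L := mul_le_mul_of_nonneg_left h2 hnpos.le
  have hR : (7 * (k : ℝ) ^ 4 / Real.log (1 / σ) + 3 * (k : ℝ) ^ 3 * (κ / σ)) * (En Y c / n) +
        7 * (k : ℝ) ^ 4 * (ps.map (fun q => (lam q : ℝ) / (U q : ℝ))).sum +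
        (n ^ 2)⁻¹ * n ^ 2 ≤ ε / 4 * L := by
    have r1 : (7 * (k : ℝ) ^ 4 / Real.log (1 / σ) + 3 * (k : ℝ) ^ 3 * (κ / σ)) * (En Y c / n) ≤
        ε / 16 * L := by
      apply mul_le_mul
      · linarith
      · rw [div_le_iff₀ hnpos]
        linarith
      · positivity
      · positivity
    have r2 : 7 * (k : ℝ) ^ 4 * (ps.map (fun q => (lam q : ℝ) / (U q : ℝ))).sum ≤
        ε / 16 * L := by
      calc 7 * (k : ℝ) ^ 4 * (ps.map (fun q => (lam q : ℝ) / (U q : ℝ))).sum
          ≤ 7 * (k : ℝ) ^ 4 * (L / τ) := mul_le_mul_of_nonneg_left hsum (by positivity)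
        _ = 7 * (k : ℝ) ^ 4 / τ * L := by ring
        _ ≤ ε / 16 * L := mul_le_mul_of_nonneg_right hA3 hLpos.le
    have r3 : (n ^ 2)⁻¹ * n ^ 2 = 1 := inv_mul_cancel₀ (by positivity)
    rw [r3]
    linarith
  have hmain := le_trans hθ hR
  have hnk : 0 < n ^ k := by positivity
  have hCE : CE (tup k Y) (fun w i => c (w i)) g ≤ n ^ k * (ε / 4 * L) := by
    have h1 : CE (tup k Y) (fun w i => c (w i)) g / n ^ k ≤ ε / 4 * L := by
      have h2 : 0 ≤ (n ^ 2)⁻¹ * S := by positivity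
      linarith
    rw [div_le_iff₀ hnk] at h1
    linarith
  have hSle : S ≤ n ^ 4 := by
    have h1 : (n ^ 2)⁻¹ * S ≤ ε / 4 * L := by
      have h2 : 0 ≤ CE (tup k Y) (fun w i => c (w i)) g / n ^ k := by positivity
      linarith
    have h3 : ε / 4 * L ≤ n ^ 2 := by nlinarith
    have h4 : (n ^ 2)⁻¹ * S ≤ n ^ 2 := le_trans h1 h3
    rw [inv_mul_le_iff₀ (by positivity)] at h4
    calc S ≤ n ^ 2 * n ^ 2 := h4
      _ = n ^ 4 := by ring
  refine ⟨c, ?_, ?_⟩
  · intro a ha a' ha' hcc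
    constructor
    · intro q hqps
      apply Aml_close (v q) (hq q hqps).1 (t := θ q)
      have h1 : lab v U θ ps a = lab v U θ ps a' := hcc
      unfold lab at h1
      exact (List.map_inj_left.1 h1) q hqps
    · have h1 : Real.exp ((ps.map (fun q => |(v q a : ℝ) - (v q a' : ℝ)| / (U q : ℝ))).sum) ≤
          S := by
        have h2 : (if c a = c a' then
            Real.exp ((ps.map (fun q => |(v q a : ℝ) - (v q a' : ℝ)| / (U q : ℝ))).sum) else 0) ≤
            ∑ a'' ∈ Y, (if c a = c a'' then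
            Real.exp ((ps.map (fun q => |(v q a : ℝ) - (v q a'' : ℝ)| / (U q : ℝ))).sum)
              else 0) := by
          apply single_le_sum (f := fun a'' => (if c a = c a'' then
            Real.exp ((ps.map (fun q => |(v q a : ℝ) - (v q a'' : ℝ)| / (U q : ℝ))).sum)
              else 0)) _ ha'
          intro b _
          split_ifs
          · exact (Real.exp_pos _).le
          · exact le_rfl
        have h3 : (∑ a'' ∈ Y, (if c a = c a'' then
            Real.exp ((ps.map (fun q => |(v q a : ℝ) - (v q a'' : ℝ)| / (U q : ℝ))).sum)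
              else 0)) ≤ S := by
          rw [hSdef]
          apply single_le_sum (f := fun b => ∑ a'' ∈ Y, (if c b = c a'' then
            Real.exp ((ps.map (fun q => |(v q b : ℝ) - (v q a'' : ℝ)| / (U q : ℝ))).sum)
              else 0)) _ ha
          intro b _
          apply sum_nonneg
          intro b' _
          split_ifs
          · exact (Real.exp_pos _).le
          · exact le_rfl
        rw [if_pos hcc] at h2
        exact le_trans h2 h3
      have h4 := le_trans h1 hSle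
      rw [← Real.le_log_iff_exp_le (by positivity), Real.log_pow] at h4
      exact_mod_cast h4
  · -- the entropy of the labels
    have h1 := En_le_CE (tup k Y) (fun w i => c (w i)) g
    rw [En_tup, ← hndef] at h1
    have htupne : (tup k Y).Nonempty := by
      obtain ⟨y, hy⟩ := hYne
      exact ⟨fun _ => y, Fintype.mem_piFinset.2 fun _ => hy⟩
    have h2 := Pool.Agent.Helper80.LL.En_le (Ω := tup k Y) (f := g) (S := (tup k Y).image g)
      htupne (fun w hw => mem_image_of_mem g hw)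
    rw [card_tup, ← hndef] at h2
    have h3 : Real.log (((tup k Y).image g).card : ℝ) ≤ ((k : ℝ) - ε) * L := by
      have h4 : (0 : ℝ) < (((tup k Y).image g).card : ℝ) := by
        exact_mod_cast card_pos.2 (htupne.image g)
      have h5 := Real.log_le_log h4 himg
      rw [Real.log_rpow hnpos] at h5
      exact h5
    have h6 : En (tup k Y) g ≤ n ^ k * (((k : ℝ) - ε) * L) :=
      le_trans h2 (mul_le_mul_of_nonneg_left h3 hnk.le)
    have h7 : (k : ℝ) * n ^ (k - 1) * En Y c ≤ n ^ k * (((k : ℝ) - 3 * ε / 4) * L) := by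
      calc (k : ℝ) * n ^ (k - 1) * En Y c ≤
          CE (tup k Y) (fun w i => c (w i)) g + En (tup k Y) g := h1
        _ ≤ n ^ k * (ε / 4 * L) + n ^ k * (((k : ℝ) - ε) * L) := add_le_add hCE h6
        _ = n ^ k * (((k : ℝ) - 3 * ε / 4) * L) := by ring
    have h8 : n ^ k = n ^ (k - 1) * n := by
      rw [← pow_succ]
      congr 1
      omega
    have h9 : En Y c ≤ (1 - 3 * ε / (4 * k)) * (n * L) := by
      rw [h8] at h7
      have h10 : 0 < (k : ℝ) * n ^ (k - 1) := by positivity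
      have h11 : (k : ℝ) * n ^ (k - 1) * En Y c ≤
          (k : ℝ) * n ^ (k - 1) * ((1 - 3 * ε / (4 * k)) * (n * L)) := by
        calc (k : ℝ) * n ^ (k - 1) * En Y c ≤
            n ^ (k - 1) * n * (((k : ℝ) - 3 * ε / 4) * L) := h7
          _ = (k : ℝ) * n ^ (k - 1) * ((1 - 3 * ε / (4 * k)) * (n * L)) := by
            field_simp
      exact le_of_mul_le_mul_left h11 h10
    have h12 := Aml_pop hcard2 c (δ := ε / (8 * k)) (ρ := 3 * ε / (4 * k)) (by positivity) h9
    rw [← hndef] at h12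
    refine le_trans ?_ h12
    have h13 : 3 * ε / (4 * k) - ε / (8 * k) = 5 * (ε / (8 * k)) := by
      field_simp
      norm_num
    rw [h13]
    have h14 : 0 ≤ ε / (8 * k) * n := by positivity
    linarith

end Pool.Agent.Helper35.TR
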