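import Pool.Agent.Helper35.TR.Defs

set_option autoImplicit false

/-!
MP_120218_co, project TR: one variable (module TR-3).
-/

open Finset

namespace Pool.Agent.Helper35.TR

open Pool.Agent.Helper80.LL (fib En)

variable {α β : Type*} [DecidableEq β]

theorem tail_nonneg (Y : Finset α) (c : α → β) (v : α → ℕ) (a : α) (u : ℕ) :
    0 ≤ tail Y c v a u := by
  unfold tail
  positivity

theorem tail_le_one (Y : Finset α) (c : α → β) (v : α → ℕ) (a : α) (u : ℕ) :
    tail Y c v a u ≤ 1 := by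
  unfold tail
  apply div_le_one_of_le₀ _ (Nat.cast_nonneg _)
  have h : (Y.filter (fun a' => c a' = c a ∧ u ≤ v a')).card ≤ fib Y c a := by
    unfold fib
    apply card_le_card
    intro a' ha'
    rw [mem_filter] at ha' ⊢
    exact ⟨ha'.1, ha'.2.1⟩
  exact_mod_cast h

theorem tail_pos {Y : Finset α} {c : α → β} {v : α → ℕ} {a : α} {u : ℕ} (ha : a ∈ Y)
    (hu : u ≤ v a) : 0 < tail Y c v a u := by
  unfold tail
  apply div_pos
  · have h : 0 < (Y.filter (fun a' => c a' = c a ∧ u ≤ v a')).card :=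
      card_pos.2 ⟨a, mem_filter.2 ⟨ha, rfl, hu⟩⟩
    exact_mod_cast h
  · exact_mod_cast Pool.Agent.Helper80.LL.fib_pos ha

theorem tail_anti (Y : Finset α) (c : α → β) (v : α → ℕ) (a : α) {u u' : ℕ} (h : u ≤ u') :
    tail Y c v a u' ≤ tail Y c v a u := by
  unfold tail
  apply div_le_div_of_nonneg_right _ (Nat.cast_nonneg _)
  have h2 : (Y.filter (fun a' => c a' = c a ∧ u' ≤ v a')).card ≤
      (Y.filter (fun a' => c a' = c a ∧ u ≤ v a')).card := by
    apply card_le_card
    intro a' ha'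
    rw [mem_filter] at ha' ⊢
    exact ⟨ha'.1, ha'.2.1, h.trans ha'.2.2⟩
  exact_mod_cast h2

theorem tail_congr {Y : Finset α} {c : α → β} (v : α → ℕ) {a a' : α} (h : c a = c a') (u : ℕ) :
    tail Y c v a u = tail Y c v a' u := by
  unfold tail fib
  rw [h]

theorem act_congr {Y : Finset α} {c : α → β} (v : α → ℕ) (lam : ℕ) (σ : ℝ) {a a' : α}
    (h : c a = c a') : act Y c v lam σ a ↔ act Y c v lam σ a' := by
  unfold act
  rw [tail_congr v h]

theorem gi_nonneg {Y : Finset α} (c : α → β) (v : α → ℕ) (U t : ℕ) {a : α} (ha : a ∈ Y) :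
    0 ≤ gi Y c v U t a := by
  unfold gi
  apply Real.log_nonneg
  have h1 : (0 : ℝ) < (fib Y (fun a' => (dl v U t a', c a')) a : ℝ) := by
    exact_mod_cast Pool.Agent.Helper80.LL.fib_pos ha
  rw [le_div_iff₀ h1, one_mul]
  have h2 : fib Y (fun a' => (dl v U t a', c a')) a ≤ fib Y c a := by
    unfold fib
    apply card_le_card
    intro a' ha'
    rw [mem_filter] at ha' ⊢
    exact ⟨ha'.1, (Prod.ext_iff.1 ha'.2).2⟩
  exact_mod_cast h2

/-- class averages -/
theorem class_sum (Y : Finset α) (c : α → β) (v : α → ℕ) (u : ℕ) (F : α → ℝ)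
    (hF : ∀ a ∈ Y, ∀ a' ∈ Y, c a = c a' → F a = F a') :
    ∑ a ∈ Y, F a * ind (u ≤ v a) = ∑ a ∈ Y, F a * tail Y c v a u := by
  have h1 : ∀ a ∈ Y, F a * tail Y c v a u =
      ∑ a' ∈ Y, (if c a' = c a ∧ u ≤ v a' then F a' / (fib Y c a' : ℝ) else 0) := by
    intro a ha
    have h2 : ∑ a' ∈ Y, (if c a' = c a ∧ u ≤ v a' then F a' / (fib Y c a' : ℝ) else 0) =
        ∑ a' ∈ Y, (if c a' = c a ∧ u ≤ v a' then F a / (fib Y c a : ℝ) else 0) := by
      apply sum_congr rfl
      intro a' ha'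
      by_cases h : c a' = c a ∧ u ≤ v a'
      · rw [if_pos h, if_pos h, hF a' ha' a ha h.1,
          Pool.Agent.Helper80.LL.fib_congr (Ω := Y) h.1]
      · rw [if_neg h, if_neg h]
    rw [h2, ← sum_filter, sum_const, nsmul_eq_mul]
    unfold tail
    ring
  rw [sum_congr rfl h1, sum_comm]
  apply sum_congr rfl
  intro a' ha'
  have hp : (fib Y c a' : ℝ) ≠ 0 := by
    have h : (0 : ℝ) < (fib Y c a' : ℝ) := by
      exact_mod_cast Pool.Agent.Helper80.LL.fib_pos ha'
    exact h.ne'
  by_cases hu : u ≤ v a'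
  · rw [ind_of hu, mul_one]
    have h3 : ∑ a ∈ Y, (if c a' = c a ∧ u ≤ v a' then F a' / (fib Y c a' : ℝ) else 0) =
        ∑ a ∈ Y, (if c a = c a' then F a' / (fib Y c a' : ℝ) else 0) := by
      apply sum_congr rfl
      intro a _
      by_cases h : c a = c a'
      · rw [if_pos h, if_pos ⟨h.symm, hu⟩]
      · rw [if_neg h, if_neg (fun h' => h h'.1.symm)]
    rw [h3, ← sum_filter, sum_const, nsmul_eq_mul]
    have h4 : ((Y.filter (fun a => c a = c a')).card : ℝ) = (fib Y c a' : ℝ) := rfl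
    rw [h4]
    field_simp
  · rw [ind_of_not hu, mul_zero]
    symm
    apply sum_eq_zero
    intro a _
    rw [if_neg (fun h' => hu h'.2)]

/-- Markov's inequality for the active classes -/
theorem act_le (Y : Finset α) (c : α → β) (v : α → ℕ) (lam : ℕ) {σ κ : ℝ} (hσ : 0 < σ)
    (hκ : ((Y.filter (fun a => lam < v a)).card : ℝ) ≤ κ * Y.card) :
    ∑ a ∈ Y, ind (act Y c v lam σ a) ≤ κ / σ * Y.card := by
  have h1 : ∀ a ∈ Y, ind (act Y c v lam σ a) ≤ tail Y c v a (lam + 1) / σ := by
    intro a _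
    by_cases h : act Y c v lam σ a
    · rw [ind_of h, le_div_iff₀ hσ, one_mul]
      exact (le_of_lt h)
    · rw [ind_of_not h]
      exact div_nonneg (tail_nonneg Y c v a _) hσ.le
  have h2 : ∑ a ∈ Y, tail Y c v a (lam + 1) = ((Y.filter (fun a => lam < v a)).card : ℝ) := by
    have h3 := class_sum Y c v (lam + 1) (fun _ => 1) (fun _ _ _ _ _ => rfl)
    simp only [one_mul] at h3
    rw [← h3, card_filter, Nat.cast_sum]
    apply sum_congr rfl
    intro a _
    by_cases h : lam < v a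
    · rw [if_pos h, ind_of (Nat.succ_le_of_lt h), Nat.cast_one]
    · rw [if_neg h, ind_of_not (fun h' => h (Nat.lt_of_succ_le h')), Nat.cast_zero]
  calc ∑ a ∈ Y, ind (act Y c v lam σ a) ≤ ∑ a ∈ Y, tail Y c v a (lam + 1) / σ := sum_le_sum h1
    _ = (∑ a ∈ Y, tail Y c v a (lam + 1)) / σ := by rw [sum_div]
    _ ≤ (κ * Y.card) / σ := by
        apply div_le_div_of_nonneg_right _ hσ.le
        rw [h2]
        exact hκ
    _ = κ / σ * Y.card := by ring

/-- the entropy of a dithered label is at least that of its being nonzero -/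
theorem phi_le (Y : Finset α) (c : α → β) (v : α → ℕ) {U t : ℕ} (ht : t < U) :
    ∑ a ∈ Y, Real.negMulLog (tail Y c v a (U - t)) ≤ CE Y (dl v U t) c := by
  have h1 : ∑ a ∈ Y, Real.negMulLog (tail Y c v a (U - t)) =
      ∑ a ∈ Y, (-Real.log (tail Y c v a (U - t))) * tail Y c v a (U - t) := by
    apply sum_congr rfl
    intro a _
    rw [Real.negMulLog]
    ring
  have h2 := class_sum Y c v (U - t) (fun a => -Real.log (tail Y c v a (U - t)))
    (fun a _ a' _ h => by rw [tail_congr v h])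
  rw [h1, ← h2]
  unfold CE
  apply sum_le_sum
  intro a ha
  have hg : 0 ≤ Real.log ((fib Y c a : ℝ) / (fib Y (fun a' => (dl v U t a', c a')) a : ℝ)) :=
    gi_nonneg c v U t ha
  by_cases hu : U - t ≤ v a
  · rw [ind_of hu, mul_one]
    have hf : (0 : ℝ) < (fib Y c a : ℝ) := by
      exact_mod_cast Pool.Agent.Helper80.LL.fib_pos ha
    have hf2 : (0 : ℝ) < (fib Y (fun a' => (dl v U t a', c a')) a : ℝ) := by
      exact_mod_cast Pool.Agent.Helper80.LL.fib_pos ha
    have ht0 := tail_pos (c := c) ha hu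
    rw [← Real.log_inv]
    apply Real.log_le_log (inv_pos.2 ht0)
    unfold tail
    rw [inv_div]
    apply div_le_div_of_nonneg_left hf.le hf2
    have h3 : fib Y (fun a' => (dl v U t a', c a')) a ≤
        (Y.filter (fun a' => c a' = c a ∧ U - t ≤ v a')).card := by
      unfold fib
      apply card_le_card
      intro a' ha'
      rw [mem_filter] at ha' ⊢
      have h4 := Prod.ext_iff.1 ha'.2
      refine ⟨ha'.1, h4.2, ?_⟩
      have h5 : (v a' + t) / U = (v a + t) / U := h4.1
      have hU : 0 < U := by omega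
      have h6 : 1 ≤ (v a + t) / U := by
        rw [Nat.le_div_iff_mul_le hU]
        omega
      rw [← h5, Nat.le_div_iff_mul_le hU] at h6
      omega
    exact_mod_cast h3
  · rw [ind_of_not hu, mul_zero]
    exact hg

theorem sum_phi_le (Y : Finset α) (c : α → β) (v : α → ℕ) (U : ℕ) :
    ∑ u ∈ Icc 1 U, ∑ a ∈ Y, Real.negMulLog (tail Y c v a u) ≤
      ∑ t ∈ range U, CE Y (dl v U t) c := by
  have h1 : ∑ u ∈ Icc 1 U, ∑ a ∈ Y, Real.negMulLog (tail Y c v a u) =
      ∑ t ∈ range U, ∑ a ∈ Y, Real.negMulLog (tail Y c v a (U - t)) := by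
    apply sum_nbij' (fun u => U - u) (fun t => U - t)
    · intro u hu
      rw [mem_Icc] at hu
      rw [mem_range]
      omega
    · intro t ht
      rw [mem_range] at ht
      rw [mem_Icc]
      omega
    · intro u hu
      rw [mem_Icc] at hu
      omega
    · intro t ht
      rw [mem_range] at ht
      omega
    · intro u hu
      rw [mem_Icc] at hu
      have h : U - (U - u) = u := by omega
      simp only [h]
  rw [h1]
  apply sum_le_sum
  intro t ht
  exact phi_le Y c v (mem_range.1 ht)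

/-- the mass as a sum of tails -/
theorem mass_eq (Y : Finset α) (c : α → β) (v : α → ℕ) (lam : ℕ) (σ : ℝ) (U : ℕ) :
    mass Y c v lam σ U =
      ∑ u ∈ Icc 1 U, ∑ a ∈ Y, ind (¬ act Y c v lam σ a) * tail Y c v a u := by
  have h1 : ∀ u ∈ Icc 1 U, ∑ a ∈ Y, ind (¬ act Y c v lam σ a) * tail Y c v a u =
      ∑ a ∈ Y, ind (¬ act Y c v lam σ a) * ind (u ≤ v a) := by
    intro u _
    exact (class_sum Y c v u (fun a => ind (¬ act Y c v lam σ a))
      (fun a _ a' _ h => by
        have h' : (¬ act Y c v lam σ a) = (¬ act Y c v lam σ a') :=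
          propext (not_congr (act_congr v lam σ h))
        simp only [h'])).symm
  rw [sum_congr rfl h1, sum_comm]
  unfold mass
  apply sum_congr rfl
  intro a _
  rw [← mul_sum]
  congr 1
  have h2 : ∀ u ∈ Icc 1 U, ind (u ≤ v a) = (((if u ≤ v a then 1 else 0 : ℕ)) : ℝ) := by
    intro u _
    by_cases h : u ≤ v a
    · rw [ind_of h, if_pos h, Nat.cast_one]
    · rw [ind_of_not h, if_neg h, Nat.cast_zero]
  rw [sum_congr rfl h2, ← Nat.cast_sum, ← card_filter]
  congr 1
  have h3 : (Icc 1 U).filter (fun u => u ≤ v a) = Icc 1 (min (v a) U) := by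
    ext u
    simp only [mem_filter, mem_Icc, le_min_iff]
    tauto
  rw [h3, Nat.card_Icc]
  omega

theorem mass_nonneg (Y : Finset α) (c : α → β) (v : α → ℕ) (lam : ℕ) (σ : ℝ) (U : ℕ) :
    0 ≤ mass Y c v lam σ U := by
  unfold mass
  apply sum_nonneg
  intro a _
  exact mul_nonneg (ind_nonneg _) (Nat.cast_nonneg _)

theorem mass_le (Y : Finset α) (c : α → β) (v : α → ℕ) (lam U : ℕ) {σ : ℝ} (hσ : 0 < σ)
    (hσ2 : σ ≤ 1 / 2) :
    mass Y c v lam σ U ≤ Y.card * lam +
      (∑ t ∈ range U, CE Y (dl v U t) c) / Real.log (1 / σ) := by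
  have hL : 0 < Real.log (1 / σ) := by
    apply Real.log_pos
    rw [lt_div_iff₀ hσ]
    linarith
  rw [mass_eq]
  have h1 : ∀ u ∈ Icc 1 U, ∑ a ∈ Y, ind (¬ act Y c v lam σ a) * tail Y c v a u ≤
      (if u ≤ lam then (Y.card : ℝ) else 0) +
        (∑ a ∈ Y, Real.negMulLog (tail Y c v a u)) / Real.log (1 / σ) := by
    intro u _
    have hN : ∀ a, 0 ≤ Real.negMulLog (tail Y c v a u) := fun a =>
      Real.negMulLog_nonneg (tail_nonneg Y c v a u) (tail_le_one Y c v a u)
    have hS : 0 ≤ (∑ a ∈ Y, Real.negMulLog (tail Y c v a u)) / Real.log (1 / σ) :=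
      div_nonneg (sum_nonneg fun a _ => hN a) hL.le
    by_cases hu : u ≤ lam
    · rw [if_pos hu]
      have h2 : ∑ a ∈ Y, ind (¬ act Y c v lam σ a) * tail Y c v a u ≤ ∑ a ∈ Y, (1 : ℝ) := by
        apply sum_le_sum
        intro a _
        exact mul_le_one₀ (ind_le_one _) (tail_nonneg Y c v a u) (tail_le_one Y c v a u)
      rw [sum_const, nsmul_eq_mul, mul_one] at h2
      linarith
    · rw [if_neg hu, zero_add, sum_div]
      apply sum_le_sum
      intro a _
      by_cases ha : act Y c v lam σ a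
      · rw [ind_of_not (fun h => h ha), zero_mul]
        exact div_nonneg (hN a) hL.le
      · rw [ind_of ha, one_mul, le_div_iff₀ hL]
        have h3 : tail Y c v a u ≤ σ := by
          have h4 : tail Y c v a u ≤ tail Y c v a (lam + 1) :=
            tail_anti Y c v a (by omega)
          have h5 : tail Y c v a (lam + 1) ≤ σ := not_lt.1 ha
          linarith
        rcases eq_or_lt_of_le (tail_nonneg Y c v a u) with h0 | h0
        · rw [← h0, zero_mul, Real.negMulLog_zero]
        · rw [Real.negMulLog, neg_mul, ← mul_neg]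
          apply mul_le_mul_of_nonneg_left _ h0.le
          rw [← Real.log_inv, one_div]
          apply Real.log_le_log (inv_pos.2 hσ)
          exact (inv_le_inv₀ hσ h0).2 h3
  have h6 : ∑ u ∈ Icc 1 U, (if u ≤ lam then (Y.card : ℝ) else 0) ≤ Y.card * lam := by
    rw [← sum_filter, sum_const, nsmul_eq_mul, mul_comm]
    apply mul_le_mul_of_nonneg_left _ (Nat.cast_nonneg _)
    have h7 : ((Icc 1 U).filter (fun u => u ≤ lam)).card ≤ lam := by
      have h8 : (Icc 1 U).filter (fun u => u ≤ lam) ⊆ Icc 1 lam := by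
        intro u hu
        rw [mem_filter, mem_Icc] at hu
        rw [mem_Icc]
        exact ⟨hu.1.1, hu.2⟩
      have h9 := card_le_card h8
      rw [Nat.card_Icc] at h9
      omega
    exact_mod_cast h7
  calc ∑ u ∈ Icc 1 U, ∑ a ∈ Y, ind (¬ act Y c v lam σ a) * tail Y c v a u
      ≤ ∑ u ∈ Icc 1 U, ((if u ≤ lam then (Y.card : ℝ) else 0) +
        (∑ a ∈ Y, Real.negMulLog (tail Y c v a u)) / Real.log (1 / σ)) := sum_le_sum h1
    _ = ∑ u ∈ Icc 1 U, (if u ≤ lam then (Y.card : ℝ) else 0) +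
        (∑ u ∈ Icc 1 U, ∑ a ∈ Y, Real.negMulLog (tail Y c v a u)) / Real.log (1 / σ) := by
        rw [sum_add_distrib, sum_div]
    _ ≤ Y.card * lam + (∑ t ∈ range U, CE Y (dl v U t) c) / Real.log (1 / σ) := by
        apply add_le_add h6
        apply div_le_div_of_nonneg_right _ hL.le
        exact sum_phi_le Y c v U

end Pool.Agent.Helper35.TR
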