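import Pool.Agent.Helper35.TR.Pi
import Pool.Agent.Helper35.TR.Mass

set_option autoImplicit false

/-!
MP_120218_co, project TR: average of the first code length (module TR-6).

`∑ t < U, ind (U ≤ S + t) = min S U ≤ ∑ i, min (v (w i)) U`, and `log 5 ≤ 2`; the second part is
`sum_tup_two` and `act_le`.
-/

open Finset

namespace Pool.Agent.Helper35.TR

open Pool.Agent.Helper80.LL (fib En)

variable {α β : Type*} [DecidableEq β]

private theorem AvgA_log_five : Real.log 5 ≤ 2 := by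
  rw [Real.log_le_iff_le_exp (by norm_num)]
  have h1 : Real.exp 2 = Real.exp 1 * Real.exp 1 := by
    rw [← Real.exp_add]
    norm_num
  have h2 := Real.exp_one_gt_d9
  rw [h1]
  nlinarith

private theorem AvgA_min {ι : Type*} (s : Finset ι) (u : ι → ℕ) (U : ℕ) :
    min (∑ i ∈ s, u i) U ≤ ∑ i ∈ s, min (u i) U := by
  by_cases h : ∃ i ∈ s, U ≤ u i
  · obtain ⟨i, hi, hU⟩ := h
    have h1 : min (u i) U ≤ ∑ i ∈ s, min (u i) U :=
      single_le_sum (f := fun i => min (u i) U) (fun _ _ => Nat.zero_le _) hi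
    rw [min_eq_right hU] at h1
    exact (min_le_right _ _).trans h1
  · push Not at h
    have h1 : ∑ i ∈ s, min (u i) U = ∑ i ∈ s, u i :=
      sum_congr rfl fun i hi => min_eq_left (h i hi).le
    rw [h1]
    exact min_le_left _ _

private theorem AvgA_count (S U : ℕ) :
    ∑ t ∈ range U, ind (U ≤ S + t) ≤ ((min S U : ℕ) : ℝ) := by
  have h1 : ∀ t ∈ range U, ind (U ≤ S + t) = (((if U ≤ S + t then 1 else 0 : ℕ)) : ℝ) := by
    intro t _
    by_cases h : U ≤ S + t
    · rw [ind_of h, if_pos h, Nat.cast_one]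
    · rw [ind_of_not h, if_neg h, Nat.cast_zero]
  rw [sum_congr rfl h1, ← Nat.cast_sum, ← card_filter, Nat.cast_le]
  have h3 : (range U).filter (fun t => U ≤ S + t) ⊆ Ico (U - S) U := by
    intro t ht
    rw [mem_filter, mem_range] at ht
    rw [mem_Ico]
    omega
  have h4 := card_le_card h3
  rw [Nat.card_Ico] at h4
  omega

private theorem AvgA_first {k : ℕ} (Y : Finset α) (c : α → β) (v : α → ℕ) (lam U : ℕ) (σ : ℝ)
    (w : Fin k → α) :
    ∑ t ∈ range U, ind ((∀ i, ¬ act Y c v lam σ (w i)) ∧ U ≤ (∑ i, v (w i)) + t) ≤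
      ∑ i, ind (¬ act Y c v lam σ (w i)) * ((min (v (w i)) U : ℕ) : ℝ) := by
  by_cases hA : ∀ i, ¬ act Y c v lam σ (w i)
  · have h1 : ∀ t ∈ range U, ind ((∀ i, ¬ act Y c v lam σ (w i)) ∧ U ≤ (∑ i, v (w i)) + t) ≤
        ind (U ≤ (∑ i, v (w i)) + t) := fun t _ => ind_mono fun h => h.2
    have h2 : ∀ i ∈ (univ : Finset (Fin k)),
        ind (¬ act Y c v lam σ (w i)) * ((min (v (w i)) U : ℕ) : ℝ) =
          ((min (v (w i)) U : ℕ) : ℝ) := fun i _ => by
      rw [ind_of (hA i), one_mul]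
    rw [sum_congr rfl h2, ← Nat.cast_sum]
    refine (sum_le_sum h1).trans ((AvgA_count _ U).trans ?_)
    exact_mod_cast AvgA_min univ (fun i => v (w i)) U
  · have h1 : ∀ t ∈ range U,
        ind ((∀ i, ¬ act Y c v lam σ (w i)) ∧ U ≤ (∑ i, v (w i)) + t) = 0 :=
      fun t _ => ind_of_not fun h => hA h.1
    rw [sum_congr rfl h1, sum_const_zero]
    exact sum_nonneg fun i _ => mul_nonneg (ind_nonneg _) (Nat.cast_nonneg _)

theorem avgA {k : ℕ} (hk : 2 ≤ k) {Y : Finset α} (hY : Y.Nonempty) (c : α → β) (v : α → ℕ)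
    {lam U : ℕ} (hU : 1 ≤ U) {σ κ : ℝ} (hσ : 0 < σ)
    (hκ : ((Y.filter (fun a => lam < v a)).card : ℝ) ≤ κ * Y.card) :
    ∑ t ∈ range U, ∑ w ∈ tup k Y, L1 Y c v lam σ U t w ≤
      (Y.card : ℝ) ^ (k - 1) * (2 * (k : ℝ) ^ 2 * mass Y c v lam σ U +
        (k : ℝ) ^ 2 * (κ / σ + κ) * ∑ t ∈ range U, CE Y (dl v U t) c) := by
  classical
  have hYc : (0 : ℝ) < Y.card := by exact_mod_cast card_pos.2 hY
  have hκ0 : 0 ≤ κ := by
    have h1 : 0 ≤ κ * Y.card := le_trans (Nat.cast_nonneg _) hκ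
    exact nonneg_of_mul_nonneg_left h1 hYc
  have hk0 : (0 : ℝ) ≤ (k : ℝ) := Nat.cast_nonneg k
  have hpow : (0 : ℝ) ≤ (Y.card : ℝ) ^ (k - 1) := by positivity
  have hM := mass_nonneg Y c v lam σ U
  -- the first part
  have hA : ∑ t ∈ range U, ∑ w ∈ tup k Y,
      ind ((∀ i, ¬ act Y c v lam σ (w i)) ∧ U ≤ (∑ i, v (w i)) + t) * (k * Real.log 5) ≤
      (Y.card : ℝ) ^ (k - 1) * (2 * (k : ℝ) ^ 2 * mass Y c v lam σ U) := by
    have h1 : ∑ t ∈ range U, ∑ w ∈ tup k Y,
        ind ((∀ i, ¬ act Y c v lam σ (w i)) ∧ U ≤ (∑ i, v (w i)) + t) * (k * Real.log 5) =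
        (∑ w ∈ tup k Y, ∑ t ∈ range U,
          ind ((∀ i, ¬ act Y c v lam σ (w i)) ∧ U ≤ (∑ i, v (w i)) + t)) * (k * Real.log 5) := by
      rw [sum_comm, sum_mul]
      exact sum_congr rfl fun w _ => (sum_mul _ _ _).symm
    have h2 : ∑ w ∈ tup k Y, ∑ t ∈ range U,
        ind ((∀ i, ¬ act Y c v lam σ (w i)) ∧ U ≤ (∑ i, v (w i)) + t) ≤
        (k : ℝ) * ((Y.card : ℝ) ^ (k - 1) * mass Y c v lam σ U) := by
      refine (sum_le_sum fun w _ => AvgA_first Y c v lam U σ w).trans (le_of_eq ?_)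
      rw [sum_comm]
      have h3 : ∀ i ∈ (univ : Finset (Fin k)), ∑ w ∈ tup k Y,
          ind (¬ act Y c v lam σ (w i)) * ((min (v (w i)) U : ℕ) : ℝ) =
          (Y.card : ℝ) ^ (k - 1) * mass Y c v lam σ U := fun i _ =>
        sum_tup_one Y i (fun a => ind (¬ act Y c v lam σ a) * ((min (v a) U : ℕ) : ℝ))
      rw [sum_congr rfl h3, sum_const, card_univ, Fintype.card_fin, nsmul_eq_mul]
    have h4 : (k : ℝ) * Real.log 5 ≤ (k : ℝ) * 2 :=
      mul_le_mul_of_nonneg_left AvgA_log_five hk0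
    have h5 : 0 ≤ (k : ℝ) * Real.log 5 := mul_nonneg hk0 (Real.log_nonneg (by norm_num))
    rw [h1]
    calc _ ≤ ((k : ℝ) * ((Y.card : ℝ) ^ (k - 1) * mass Y c v lam σ U)) * (k * Real.log 5) :=
          mul_le_mul_of_nonneg_right h2 h5
      _ ≤ ((k : ℝ) * ((Y.card : ℝ) ^ (k - 1) * mass Y c v lam σ U)) * ((k : ℝ) * 2) :=
          mul_le_mul_of_nonneg_left h4 (by positivity)
      _ = _ := by ring
  -- the second part
  have hB : ∀ t ∈ range U, ∑ w ∈ tup k Y, ∑ i, ∑ j ∈ univ.erase i,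
      (ind (act Y c v lam σ (w j)) + ind (lam < v (w j))) * gi Y c v U t (w i) ≤
      (Y.card : ℝ) ^ (k - 1) * ((k : ℝ) ^ 2 * (κ / σ + κ)) * CE Y (dl v U t) c := by
    intro t _
    have hCE : CE Y (dl v U t) c = ∑ a ∈ Y, gi Y c v U t a := rfl
    have hCE0 : 0 ≤ CE Y (dl v U t) c := by
      rw [hCE]
      exact sum_nonneg fun a ha => gi_nonneg c v U t ha
    have h6 : ∑ a ∈ Y, (ind (act Y c v lam σ a) + ind (lam < v a)) ≤
        (κ / σ + κ) * Y.card := by
      rw [sum_add_distrib]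
      have h7 := act_le Y c v lam hσ hκ
      have h8 : ∑ a ∈ Y, ind (lam < v a) = ((Y.filter (fun a => lam < v a)).card : ℝ) := by
        rw [card_filter, Nat.cast_sum]
        apply sum_congr rfl
        intro a _
        by_cases h : lam < v a
        · rw [if_pos h, ind_of h, Nat.cast_one]
        · rw [if_neg h, ind_of_not h, Nat.cast_zero]
      rw [h8]
      linarith
    have h9 : ∀ i j : Fin k, j ≠ i → ∑ w ∈ tup k Y,
        (ind (act Y c v lam σ (w j)) + ind (lam < v (w j))) * gi Y c v U t (w i) ≤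
        (Y.card : ℝ) ^ (k - 1) * (κ / σ + κ) * CE Y (dl v U t) c := by
      intro i j hji
      have h10 := sum_tup_two Y hji (fun a => ind (act Y c v lam σ a) + ind (lam < v a))
        (fun a => gi Y c v U t a)
      rw [h10, ← hCE]
      have h11 : (∑ a ∈ Y, (ind (act Y c v lam σ a) + ind (lam < v a))) * CE Y (dl v U t) c ≤
          ((κ / σ + κ) * Y.card) * CE Y (dl v U t) c :=
        mul_le_mul_of_nonneg_right h6 hCE0
      have h12 : (0 : ℝ) ≤ (Y.card : ℝ) ^ (k - 2) := by positivity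
      refine (mul_le_mul_of_nonneg_left h11 h12).trans (le_of_eq ?_)
      have h13 : (Y.card : ℝ) ^ (k - 1) = (Y.card : ℝ) ^ (k - 2) * Y.card := by
        rw [← pow_succ]
        congr 1
        omega
      rw [h13]
      ring
    have h14 : 0 ≤ (Y.card : ℝ) ^ (k - 1) * (κ / σ + κ) * CE Y (dl v U t) c := by
      positivity
    rw [sum_comm]
    have h15 : ∀ i ∈ (univ : Finset (Fin k)), ∑ w ∈ tup k Y, ∑ j ∈ univ.erase i,
        (ind (act Y c v lam σ (w j)) + ind (lam < v (w j))) * gi Y c v U t (w i) ≤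
        (k : ℝ) * ((Y.card : ℝ) ^ (k - 1) * (κ / σ + κ) * CE Y (dl v U t) c) := by
      intro i _
      rw [sum_comm]
      refine (sum_le_sum fun j hj => h9 i j (ne_of_mem_erase hj)).trans ?_
      rw [sum_const, nsmul_eq_mul]
      apply mul_le_mul_of_nonneg_right _ h14
      have h16 : (univ.erase i).card ≤ k := by
        rw [card_erase_of_mem (mem_univ i), card_univ, Fintype.card_fin]
        exact Nat.sub_le _ _
      exact_mod_cast h16
    refine (sum_le_sum h15).trans (le_of_eq ?_)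
    rw [sum_const, card_univ, Fintype.card_fin, nsmul_eq_mul]
    ring
  have hsplit : ∑ t ∈ range U, ∑ w ∈ tup k Y, L1 Y c v lam σ U t w =
      ∑ t ∈ range U, ∑ w ∈ tup k Y,
        ind ((∀ i, ¬ act Y c v lam σ (w i)) ∧ U ≤ (∑ i, v (w i)) + t) * (k * Real.log 5) +
      ∑ t ∈ range U, ∑ w ∈ tup k Y, ∑ i, ∑ j ∈ univ.erase i,
        (ind (act Y c v lam σ (w j)) + ind (lam < v (w j))) * gi Y c v U t (w i) := by
    rw [← sum_add_distrib]
    refine sum_congr rfl fun t _ => ?_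
    rw [← sum_add_distrib]
    rfl
  rw [hsplit, mul_add]
  refine add_le_add hA ?_
  refine (sum_le_sum hB).trans (le_of_eq ?_)
  rw [← mul_sum]
  ring

end Pool.Agent.Helper35.TR
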