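import Pool.Agent.Helper35.TR.Ent
import Pool.Agent.Helper35.TR.Mass

set_option autoImplicit false

/-!
MP_120218_co, project TR: the second predictor (module TR-5).

Use `CE_gibbs` with `f w = ∑ i, dl v U t (w i)` and `g w = (X1 w, (c ∘ w, ∑ i, v (w i)))`. Predictor
`q y (x, (p, s))` (whether `w i` is active depends only on `p i`):
* not exactly one index active: `q y = 1` if `y = ∑ i, x i`, else `0`; cost `0`;
* exactly one active index `i0` and `x = 0` (that is `dl v U t (w i) = 0` for `i ≠ i0`): let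
  `s' = (s + t) / U`, `f = (s + t) % U`, `xx = min (1/2) (∑ i ≠ i0, tail (class p i) (f/(k-1)+1))`;
  `q y = 1 - xx` if `y = s'`, `q y = xx / k` if `y < s'` and `s' ≤ y + (k - 1)`, else `0`. With
  `R = ∑ i ≠ i0, v (w i)`: `R ≤ f` iff `dl v U t (w i0) = s'`, and in any case
  `s' ≤ dl v U t (w i0) + (k - 1)`; if `f < R` then `v (w i) ≥ f / (k - 1) + 1` for some `i ≠ i0`, so
  `xx > 0` (`tail_pos`);
* exactly one active index `i0` and `x ≠ 0`: `q y = 1 / k` if `y ≤ s''` and `s'' ≤ y + (k - 1)`,
  else `0`, where `s'' = (s + k * t) / U`; cost `log k`, and `U ≤ v (w i) + t` for some `i ≠ i0`.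
-/

open Finset

namespace Pool.Agent.Helper35.TR

open Pool.Agent.Helper80.LL (fib En)

variable {α β : Type*} [DecidableEq β]

private theorem PredB_xf_nonneg {k : ℕ} (Y : Finset α) (c : α → β) (v : α → ℕ) (w : Fin k → α)
    (i0 : Fin k) (f : ℕ) : 0 ≤ xf Y c v w i0 f := by
  unfold xf
  exact le_min (by norm_num) (Finset.sum_nonneg fun i _ => tail_nonneg Y c v (w i) _)

private theorem PredB_xf_le {k : ℕ} (Y : Finset α) (c : α → β) (v : α → ℕ) (w : Fin k → α)
    (i0 : Fin k) (f : ℕ) : xf Y c v w i0 f ≤ 1 / 2 := by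
  unfold xf
  exact min_le_left _ _

private theorem PredB_logk {k : ℕ} (hk : 2 ≤ k) : 0 ≤ Real.log k := by
  apply Real.log_nonneg
  exact_mod_cast (by omega : 1 ≤ k)

theorem Tc_nonneg {k : ℕ} (hk : 2 ≤ k) (Y : Finset α) (c : α → β) (v : α → ℕ) (w : Fin k → α)
    (i0 : Fin k) (f : ℕ) : 0 ≤ Tc Y c v w i0 f := by
  have h0 := PredB_xf_nonneg Y c v w i0 f
  have h1 := PredB_xf_le Y c v w i0 f
  unfold Tc
  split_ifs
  · have h2 : Real.log (1 - xf Y c v w i0 f) ≤ 0 := Real.log_nonpos (by linarith) (by linarith)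
    linarith
  · have h2 : Real.log (xf Y c v w i0 f) ≤ 0 := Real.log_nonpos h0 (by linarith)
    have h3 := PredB_logk hk
    linarith

/-- `i0` is the only active index -/
private def PredB_P {k : ℕ} (Y : Finset α) (c : α → β) (v : α → ℕ) (lam : ℕ) (σ : ℝ)
    (w : Fin k → α) (i0 : Fin k) : Prop :=
  act Y c v lam σ (w i0) ∧ ∀ i, i ≠ i0 → ¬ act Y c v lam σ (w i)

private noncomputable def PredB_xx {k : ℕ} (Y : Finset α) (c : α → β) (v : α → ℕ) (lam : ℕ) (σ : ℝ)
    (w : Fin k → α) (f : ℕ) : ℝ :=
  ∑ i0, ind (PredB_P Y c v lam σ w i0) * xf Y c v w i0 f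

private noncomputable def PredB_Q {k : ℕ} (Y : Finset α) (c : α → β) (v : α → ℕ) (lam : ℕ) (σ : ℝ)
    (U t : ℕ) (y : ℕ) (w : Fin k → α) : ℝ := by
  classical
  exact if ∃ i0, PredB_P Y c v lam σ w i0 then
      if X1 Y c v lam σ U t w = 0 then
        if y = ((∑ i, v (w i)) + t) / U then
          1 - PredB_xx Y c v lam σ w (((∑ i, v (w i)) + t) % U)
        else if y < ((∑ i, v (w i)) + t) / U ∧ ((∑ i, v (w i)) + t) / U ≤ y + (k - 1) then
          PredB_xx Y c v lam σ w (((∑ i, v (w i)) + t) % U) / k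
        else 0
      else if y ≤ ((∑ i, v (w i)) + k * t) / U ∧ ((∑ i, v (w i)) + k * t) / U ≤ y + (k - 1) then
        1 / k
      else 0
    else if y = ∑ i, X1 Y c v lam σ U t w i then 1 else 0

section

variable {k : ℕ} (Y : Finset α) (c : α → β) (v : α → ℕ) (lam : ℕ) (σ : ℝ)

private theorem PredB_P_unique {w : Fin k → α} {i0 i1 : Fin k}
    (h0 : PredB_P Y c v lam σ w i0) (h1 : PredB_P Y c v lam σ w i1) : i1 = i0 := by
  by_contra hne
  exact h0.2 i1 hne h1.1

private theorem PredB_xx_eq {w : Fin k → α} {i0 : Fin k} (h0 : PredB_P Y c v lam σ w i0) (f : ℕ) :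
    PredB_xx Y c v lam σ w f = xf Y c v w i0 f := by
  unfold PredB_xx
  rw [Finset.sum_eq_single i0]
  · rw [ind_of h0, one_mul]
  · intro i _ hi
    rw [ind_of_not (fun h => hi (PredB_P_unique Y c v lam σ h0 h)), zero_mul]
  · intro h
    exact absurd (Finset.mem_univ _) h

private theorem PredB_Q_nonneg (U t y : ℕ) (w : Fin k → α) :
    0 ≤ PredB_Q Y c v lam σ U t y w := by
  classical
  unfold PredB_Q
  split_ifs with h1 h2 h3 h4 h5 h6
  · obtain ⟨i0, h0⟩ := h1
    rw [PredB_xx_eq Y c v lam σ h0]
    have := PredB_xf_le Y c v w i0 (((∑ i, v (w i)) + t) % U)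
    linarith
  · obtain ⟨i0, h0⟩ := h1
    rw [PredB_xx_eq Y c v lam σ h0]
    exact div_nonneg (PredB_xf_nonneg Y c v w i0 _) (Nat.cast_nonneg k)
  · exact le_refl 0
  · exact div_nonneg zero_le_one (Nat.cast_nonneg k)
  · exact le_refl 0
  · exact zero_le_one
  · exact le_refl 0

private theorem PredB_card {s : ℕ} (T : Finset ℕ) (hk : 2 ≤ k) :
    (T.filter (fun y => y ≤ s ∧ s ≤ y + (k - 1))).card ≤ k := by
  have h1 : T.filter (fun y => y ≤ s ∧ s ≤ y + (k - 1)) ⊆ Finset.Icc (s - (k - 1)) s := by
    intro y hy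
    rw [Finset.mem_filter] at hy
    rw [Finset.mem_Icc]
    omega
  have h2 := Finset.card_le_card h1
  rw [Nat.card_Icc] at h2
  omega

private theorem PredB_card' {s : ℕ} (T : Finset ℕ) (hk : 2 ≤ k) :
    (T.filter (fun y => y < s ∧ s ≤ y + (k - 1))).card ≤ k := by
  refine le_trans (Finset.card_le_card ?_) (PredB_card (k := k) (s := s) T hk)
  intro y hy
  rw [Finset.mem_filter] at hy ⊢
  exact ⟨hy.1, by omega, hy.2.2⟩

private theorem PredB_Q_sum (hk : 2 ≤ k) (U t : ℕ) (w : Fin k → α) (T : Finset ℕ) :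
    ∑ y ∈ T, PredB_Q Y c v lam σ U t y w ≤ 1 := by
  classical
  have hk0 : (0 : ℝ) < k := by exact_mod_cast (by omega : 0 < k)
  by_cases h1 : ∃ i0, PredB_P Y c v lam σ w i0
  · by_cases h2 : X1 Y c v lam σ U t w = 0
    · obtain ⟨i0, h0⟩ := h1
      set s' := ((∑ i, v (w i)) + t) / U with hs'
      set f := ((∑ i, v (w i)) + t) % U with hf
      have hx0 := PredB_xf_nonneg Y c v w i0 f
      have hx1 := PredB_xf_le Y c v w i0 f
      set x := xf Y c v w i0 f with hx
      have hQ : ∀ y, PredB_Q Y c v lam σ U t y w ≤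
          (if y = s' then 1 - x else 0) + (if y < s' ∧ s' ≤ y + (k - 1) then x / k else 0) := by
        intro y
        unfold PredB_Q
        rw [if_pos ⟨i0, h0⟩, if_pos h2, PredB_xx_eq Y c v lam σ h0]
        by_cases h3 : y = s'
        · have h4 : ¬ (y < s' ∧ s' ≤ y + (k - 1)) := by omega
          rw [if_pos h3, if_pos h3, if_neg h4, add_zero]
        · rw [if_neg h3, if_neg h3, zero_add]
      refine le_trans (Finset.sum_le_sum fun y _ => hQ y) ?_
      rw [Finset.sum_add_distrib]
      have h3 : ∑ y ∈ T, (if y = s' then 1 - x else 0) ≤ 1 - x := by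
        rw [Finset.sum_ite_eq' T s']
        split_ifs
        · exact le_refl _
        · linarith
      have h4 : ∑ y ∈ T, (if y < s' ∧ s' ≤ y + (k - 1) then x / k else 0) ≤ x := by
        rw [← Finset.sum_filter, Finset.sum_const, nsmul_eq_mul]
        have h5 : ((T.filter (fun y => y < s' ∧ s' ≤ y + (k - 1))).card : ℝ) ≤ k := by
          exact_mod_cast PredB_card' (k := k) (s := s') T hk
        calc ((T.filter (fun y => y < s' ∧ s' ≤ y + (k - 1))).card : ℝ) * (x / k)
            ≤ k * (x / k) := mul_le_mul_of_nonneg_right h5 (div_nonneg hx0 hk0.le)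
          _ = x := by field_simp
      linarith
    · set s'' := ((∑ i, v (w i)) + k * t) / U with hs''
      have hQ : ∀ y, PredB_Q Y c v lam σ U t y w =
          (if y ≤ s'' ∧ s'' ≤ y + (k - 1) then 1 / (k : ℝ) else 0) := by
        intro y
        unfold PredB_Q
        rw [if_pos h1, if_neg h2]
      rw [Finset.sum_congr rfl fun y _ => hQ y, ← Finset.sum_filter, Finset.sum_const,
        nsmul_eq_mul]
      have h5 : ((T.filter (fun y => y ≤ s'' ∧ s'' ≤ y + (k - 1))).card : ℝ) ≤ k := by
        exact_mod_cast PredB_card (k := k) (s := s'') T hk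
      calc ((T.filter (fun y => y ≤ s'' ∧ s'' ≤ y + (k - 1))).card : ℝ) * (1 / k)
          ≤ k * (1 / k) := mul_le_mul_of_nonneg_right h5 (div_nonneg zero_le_one hk0.le)
        _ = 1 := by field_simp
  · have hQ : ∀ y, PredB_Q Y c v lam σ U t y w =
        (if y = ∑ i, X1 Y c v lam σ U t w i then (1 : ℝ) else 0) := by
      intro y
      unfold PredB_Q
      rw [if_neg h1]
    rw [Finset.sum_congr rfl fun y _ => hQ y, Finset.sum_ite_eq' T]
    split_ifs
    · exact le_refl _
    · exact zero_le_one

private theorem PredB_P_congr {w w' : Fin k → α} (h : (fun i => c (w i)) = fun i => c (w' i))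
    (i0 : Fin k) : PredB_P Y c v lam σ w i0 ↔ PredB_P Y c v lam σ w' i0 := by
  have h' : ∀ i, c (w i) = c (w' i) := fun i => congrFun h i
  unfold PredB_P
  constructor
  · rintro ⟨h1, h2⟩
    exact ⟨(act_congr v lam σ (h' i0)).1 h1, fun i hi h3 => h2 i hi
      ((act_congr v lam σ (h' i)).2 h3)⟩
  · rintro ⟨h1, h2⟩
    exact ⟨(act_congr v lam σ (h' i0)).2 h1, fun i hi h3 => h2 i hi
      ((act_congr v lam σ (h' i)).1 h3)⟩

private theorem PredB_xx_congr {w w' : Fin k → α} (h : (fun i => c (w i)) = fun i => c (w' i))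
    (f : ℕ) : PredB_xx Y c v lam σ w f = PredB_xx Y c v lam σ w' f := by
  have h' : ∀ i, c (w i) = c (w' i) := fun i => congrFun h i
  unfold PredB_xx
  refine Finset.sum_congr rfl fun i0 _ => ?_
  rw [propext (PredB_P_congr Y c v lam σ h i0)]
  congr 1
  unfold xf
  congr 1
  exact Finset.sum_congr rfl fun i _ => tail_congr v (h' i) _

private theorem PredB_Q_congr (U t y : ℕ) {w w' : Fin k → α}
    (hx : X1 Y c v lam σ U t w = X1 Y c v lam σ U t w')
    (h : (fun i => c (w i)) = fun i => c (w' i)) (hs : ∑ i, v (w i) = ∑ i, v (w' i)) :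
    PredB_Q Y c v lam σ U t y w = PredB_Q Y c v lam σ U t y w' := by
  classical
  unfold PredB_Q
  rw [hx, hs, PredB_xx_congr Y c v lam σ h]
  have h1 : (∃ i0, PredB_P Y c v lam σ w i0) = ∃ i0, PredB_P Y c v lam σ w' i0 := by
    refine congrArg _ (funext fun i0 => propext (PredB_P_congr Y c v lam σ h i0))
  by_cases h2 : ∃ i0, PredB_P Y c v lam σ w i0
  · have h3 : ∃ i0, PredB_P Y c v lam σ w' i0 := h1 ▸ h2
    rw [if_pos h2, if_pos h3]
  · have h3 : ¬ ∃ i0, PredB_P Y c v lam σ w' i0 := fun h4 => h2 (h1 ▸ h4)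
    rw [if_neg h2, if_neg h3]

/-- the code length of the true value -/
private theorem PredB_cost (hk : 2 ≤ k) {U : ℕ} (hU : 1 ≤ U) {t : ℕ}
    {w : Fin k → α} (hw : ∀ i, w i ∈ Y) :
    0 < PredB_Q Y c v lam σ U t (∑ i, dl v U t (w i)) w ∧
    - Real.log (PredB_Q Y c v lam σ U t (∑ i, dl v U t (w i)) w) ≤ L2 Y c v lam σ U t w := by
  classical
  have hk0 : (0 : ℝ) < k := by exact_mod_cast (by omega : 0 < k)
  have hlogk := PredB_logk hk
  have hU0 : 0 < U := hU
  by_cases h1 : ∃ i0, PredB_P Y c v lam σ w i0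
  · have h1' := h1
    obtain ⟨i0, h0⟩ := h1
    -- the value of `L2`
    have hL2 : L2 Y c v lam σ U t w =
        Real.log k * ∑ i ∈ univ.erase i0, ind (U ≤ v (w i) + t) +
          Tc Y c v w i0 (((∑ i, v (w i)) + t) % U) := by
      unfold L2
      rw [Finset.sum_eq_single i0]
      · rw [ind_of (show act Y c v lam σ (w i0) ∧ ∀ i, i ≠ i0 → ¬ act Y c v lam σ (w i) from h0),
          one_mul]
      · intro i _ hi
        rw [ind_of_not (fun h : act Y c v lam σ (w i) ∧ ∀ j, j ≠ i → ¬ act Y c v lam σ (w j) =>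
          hi (PredB_P_unique Y c v lam σ h0 h)), zero_mul]
      · intro h
        exact absurd (Finset.mem_univ _) h
    have hX1 : ∀ i, i ≠ i0 → X1 Y c v lam σ U t w i = dl v U t (w i) := by
      intro i hi
      unfold X1
      rw [if_neg]
      rintro ⟨h2, _⟩
      exact h0.2 i hi h2
    have hX0 : X1 Y c v lam σ U t w i0 = 0 := by
      unfold X1
      rw [if_pos]
      exact h0
    have hind : 0 ≤ ∑ i ∈ univ.erase i0, ind (U ≤ v (w i) + t) :=
      Finset.sum_nonneg fun i _ => ind_nonneg _
    have hsum : ∑ i, v (w i) = v (w i0) + ∑ i ∈ univ.erase i0, v (w i) :=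
      (Finset.add_sum_erase _ _ (Finset.mem_univ i0)).symm
    by_cases h2 : X1 Y c v lam σ U t w = 0
    · -- all the other labels vanish
      have hdl : ∀ i, i ≠ i0 → dl v U t (w i) = 0 := by
        intro i hi
        rw [← hX1 i hi, h2]
        rfl
      have hlt : ∀ i, i ≠ i0 → v (w i) + t < U := by
        intro i hi
        have h3 := hdl i hi
        unfold dl at h3
        exact (Nat.div_eq_zero_iff.1 h3).resolve_left (by omega)
      have hy : ∑ i, dl v U t (w i) = (v (w i0) + t) / U := by
        rw [← Finset.add_sum_erase _ _ (Finset.mem_univ i0), Finset.sum_eq_zero, add_zero]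
        · rfl
        · intro i hi
          exact hdl i (Finset.ne_of_mem_erase hi)
      set R := ∑ i ∈ univ.erase i0, v (w i) with hR
      set s' := ((∑ i, v (w i)) + t) / U with hs'
      set f := ((∑ i, v (w i)) + t) % U with hf
      set y := (v (w i0) + t) / U with hyy
      have hdm : U * s' + f = v (w i0) + R + t := by
        rw [hs', hf, hsum]
        exact Nat.div_add_mod _ _
      have hfU : f < U := Nat.mod_lt _ hU0
      have hdm' : U * y + (v (w i0) + t) % U = v (w i0) + t := Nat.div_add_mod _ _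
      have hrU : (v (w i0) + t) % U < U := Nat.mod_lt _ hU0
      have hys : y ≤ s' := by
        rw [hyy, hs', hsum]
        exact Nat.div_le_div_right (by omega)
      have hRle : R ≤ (k - 1) * (U - 1) := by
        have h3 : R ≤ ∑ i ∈ univ.erase i0, (U - 1) := by
          rw [hR]
          refine Finset.sum_le_sum fun i hi => ?_
          have := hlt i (Finset.ne_of_mem_erase hi)
          omega
        rw [Finset.sum_const, Finset.card_erase_of_mem (Finset.mem_univ i0), Finset.card_univ,
          Fintype.card_fin, smul_eq_mul] at h3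
        exact h3
      have hsy : s' ≤ y + (k - 1) := by
        by_contra hcon
        have h3 : y + k ≤ s' := by omega
        have h4 : U * (y + k) ≤ U * s' := Nat.mul_le_mul_left U h3
        have h5 : (k - 1) * (U - 1) + (k - 1) ≤ (k - 1) * U := by
          obtain ⟨u, rfl⟩ : ∃ u, U = u + 1 := ⟨U - 1, by omega⟩
          rw [Nat.add_sub_cancel, Nat.mul_add, Nat.mul_one]
        have h6 : (k - 1) * U + U = k * U := by
          obtain ⟨m, rfl⟩ : ∃ m, k = m + 1 := ⟨k - 1, by omega⟩
          rw [Nat.add_sub_cancel]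
          ring
        have h7 : U * (y + k) = U * y + k * U := by ring
        omega
      have hx0 := PredB_xf_nonneg Y c v w i0 f
      have hx1 := PredB_xf_le Y c v w i0 f
      have hTc : Tc Y c v w i0 f = if R ≤ f then - Real.log (1 - xf Y c v w i0 f)
          else Real.log k - Real.log (xf Y c v w i0 f) := rfl
      rw [hL2, hTc, hy]
      unfold PredB_Q
      rw [if_pos h1', if_pos h2, PredB_xx_eq Y c v lam σ h0, ← hs', ← hf]
      by_cases hRf : R ≤ f
      · have h3 : s' ≤ y := by
          rw [hyy, Nat.le_div_iff_mul_le hU0, Nat.mul_comm]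
          omega
        have h4 : y = s' := le_antisymm hys h3
        rw [if_pos hRf, if_pos h4]
        refine ⟨by linarith, ?_⟩
        have := mul_nonneg hlogk hind
        linarith
      · have h4 : y ≠ s' := by
          intro h5
          rw [← h5] at hdm
          omega
        have h5 : y < s' ∧ s' ≤ y + (k - 1) := ⟨lt_of_le_of_ne hys h4, hsy⟩
        rw [if_neg hRf, if_neg h4, if_pos h5]
        have hxpos : 0 < xf Y c v w i0 f := by
          have h6 : ∃ i ∈ univ.erase i0, f / (k - 1) + 1 ≤ v (w i) := by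
            by_contra hcon
            push Not at hcon
            apply hRf
            calc R ≤ ∑ i ∈ univ.erase i0, f / (k - 1) := by
                  rw [hR]
                  refine Finset.sum_le_sum fun i hi => ?_
                  have := hcon i hi
                  omega
              _ = (k - 1) * (f / (k - 1)) := by
                  rw [Finset.sum_const, Finset.card_erase_of_mem (Finset.mem_univ i0),
                    Finset.card_univ, Fintype.card_fin, smul_eq_mul]
              _ ≤ f := Nat.mul_div_le f (k - 1)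
          obtain ⟨i, hi, hvi⟩ := h6
          unfold xf
          refine lt_min (by norm_num) ?_
          refine lt_of_lt_of_le (tail_pos (c := c) (hw i) hvi) ?_
          exact Finset.single_le_sum (f := fun i => tail Y c v (w i) (f / (k - 1) + 1))
            (fun j _ => tail_nonneg Y c v (w j) _) hi
        refine ⟨div_pos hxpos hk0, ?_⟩
        rw [Real.log_div hxpos.ne' hk0.ne']
        have := mul_nonneg hlogk hind
        linarith
    · -- some other label does not vanish
      have h3 : ∃ i, i ≠ i0 ∧ dl v U t (w i) ≠ 0 := by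
        by_contra hcon
        push Not at hcon
        apply h2
        funext i
        by_cases hi : i = i0
        · rw [hi, hX0]
          rfl
        · rw [hX1 i hi, hcon i hi]
          rfl
      obtain ⟨i, hi, hdi⟩ := h3
      have hUi : U ≤ v (w i) + t := by
        by_contra hcon
        apply hdi
        unfold dl
        exact Nat.div_eq_of_lt (by omega)
      have hone : 1 ≤ ∑ i ∈ univ.erase i0, ind (U ≤ v (w i) + t) := by
        have h4 := Finset.single_le_sum (f := fun i => ind (U ≤ v (w i) + t))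
          (fun j _ => ind_nonneg _) (Finset.mem_erase.2 ⟨hi, Finset.mem_univ i⟩)
        refine le_trans ?_ h4
        show (1 : ℝ) ≤ ind (U ≤ v (w i) + t)
        rw [ind_of hUi]
      have hsumt : (∑ i, v (w i)) + k * t = ∑ i, (v (w i) + t) := by
        rw [Finset.sum_add_distrib, Finset.sum_const, Finset.card_univ, Fintype.card_fin,
          smul_eq_mul]
      have hle : ∑ i, dl v U t (w i) ≤ ((∑ i, v (w i)) + k * t) / U := by
        rw [hsumt, Nat.le_div_iff_mul_le hU0, Finset.sum_mul]
        refine Finset.sum_le_sum fun i _ => ?_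
        unfold dl
        exact Nat.div_mul_le_self _ _
      have hge : ((∑ i, v (w i)) + k * t) / U ≤ (∑ i, dl v U t (w i)) + (k - 1) := by
        have h4 : ∑ i, (v (w i) + t) < ((∑ i, dl v U t (w i)) + k) * U := by
          have h5 : ∀ i : Fin k, v (w i) + t < (dl v U t (w i) + 1) * U := by
            intro i
            unfold dl
            rw [Nat.mul_comm]
            exact Nat.lt_mul_div_succ _ hU0
          have h6 : ∑ i, (v (w i) + t) < ∑ i : Fin k, (dl v U t (w i) + 1) * U := by
            refine Finset.sum_lt_sum (fun i _ => (h5 i).le) ⟨i0, Finset.mem_univ _, h5 i0⟩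
          have h7 : ∑ i : Fin k, (dl v U t (w i) + 1) * U = ((∑ i, dl v U t (w i)) + k) * U := by
            rw [← Finset.sum_mul, Finset.sum_add_distrib, Finset.sum_const, Finset.card_univ,
              Fintype.card_fin, smul_eq_mul, Nat.mul_one]
          rw [← h7]
          exact h6
        rw [hsumt]
        have h7 := Nat.div_lt_of_lt_mul (by rwa [Nat.mul_comm] at h4 : ∑ i, (v (w i) + t) <
          U * ((∑ i, dl v U t (w i)) + k))
        omega
      unfold PredB_Q
      rw [if_pos h1', if_neg h2, if_pos ⟨hle, hge⟩, hL2]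
      refine ⟨div_pos one_pos hk0, ?_⟩
      rw [Real.log_div one_ne_zero hk0.ne', Real.log_one, zero_sub, neg_neg]
      have h8 := Tc_nonneg hk Y c v w i0 (((∑ i, v (w i)) + t) % U)
      have h9 : Real.log k * 1 ≤ Real.log k * ∑ i ∈ univ.erase i0, ind (U ≤ v (w i) + t) :=
        mul_le_mul_of_nonneg_left hone hlogk
      linarith
  · have hX : ∀ i, X1 Y c v lam σ U t w i = dl v U t (w i) := by
      intro i
      unfold X1
      rw [if_neg]
      intro h2
      exact h1 ⟨i, h2⟩
    have hsum : ∑ i, dl v U t (w i) = ∑ i, X1 Y c v lam σ U t w i :=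
      Finset.sum_congr rfl fun i _ => (hX i).symm
    unfold PredB_Q
    rw [if_neg h1, if_pos hsum]
    refine ⟨one_pos, ?_⟩
    rw [Real.log_one, neg_zero]
    unfold L2
    refine Finset.sum_nonneg fun i0 _ => ?_
    rw [ind_of_not (fun h2 : act Y c v lam σ (w i0) ∧ ∀ i, i ≠ i0 → ¬ act Y c v lam σ (w i) =>
      h1 ⟨i0, h2⟩), zero_mul]

end

theorem predB {k : ℕ} (hk : 2 ≤ k) (Y : Finset α) (c : α → β) (v : α → ℕ) {lam U : ℕ}
    (hU : 1 ≤ U) (σ : ℝ) {t : ℕ} (ht : t < U) :
    CE (tup k Y) (fun w => ∑ i, dl v U t (w i))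
      (fun w => (X1 Y c v lam σ U t w, ((fun i => c (w i)), ∑ i, v (w i)))) ≤
      ∑ w ∈ tup k Y, L2 Y c v lam σ U t w := by
  classical
  have _ := ht
  set g : (Fin k → α) → (Fin k → ℕ) × ((Fin k → β) × ℕ) :=
    fun w => (X1 Y c v lam σ U t w, ((fun i => c (w i)), ∑ i, v (w i))) with hg
  have hcongr : ∀ y, ∀ w w' : Fin k → α, g w = g w' →
      PredB_Q Y c v lam σ U t y w = PredB_Q Y c v lam σ U t y w' := by
    intro y w w' h
    have h1 := congrArg Prod.fst h
    have h2 := congrArg (fun z => z.2.1) h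
    have h3 := congrArg (fun z => z.2.2) h
    exact PredB_Q_congr Y c v lam σ U t y h1 h2 h3
  set q : ℕ → (Fin k → ℕ) × ((Fin k → β) × ℕ) → ℝ := fun y e =>
    if h : ∃ w, g w = e then PredB_Q Y c v lam σ U t y h.choose else 0 with hq
  have hqg : ∀ y w, q y (g w) = PredB_Q Y c v lam σ U t y w := by
    intro y w
    have h : ∃ w', g w' = g w := ⟨w, rfl⟩
    rw [hq]
    simp only [dif_pos h]
    exact hcongr y _ _ h.choose_spec
  refine le_trans (CE_gibbs q ?_ ?_ ?_) ?_
  · intro y e
    rw [hq]
    show 0 ≤ if h : ∃ w, g w = e then PredB_Q Y c v lam σ U t y h.choose else 0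
    split_ifs
    · exact PredB_Q_nonneg Y c v lam σ U t y _
    · exact le_refl 0
  · intro w _
    simp only [hqg]
    exact PredB_Q_sum Y c v lam σ hk U t w _
  · intro w hw
    rw [hqg]
    exact (PredB_cost Y c v lam σ hk hU (fun i => (Fintype.mem_piFinset.1 hw) i)).1
  · refine Finset.sum_le_sum fun w hw => ?_
    rw [hqg]
    exact (PredB_cost Y c v lam σ hk hU (fun i => (Fintype.mem_piFinset.1 hw) i)).2

end Pool.Agent.Helper35.TR
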