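import Pool.Agent.Helper35.TR.Pi
import Pool.Agent.Helper35.TR.Mass
import Pool.Agent.Helper35.TR.PredB

set_option autoImplicit false

/-!
MP_120218_co, project TR: average of the second code length (module TR-7).

* `∑ t < U, ind (U ≤ v a + t) = min (v a) U`; `log k ≤ k`.
* `∑ t < U, T w i0 ((S + t) % U) = ∑ f < U, T w i0 f` (`T = Tc Y c v`).
* With `u = f / (k - 1) + 1`: `T w i0 f ≤ 2 x + ∑ i ≠ i0, ind (u ≤ v (w i)) (log k - log x)`,
  `x = xf Y c v w i0 f` is a function of the classes of the `w i`; by `sum_tup_class` and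
  `class_sum` replace `ind (u ≤ v (w i))` by `y i = tail Y c v (w i) u`, `y = ∑ i ≠ i0, y i`;
  `2 x + y (log k - log x) ≤ (3 + log k) y + ∑ i ≠ i0, negMulLog (y i)`.
* For `f < U` the number `f / (k - 1) + 1` takes every value in `[1, U]` at most `k - 1` times (and
  no other value): the first part is at most `(k - 1) * mass` per pair `(i0, i)` (`mass_eq`), in the
  second part keep `ind (act (w i0))` and use `sum_tup_two`, `act_le` and `sum_phi_le`.
-/

open Finset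

namespace Pool.Agent.Helper35.TR

open Pool.Agent.Helper80.LL (fib En)

variable {α β : Type*} [DecidableEq β]

theorem AvgB_min (a U : ℕ) : ∑ t ∈ range U, ind (U ≤ a + t) = ((min a U : ℕ) : ℝ) := by
  classical
  have h1 : ∀ t ∈ range U, ind (U ≤ a + t) = if U ≤ a + t then (1 : ℝ) else 0 := by
    intro t _
    by_cases h : U ≤ a + t
    · rw [ind_of h, if_pos h]
    · rw [ind_of_not h, if_neg h]
  rw [sum_congr rfl h1, ← sum_filter, sum_const, nsmul_eq_mul, mul_one]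
  have h2 : (range U).filter (fun t => U ≤ a + t) = Ico (U - a) U := by
    ext t
    simp only [mem_filter, mem_range, mem_Ico]
    omega
  rw [h2, Nat.card_Ico]
  congr 1
  omega

theorem AvgB_mod {U : ℕ} (g : ℕ → ℝ) (S : ℕ) :
    ∑ t ∈ range U, g ((S + t) % U) = ∑ f ∈ range U, g f := by
  induction S with
  | zero =>
    apply sum_congr rfl
    intro t ht
    rw [Nat.zero_add, Nat.mod_eq_of_lt (mem_range.1 ht)]
  | succ S ih =>
    rw [← ih]
    have h1 := sum_range_succ' (fun t => g ((S + t) % U)) U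
    have h2 := sum_range_succ (fun t => g ((S + t) % U)) U
    simp only [Nat.add_mod_right, Nat.add_zero] at h1 h2
    have h3 : ∀ t ∈ range U, g ((S + 1 + t) % U) = g ((S + (t + 1)) % U) := by
      intro t _
      congr 2
      omega
    rw [sum_congr rfl h3]
    linarith

theorem AvgB_div {m U : ℕ} (hm : 1 ≤ m) (g : ℕ → ℝ) (hg : ∀ u ∈ Icc 1 U, 0 ≤ g u) :
    ∑ f ∈ range U, g (f / m + 1) ≤ (m : ℝ) * ∑ u ∈ Icc 1 U, g u := by
  have h1 : ∀ f ∈ range U, f / m + 1 ∈ Icc 1 U := by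
    intro f hf
    rw [mem_range] at hf
    rw [mem_Icc]
    have h0 := Nat.div_le_self f m
    exact ⟨Nat.le_add_left 1 (f / m), by
      generalize f / m = d at h0 ⊢
      omega⟩
  rw [← sum_fiberwise_of_maps_to h1, mul_sum]
  apply sum_le_sum
  intro u hu
  have h2 : ∀ f ∈ (range U).filter (fun f => f / m + 1 = u), g (f / m + 1) = g u := by
    intro f hf
    rw [(mem_filter.1 hf).2]
  rw [sum_congr rfl h2, sum_const, nsmul_eq_mul]
  apply mul_le_mul_of_nonneg_right _ (hg u hu)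
  have h3 : (range U).filter (fun f => f / m + 1 = u) ⊆ Ico ((u - 1) * m) ((u - 1) * m + m) := by
    intro f hf
    rw [mem_filter] at hf
    have h4 := hf.2
    have h5 : f / m = u - 1 := by rw [← h4, Nat.add_sub_cancel]
    have h6 := Nat.div_add_mod f m
    have hm' : 0 < m := hm
    have h7 := Nat.mod_lt f hm'
    rw [h5] at h6
    rw [mem_Ico, mul_comm (u - 1) m]
    generalize m * (u - 1) = z at h6 ⊢
    generalize f % m = r at h6 h7
    omega
  have h8 := card_le_card h3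
  rw [Nat.card_Ico] at h8
  have h9 : ((range U).filter (fun f => f / m + 1 = u)).card ≤ m := by omega
  exact_mod_cast h9

theorem AvgB_xf_nonneg {k : ℕ} (Y : Finset α) (c : α → β) (v : α → ℕ) (w : Fin k → α)
    (i0 : Fin k) (f : ℕ) : 0 ≤ xf Y c v w i0 f := by
  unfold xf
  apply le_min (by norm_num)
  exact sum_nonneg fun i _ => tail_nonneg Y c v (w i) _

theorem AvgB_xf_le {k : ℕ} (Y : Finset α) (c : α → β) (v : α → ℕ) (w : Fin k → α)
    (i0 : Fin k) (f : ℕ) : xf Y c v w i0 f ≤ 1 / 2 := min_le_left _ _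

theorem AvgB_log_nonneg {k : ℕ} (hk : 2 ≤ k) (Y : Finset α) (c : α → β) (v : α → ℕ)
    (w : Fin k → α) (i0 : Fin k) (f : ℕ) :
    0 ≤ Real.log k - Real.log (xf Y c v w i0 f) := by
  have h1 : 0 ≤ Real.log k := Real.log_nonneg (by exact_mod_cast (show 1 ≤ k by omega))
  have h2 : Real.log (xf Y c v w i0 f) ≤ 0 :=
    Real.log_nonpos (AvgB_xf_nonneg Y c v w i0 f) (by linarith [AvgB_xf_le Y c v w i0 f])
  linarith

theorem AvgB_T {k : ℕ} (hk : 2 ≤ k) (Y : Finset α) (c : α → β) (v : α → ℕ) (w : Fin k → α)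
    (i0 : Fin k) (f : ℕ) :
    Tc Y c v w i0 f ≤ 2 * xf Y c v w i0 f + ∑ i ∈ univ.erase i0,
      (Real.log k - Real.log (xf Y c v w i0 f)) * ind (f / (k - 1) + 1 ≤ v (w i)) := by
  have hx0 := AvgB_xf_nonneg Y c v w i0 f
  have hx1 := AvgB_xf_le Y c v w i0 f
  have hl := AvgB_log_nonneg hk Y c v w i0 f
  have hs : 0 ≤ ∑ i ∈ univ.erase i0,
      (Real.log k - Real.log (xf Y c v w i0 f)) * ind (f / (k - 1) + 1 ≤ v (w i)) :=
    sum_nonneg fun i _ => mul_nonneg hl (ind_nonneg _)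
  unfold Tc
  split_ifs with h
  · have h1 : 0 < 1 - xf Y c v w i0 f := by linarith
    have h2 := Real.one_sub_inv_le_log_of_pos h1
    have h3 : (1 - xf Y c v w i0 f)⁻¹ ≤ 1 + 2 * xf Y c v w i0 f := by
      rw [inv_le_iff_one_le_mul₀ h1]
      nlinarith
    linarith
  · have h1 : ∃ i ∈ univ.erase i0, f / (k - 1) + 1 ≤ v (w i) := by
      by_contra hcon
      push Not at hcon
      apply h
      have h2 : ∑ i ∈ univ.erase i0, v (w i) ≤ ∑ i ∈ univ.erase i0, f / (k - 1) := by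
        apply sum_le_sum
        intro i hi
        have := hcon i hi
        omega
      rw [sum_const, card_erase_of_mem (mem_univ i0), card_univ, Fintype.card_fin,
        smul_eq_mul] at h2
      exact le_trans h2 (Nat.mul_div_le f (k - 1))
    obtain ⟨i, hi, hiv⟩ := h1
    have h2 : Real.log k - Real.log (xf Y c v w i0 f) ≤ ∑ i ∈ univ.erase i0,
        (Real.log k - Real.log (xf Y c v w i0 f)) * ind (f / (k - 1) + 1 ≤ v (w i)) := by
      have h3 := single_le_sum (f := fun i => (Real.log k - Real.log (xf Y c v w i0 f)) *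
        ind (f / (k - 1) + 1 ≤ v (w i))) (fun j _ => mul_nonneg hl (ind_nonneg _)) hi
      rw [ind_of hiv, mul_one] at h3
      exact h3
    linarith

theorem AvgB_y {ι : Type*} (s : Finset ι) (y : ι → ℝ) (h0 : ∀ i ∈ s, 0 ≤ y i)
    (h1 : ∀ i ∈ s, y i ≤ 1) (L : ℝ) :
    2 * min (1 / 2) (∑ i ∈ s, y i) + (L - Real.log (min (1 / 2) (∑ i ∈ s, y i))) * ∑ i ∈ s, y i ≤
      (3 + L) * ∑ i ∈ s, y i + ∑ i ∈ s, Real.negMulLog (y i) := by
  have hy : 0 ≤ ∑ i ∈ s, y i := sum_nonneg h0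
  have hn : 0 ≤ ∑ i ∈ s, Real.negMulLog (y i) :=
    sum_nonneg fun i hi => Real.negMulLog_nonneg (h0 i hi) (h1 i hi)
  rcases le_total (∑ i ∈ s, y i) (1 / 2) with h | h
  · rw [min_eq_right h]
    have h2 : - Real.log (∑ i ∈ s, y i) * ∑ i ∈ s, y i ≤ ∑ i ∈ s, Real.negMulLog (y i) := by
      rw [mul_sum]
      apply sum_le_sum
      intro i hi
      rcases eq_or_lt_of_le (h0 i hi) with h3 | h3
      · rw [← h3]; simp
      · have h4 : y i ≤ ∑ i ∈ s, y i := single_le_sum h0 hi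
        have h5 := Real.log_le_log h3 h4
        unfold Real.negMulLog
        nlinarith
    nlinarith
  · rw [min_eq_left h]
    have h2 : - Real.log (1 / 2) ≤ 1 := by
      rw [one_div, Real.log_inv]
      have := Real.log_two_lt_d9
      linarith
    nlinarith

theorem AvgB_one {k : ℕ} (hk : 2 ≤ k) (Y : Finset α) (c : α → β) (v : α → ℕ) (lam : ℕ) (σ : ℝ)
    (i0 : Fin k) (f : ℕ) :
    ∑ w ∈ tup k Y, ind (act Y c v lam σ (w i0) ∧ ∀ i, i ≠ i0 → ¬ act Y c v lam σ (w i)) *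
      Tc Y c v w i0 f ≤
    ∑ w ∈ tup k Y, ind (act Y c v lam σ (w i0) ∧ ∀ i, i ≠ i0 → ¬ act Y c v lam σ (w i)) *
      ((3 + Real.log k) * ∑ i ∈ univ.erase i0, tail Y c v (w i) (f / (k - 1) + 1) +
        ∑ i ∈ univ.erase i0, Real.negMulLog (tail Y c v (w i) (f / (k - 1) + 1))) := by
  set A : (Fin k → α) → ℝ := fun w =>
    ind (act Y c v lam σ (w i0) ∧ ∀ i, i ≠ i0 → ¬ act Y c v lam σ (w i)) with hA
  have hA0 : ∀ w, 0 ≤ A w := fun w => ind_nonneg _
  have hAc : ∀ w w' : Fin k → α, (∀ j, c (w j) = c (w' j)) → A w = A w' := by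
    intro w w' h
    have h1 : (act Y c v lam σ (w i0) ∧ ∀ i, i ≠ i0 → ¬ act Y c v lam σ (w i)) =
        (act Y c v lam σ (w' i0) ∧ ∀ i, i ≠ i0 → ¬ act Y c v lam σ (w' i)) := by
      apply propext
      rw [act_congr v lam σ (h i0)]
      simp only [fun i => act_congr (Y := Y) v lam σ (h i)]
    simp only [hA]
    rw [h1]
  have hxc : ∀ w w' : Fin k → α, (∀ j, c (w j) = c (w' j)) →
      xf Y c v w i0 f = xf Y c v w' i0 f := by
    intro w w' h
    unfold xf
    congr 1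
    apply sum_congr rfl
    intro i _
    exact tail_congr v (h i) _
  have step1 : ∑ w ∈ tup k Y, A w * Tc Y c v w i0 f ≤ ∑ w ∈ tup k Y, A w *
      (2 * xf Y c v w i0 f + ∑ i ∈ univ.erase i0,
        (Real.log k - Real.log (xf Y c v w i0 f)) * ind (f / (k - 1) + 1 ≤ v (w i))) :=
    sum_le_sum fun w _ => mul_le_mul_of_nonneg_left (AvgB_T hk Y c v w i0 f) (hA0 w)
  have step2 : ∑ w ∈ tup k Y, A w *
      (2 * xf Y c v w i0 f + ∑ i ∈ univ.erase i0,
        (Real.log k - Real.log (xf Y c v w i0 f)) * ind (f / (k - 1) + 1 ≤ v (w i))) =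
      ∑ w ∈ tup k Y, A w * (2 * xf Y c v w i0 f) +
        ∑ i ∈ univ.erase i0, ∑ w ∈ tup k Y, (A w *
          (Real.log k - Real.log (xf Y c v w i0 f))) * ind (f / (k - 1) + 1 ≤ v (w i)) := by
    rw [sum_comm, ← sum_add_distrib]
    apply sum_congr rfl
    intro w _
    rw [mul_add, mul_sum]
    congr 1
    apply sum_congr rfl
    intro i _
    ring
  have step3 : ∀ i ∈ univ.erase i0, ∑ w ∈ tup k Y, (A w *
          (Real.log k - Real.log (xf Y c v w i0 f))) * ind (f / (k - 1) + 1 ≤ v (w i)) =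
      ∑ w ∈ tup k Y, (A w *
          (Real.log k - Real.log (xf Y c v w i0 f))) * tail Y c v (w i) (f / (k - 1) + 1) := by
    intro i _
    apply sum_tup_class Y c i (fun w => A w * (Real.log k - Real.log (xf Y c v w i0 f)))
      (fun w _ w' _ h => by rw [hAc w w' h, hxc w w' h])
      (fun a => ind (f / (k - 1) + 1 ≤ v a)) (fun a => tail Y c v a (f / (k - 1) + 1))
    intro H hH
    exact class_sum Y c v (f / (k - 1) + 1) H hH
  have step4 : ∑ w ∈ tup k Y, A w * (2 * xf Y c v w i0 f) +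
        ∑ i ∈ univ.erase i0, ∑ w ∈ tup k Y, (A w *
          (Real.log k - Real.log (xf Y c v w i0 f))) * tail Y c v (w i) (f / (k - 1) + 1) =
      ∑ w ∈ tup k Y, A w * (2 * xf Y c v w i0 f + (Real.log k - Real.log (xf Y c v w i0 f)) *
        ∑ i ∈ univ.erase i0, tail Y c v (w i) (f / (k - 1) + 1)) := by
    rw [sum_comm, ← sum_add_distrib]
    apply sum_congr rfl
    intro w _
    rw [mul_add, mul_sum, mul_sum]
    congr 1
    apply sum_congr rfl
    intro i _
    ring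
  have step5 : ∑ w ∈ tup k Y, A w * (2 * xf Y c v w i0 f +
      (Real.log k - Real.log (xf Y c v w i0 f)) *
        ∑ i ∈ univ.erase i0, tail Y c v (w i) (f / (k - 1) + 1)) ≤
      ∑ w ∈ tup k Y, A w *
      ((3 + Real.log k) * ∑ i ∈ univ.erase i0, tail Y c v (w i) (f / (k - 1) + 1) +
        ∑ i ∈ univ.erase i0, Real.negMulLog (tail Y c v (w i) (f / (k - 1) + 1))) := by
    apply sum_le_sum
    intro w _
    apply mul_le_mul_of_nonneg_left _ (hA0 w)
    exact AvgB_y (univ.erase i0) (fun i => tail Y c v (w i) (f / (k - 1) + 1))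
      (fun i _ => tail_nonneg Y c v (w i) _) (fun i _ => tail_le_one Y c v (w i) _) (Real.log k)
  rw [step2, sum_congr rfl step3, step4] at step1
  exact le_trans step1 step5

theorem AvgB_two {k : ℕ} (hk : 2 ≤ k) {Y : Finset α} (hY : Y.Nonempty) (c : α → β) (v : α → ℕ)
    {lam : ℕ} {σ κ : ℝ} (hσ : 0 < σ)
    (hκ : ((Y.filter (fun a => lam < v a)).card : ℝ) ≤ κ * Y.card) (i0 : Fin k) (f : ℕ) :
    ∑ w ∈ tup k Y, ind (act Y c v lam σ (w i0) ∧ ∀ i, i ≠ i0 → ¬ act Y c v lam σ (w i)) *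
      Tc Y c v w i0 f ≤
    ((k : ℝ) * (Y.card : ℝ) ^ (k - 1)) *
      ((3 + (k : ℝ)) * ∑ a ∈ Y, ind (¬ act Y c v lam σ a) * tail Y c v a (f / (k - 1) + 1) +
        κ / σ * ∑ a ∈ Y, Real.negMulLog (tail Y c v a (f / (k - 1) + 1))) := by
  refine le_trans (AvgB_one hk Y c v lam σ i0 f) ?_
  set u : ℕ := f / (k - 1) + 1 with hu
  have hlog : Real.log k ≤ k := by
    have h0 : (0 : ℝ) < k := by exact_mod_cast (show 0 < k by omega)
    have := Real.log_le_sub_one_of_pos h0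
    linarith
  have hlog0 : 0 ≤ Real.log k := Real.log_nonneg (by exact_mod_cast (show 1 ≤ k by omega))
  have hk0 : (0 : ℝ) ≤ k := Nat.cast_nonneg k
  have hYp : (0 : ℝ) < Y.card := by exact_mod_cast card_pos.2 hY
  have hM0 : 0 ≤ ∑ a ∈ Y, ind (¬ act Y c v lam σ a) * tail Y c v a u :=
    sum_nonneg fun a _ => mul_nonneg (ind_nonneg _) (tail_nonneg Y c v a u)
  have hN0 : 0 ≤ ∑ a ∈ Y, Real.negMulLog (tail Y c v a u) :=
    sum_nonneg fun a _ => Real.negMulLog_nonneg (tail_nonneg Y c v a u) (tail_le_one Y c v a u)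
  have hterm : ∀ w ∈ tup k Y,
      ind (act Y c v lam σ (w i0) ∧ ∀ i, i ≠ i0 → ¬ act Y c v lam σ (w i)) *
      ((3 + Real.log k) * ∑ i ∈ univ.erase i0, tail Y c v (w i) u +
        ∑ i ∈ univ.erase i0, Real.negMulLog (tail Y c v (w i) u)) ≤
      ∑ i ∈ univ.erase i0, ((3 + (k : ℝ)) * (ind (¬ act Y c v lam σ (w i)) * tail Y c v (w i) u) +
        ind (act Y c v lam σ (w i0)) * Real.negMulLog (tail Y c v (w i) u)) := by
    intro w _
    rw [mul_sum, ← sum_add_distrib, mul_sum]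
    apply sum_le_sum
    intro i hi
    have hne : i ≠ i0 := ne_of_mem_erase hi
    have t0 := tail_nonneg Y c v (w i) u
    have n0 := Real.negMulLog_nonneg t0 (tail_le_one Y c v (w i) u)
    have a1 : ind (act Y c v lam σ (w i0) ∧ ∀ i, i ≠ i0 → ¬ act Y c v lam σ (w i)) ≤
        ind (¬ act Y c v lam σ (w i)) := ind_mono fun h => h.2 i hne
    have a2 : ind (act Y c v lam σ (w i0) ∧ ∀ i, i ≠ i0 → ¬ act Y c v lam σ (w i)) ≤
        ind (act Y c v lam σ (w i0)) := ind_mono fun h => h.1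
    have a3 := ind_nonneg (act Y c v lam σ (w i0) ∧ ∀ i, i ≠ i0 → ¬ act Y c v lam σ (w i))
    rw [mul_add]
    apply add_le_add
    · calc ind (act Y c v lam σ (w i0) ∧ ∀ i, i ≠ i0 → ¬ act Y c v lam σ (w i)) *
          ((3 + Real.log k) * tail Y c v (w i) u)
          ≤ ind (¬ act Y c v lam σ (w i)) * ((3 + (k : ℝ)) * tail Y c v (w i) u) := by
            apply mul_le_mul a1 _ (by positivity) (ind_nonneg _)
            apply mul_le_mul_of_nonneg_right _ t0
            linarith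
        _ = _ := by ring
    · exact mul_le_mul_of_nonneg_right a2 n0
  refine le_trans (sum_le_sum hterm) ?_
  rw [sum_comm]
  have hi : ∀ i ∈ univ.erase i0, ∑ w ∈ tup k Y,
      ((3 + (k : ℝ)) * (ind (¬ act Y c v lam σ (w i)) * tail Y c v (w i) u) +
        ind (act Y c v lam σ (w i0)) * Real.negMulLog (tail Y c v (w i) u)) ≤
      (Y.card : ℝ) ^ (k - 1) *
      ((3 + (k : ℝ)) * ∑ a ∈ Y, ind (¬ act Y c v lam σ a) * tail Y c v a u +
        κ / σ * ∑ a ∈ Y, Real.negMulLog (tail Y c v a u)) := by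
    intro i hi
    have hne : i0 ≠ i := (ne_of_mem_erase hi).symm
    rw [sum_add_distrib, ← mul_sum,
      sum_tup_one Y i (fun a => ind (¬ act Y c v lam σ a) * tail Y c v a u),
      sum_tup_two Y hne (fun a => ind (act Y c v lam σ a))
        (fun a => Real.negMulLog (tail Y c v a u))]
    have h1 := act_le Y c v lam hσ hκ
    have h2 : (Y.card : ℝ) ^ (k - 1) = (Y.card : ℝ) ^ (k - 2) * Y.card := by
      rw [← pow_succ]
      congr 1
      omega
    have h3 : (Y.card : ℝ) ^ (k - 2) * ((∑ a ∈ Y, ind (act Y c v lam σ a)) *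
        ∑ a ∈ Y, Real.negMulLog (tail Y c v a u)) ≤ (Y.card : ℝ) ^ (k - 2) *
        ((κ / σ * Y.card) * ∑ a ∈ Y, Real.negMulLog (tail Y c v a u)) := by
      apply mul_le_mul_of_nonneg_left _ (by positivity)
      exact mul_le_mul_of_nonneg_right h1 hN0
    calc _ ≤ (3 + (k : ℝ)) * ((Y.card : ℝ) ^ (k - 1) *
          ∑ a ∈ Y, ind (¬ act Y c v lam σ a) * tail Y c v a u) + (Y.card : ℝ) ^ (k - 2) *
        ((κ / σ * Y.card) * ∑ a ∈ Y, Real.negMulLog (tail Y c v a u)) := by linarith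
      _ = _ := by rw [h2]; ring
  have hκ0 : 0 ≤ κ := by
    have h1 : (0 : ℝ) ≤ κ * Y.card := le_trans (Nat.cast_nonneg _) hκ
    exact nonneg_of_mul_nonneg_left h1 hYp
  have hR : 0 ≤ (Y.card : ℝ) ^ (k - 1) *
      ((3 + (k : ℝ)) * ∑ a ∈ Y, ind (¬ act Y c v lam σ a) * tail Y c v a u +
        κ / σ * ∑ a ∈ Y, Real.negMulLog (tail Y c v a u)) := by positivity
  refine le_trans (sum_le_sum hi) ?_
  rw [sum_const, card_erase_of_mem (mem_univ i0), card_univ, Fintype.card_fin, nsmul_eq_mul]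
  have hk1 : ((k - 1 : ℕ) : ℝ) ≤ k := by exact_mod_cast Nat.sub_le k 1
  calc _ ≤ (k : ℝ) * ((Y.card : ℝ) ^ (k - 1) *
      ((3 + (k : ℝ)) * ∑ a ∈ Y, ind (¬ act Y c v lam σ a) * tail Y c v a u +
        κ / σ * ∑ a ∈ Y, Real.negMulLog (tail Y c v a u))) :=
        mul_le_mul_of_nonneg_right hk1 hR
    _ = _ := by ring

theorem AvgB_first {k : ℕ} (Y : Finset α) (c : α → β) (v : α → ℕ) {lam U : ℕ} {σ : ℝ}
    {i0 i : Fin k} (hne : i ≠ i0) :
    ∑ w ∈ tup k Y, ind (act Y c v lam σ (w i0) ∧ ∀ i, i ≠ i0 → ¬ act Y c v lam σ (w i)) *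
      ((min (v (w i)) U : ℕ) : ℝ) ≤ (Y.card : ℝ) ^ (k - 1) * mass Y c v lam σ U := by
  unfold mass
  rw [← sum_tup_one Y i (fun a => ind (¬ act Y c v lam σ a) * ((min (v a) U : ℕ) : ℝ))]
  apply sum_le_sum
  intro w _
  apply mul_le_mul_of_nonneg_right _ (Nat.cast_nonneg _)
  exact ind_mono fun h => h.2 i hne

theorem avgB {k : ℕ} (hk : 2 ≤ k) {Y : Finset α} (hY : Y.Nonempty) (c : α → β) (v : α → ℕ)
    {lam U : ℕ} (hU : 1 ≤ U) {σ κ : ℝ} (hσ : 0 < σ)
    (hκ : ((Y.filter (fun a => lam < v a)).card : ℝ) ≤ κ * Y.card) :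
    ∑ t ∈ range U, ∑ w ∈ tup k Y, L2 Y c v lam σ U t w ≤
      (Y.card : ℝ) ^ (k - 1) * (((k : ℝ) ^ 2 + 3 * (k : ℝ) ^ 3 + (k : ℝ) ^ 4) *
        mass Y c v lam σ U +
        (k : ℝ) ^ 3 * (κ / σ) * ∑ t ∈ range U, CE Y (dl v U t) c) := by
  have hk0 : (0 : ℝ) ≤ k := Nat.cast_nonneg k
  have hk2 : (2 : ℝ) ≤ k := by exact_mod_cast hk
  have hYp : (0 : ℝ) < Y.card := by exact_mod_cast card_pos.2 hY
  have hlog : Real.log k ≤ k := by
    have h0 : (0 : ℝ) < k := by exact_mod_cast (show 0 < k by omega)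
    have := Real.log_le_sub_one_of_pos h0
    linarith
  have hlog0 : 0 ≤ Real.log k := Real.log_nonneg (by exact_mod_cast (show 1 ≤ k by omega))
  have hκ0 : 0 ≤ κ := by
    have h1 : (0 : ℝ) ≤ κ * Y.card := le_trans (Nat.cast_nonneg _) hκ
    exact nonneg_of_mul_nonneg_left h1 hYp
  have hm0 := mass_nonneg Y c v lam σ U
  -- the sum over `t`
  have e1 : ∑ t ∈ range U, ∑ w ∈ tup k Y, L2 Y c v lam σ U t w = ∑ i0 : Fin k,
      (Real.log k * ∑ i ∈ univ.erase i0, ∑ w ∈ tup k Y,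
        ind (act Y c v lam σ (w i0) ∧ ∀ i, i ≠ i0 → ¬ act Y c v lam σ (w i)) *
          ((min (v (w i)) U : ℕ) : ℝ) +
      ∑ f ∈ range U, ∑ w ∈ tup k Y,
        ind (act Y c v lam σ (w i0) ∧ ∀ i, i ≠ i0 → ¬ act Y c v lam σ (w i)) *
          Tc Y c v w i0 f) := by
    rw [sum_comm]
    have h1 : ∀ w ∈ tup k Y, ∑ t ∈ range U, L2 Y c v lam σ U t w = ∑ i0 : Fin k,
        (Real.log k * ∑ i ∈ univ.erase i0,
          ind (act Y c v lam σ (w i0) ∧ ∀ i, i ≠ i0 → ¬ act Y c v lam σ (w i)) *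
            ((min (v (w i)) U : ℕ) : ℝ) +
        ∑ f ∈ range U, ind (act Y c v lam σ (w i0) ∧ ∀ i, i ≠ i0 → ¬ act Y c v lam σ (w i)) *
            Tc Y c v w i0 f) := by
      intro w _
      unfold L2
      rw [sum_comm]
      apply sum_congr rfl
      intro i0 _
      rw [← mul_sum, sum_add_distrib, ← mul_sum, sum_comm,
        AvgB_mod (fun f => Tc Y c v w i0 f) (∑ i, v (w i))]
      simp_rw [AvgB_min]
      rw [mul_add, ← mul_sum, ← mul_sum]
      ring
    rw [sum_congr rfl h1, sum_comm]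
    apply sum_congr rfl
    intro i0 _
    rw [sum_add_distrib, ← mul_sum, sum_comm]
    congr 1
    rw [sum_comm]
  rw [e1]
  have h2 : ∀ i0 ∈ (univ : Finset (Fin k)),
      (Real.log k * ∑ i ∈ univ.erase i0, ∑ w ∈ tup k Y,
        ind (act Y c v lam σ (w i0) ∧ ∀ i, i ≠ i0 → ¬ act Y c v lam σ (w i)) *
          ((min (v (w i)) U : ℕ) : ℝ) +
      ∑ f ∈ range U, ∑ w ∈ tup k Y,
        ind (act Y c v lam σ (w i0) ∧ ∀ i, i ≠ i0 → ¬ act Y c v lam σ (w i)) *
          Tc Y c v w i0 f) ≤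
      (Y.card : ℝ) ^ (k - 1) * (((k : ℝ) + 3 * (k : ℝ) ^ 2 + (k : ℝ) ^ 3) *
        mass Y c v lam σ U +
        (k : ℝ) ^ 2 * (κ / σ) * ∑ t ∈ range U, CE Y (dl v U t) c) := by
    intro i0 _
    have p1 : ∑ i ∈ univ.erase i0, ∑ w ∈ tup k Y,
        ind (act Y c v lam σ (w i0) ∧ ∀ i, i ≠ i0 → ¬ act Y c v lam σ (w i)) *
          ((min (v (w i)) U : ℕ) : ℝ) ≤
        (k - 1) * ((Y.card : ℝ) ^ (k - 1) * mass Y c v lam σ U) := by
      have q : ∀ i ∈ univ.erase i0, ∑ w ∈ tup k Y,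
        ind (act Y c v lam σ (w i0) ∧ ∀ i, i ≠ i0 → ¬ act Y c v lam σ (w i)) *
          ((min (v (w i)) U : ℕ) : ℝ) ≤ (Y.card : ℝ) ^ (k - 1) * mass Y c v lam σ U :=
        fun i hi => AvgB_first Y c v (ne_of_mem_erase hi)
      refine le_trans (sum_le_sum q) ?_
      rw [sum_const, card_erase_of_mem (mem_univ i0), card_univ, Fintype.card_fin, nsmul_eq_mul,
        Nat.cast_sub (by omega), Nat.cast_one]
    have p2 : ∑ f ∈ range U, ∑ w ∈ tup k Y,
        ind (act Y c v lam σ (w i0) ∧ ∀ i, i ≠ i0 → ¬ act Y c v lam σ (w i)) *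
          Tc Y c v w i0 f ≤ ((k : ℝ) * (Y.card : ℝ) ^ (k - 1)) * ((k - 1) *
        ((3 + (k : ℝ)) * mass Y c v lam σ U +
          κ / σ * ∑ t ∈ range U, CE Y (dl v U t) c)) := by
      refine le_trans (sum_le_sum fun f _ => AvgB_two hk hY c v hσ hκ i0 f) ?_
      rw [← mul_sum]
      apply mul_le_mul_of_nonneg_left _ (by positivity)
      have hM0 : ∀ u, 0 ≤ ∑ a ∈ Y, ind (¬ act Y c v lam σ a) * tail Y c v a u := fun u =>
        sum_nonneg fun a _ => mul_nonneg (ind_nonneg _) (tail_nonneg Y c v a u)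
      have hN0 : ∀ u, 0 ≤ ∑ a ∈ Y, Real.negMulLog (tail Y c v a u) := fun u =>
        sum_nonneg fun a _ =>
          Real.negMulLog_nonneg (tail_nonneg Y c v a u) (tail_le_one Y c v a u)
      have r := AvgB_div (U := U) (show 1 ≤ k - 1 by omega)
        (fun u => (3 + (k : ℝ)) * ∑ a ∈ Y, ind (¬ act Y c v lam σ a) * tail Y c v a u +
          κ / σ * ∑ a ∈ Y, Real.negMulLog (tail Y c v a u))
        (fun u _ => by have := hM0 u; have := hN0 u; positivity)
      refine le_trans r ?_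
      rw [Nat.cast_sub (by omega), Nat.cast_one]
      apply mul_le_mul_of_nonneg_left _ (by linarith)
      rw [sum_add_distrib, ← mul_sum, ← mul_sum, ← mass_eq]
      have s := sum_phi_le Y c v U
      have : κ / σ * ∑ u ∈ Icc 1 U, ∑ a ∈ Y, Real.negMulLog (tail Y c v a u) ≤
          κ / σ * ∑ t ∈ range U, CE Y (dl v U t) c :=
        mul_le_mul_of_nonneg_left s (by positivity)
      linarith
    have hN : 0 ≤ ∑ t ∈ range U, CE Y (dl v U t) c := by
      refine le_trans ?_ (sum_phi_le Y c v U)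
      exact sum_nonneg fun u _ => sum_nonneg fun a _ =>
          Real.negMulLog_nonneg (tail_nonneg Y c v a u) (tail_le_one Y c v a u)
    have p3 : Real.log k * ∑ i ∈ univ.erase i0, ∑ w ∈ tup k Y,
        ind (act Y c v lam σ (w i0) ∧ ∀ i, i ≠ i0 → ¬ act Y c v lam σ (w i)) *
          ((min (v (w i)) U : ℕ) : ℝ) ≤
        (k : ℝ) * ((k - 1) * ((Y.card : ℝ) ^ (k - 1) * mass Y c v lam σ U)) := by
      apply mul_le_mul hlog p1 _ hk0
      exact sum_nonneg fun i _ => sum_nonneg fun w _ =>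
        mul_nonneg (ind_nonneg _) (Nat.cast_nonneg _)
    have hPm : 0 ≤ (Y.card : ℝ) ^ (k - 1) * mass Y c v lam σ U := by positivity
    have hPN : 0 ≤ (Y.card : ℝ) ^ (k - 1) * (κ / σ * ∑ t ∈ range U, CE Y (dl v U t) c) := by
      positivity
    have c1 : (k : ℝ) * (k - 1) + k * ((k - 1) * (3 + k)) ≤ (k : ℝ) + 3 * (k : ℝ) ^ 2 +
        (k : ℝ) ^ 3 := by nlinarith
    have c2 : (k : ℝ) * (k - 1) ≤ (k : ℝ) ^ 2 := by nlinarith
    have d1 := mul_le_mul_of_nonneg_right c1 hPm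
    have d2 := mul_le_mul_of_nonneg_right c2 hPN
    linarith
  refine le_trans (sum_le_sum h2) ?_
  rw [sum_const, card_univ, Fintype.card_fin, nsmul_eq_mul]
  apply le_of_eq
  ring

end Pool.Agent.Helper35.TR
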