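import Pool.Agent.Helper35.TR.Defs

set_option autoImplicit false

/-!
MP_120218_co, project TR: the product formula for a pair (module TR-15).

`g_x = gcd (a + x, a' + x)` divides `a - a'`, and `gcd (g_x, g_x')` divides `x - x'`. By induction
over finite sets `S ⊆ X` of indices, `∏ x ∈ S, g_x` divides
`(a - a').natAbs * ∏ (pairs of S), (x - x').natAbs`.
-/

open Finset

namespace Pool.Agent.Helper35.TR

/-- the gcd with a product divides the product of the gcds -/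
private theorem Gcd_dvd_prod {ι : Type*} [DecidableEq ι] (S : Finset ι) (f : ι → ℕ) (n : ℕ) :
    n.gcd (∏ x ∈ S, f x) ∣ ∏ x ∈ S, n.gcd (f x) := by
  induction S using Finset.induction_on with
  | empty => simp
  | insert y S hy ih =>
    rw [Finset.prod_insert hy, Finset.prod_insert hy]
    exact (Nat.gcd_mul_right_dvd_mul_gcd n (f y) (∏ x ∈ S, f x)).trans (Nat.mul_dvd_mul_left _ ih)

private theorem Gcd_dvd_sub (a a' x : ℤ) :
    (a + x).natAbs.gcd (a' + x).natAbs ∣ (a - a').natAbs := by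
  have h1 : (((a + x).natAbs.gcd (a' + x).natAbs : ℕ) : ℤ) ∣ a + x :=
    Int.natCast_dvd.mpr (Nat.gcd_dvd_left _ _)
  have h2 : (((a + x).natAbs.gcd (a' + x).natAbs : ℕ) : ℤ) ∣ a' + x :=
    Int.natCast_dvd.mpr (Nat.gcd_dvd_right _ _)
  have h3 := dvd_sub h1 h2
  have h4 : a + x - (a' + x) = a - a' := by ring
  rw [h4] at h3
  exact Int.natCast_dvd.mp h3

private theorem Gcd_dvd_sub' (a a' x x' : ℤ) :
    ((a + x').natAbs.gcd (a' + x').natAbs).gcd ((a + x).natAbs.gcd (a' + x).natAbs) ∣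
      (x - x').natAbs := by
  have h1 : ((((a + x').natAbs.gcd (a' + x').natAbs).gcd
      ((a + x).natAbs.gcd (a' + x).natAbs) : ℕ) : ℤ) ∣ a + x :=
    Int.natCast_dvd.mpr ((Nat.gcd_dvd_right _ _).trans (Nat.gcd_dvd_left _ _))
  have h2 : ((((a + x').natAbs.gcd (a' + x').natAbs).gcd
      ((a + x).natAbs.gcd (a' + x).natAbs) : ℕ) : ℤ) ∣ a + x' :=
    Int.natCast_dvd.mpr ((Nat.gcd_dvd_left _ _).trans (Nat.gcd_dvd_left _ _))
  have h3 := dvd_sub h1 h2
  have h4 : a + x - (a + x') = x - x' := by ring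
  rw [h4] at h3
  exact Int.natCast_dvd.mp h3

private theorem Gcd_key (X : Finset ℤ) {a a' : ℤ} {D : ℝ} (hD1 : 1 ≤ D)
    (hD : ∀ x ∈ X, ∀ x' ∈ X, |((x - x' : ℤ) : ℝ)| ≤ D) (S : Finset ℤ) (hS : S ⊆ X) :
    ∃ Q : ℕ, Q ≠ 0 ∧ Real.log Q ≤ (S.card : ℝ) ^ 2 * Real.log D ∧
      (∏ x ∈ S, (a + x).natAbs.gcd (a' + x).natAbs) ∣ (a - a').natAbs * Q := by
  have hlD : 0 ≤ Real.log D := Real.log_nonneg hD1
  induction S using Finset.induction_on with
  | empty => exact ⟨1, one_ne_zero, by simp, by simp⟩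
  | insert y S hy ih =>
    obtain ⟨Q, hQ0, hQl, hQd⟩ := ih ((Finset.subset_insert y S).trans hS)
    have hyX : y ∈ X := hS (Finset.mem_insert_self y S)
    have hSX : ∀ x ∈ S, x ∈ X := fun x hx => hS (Finset.mem_insert_of_mem hx)
    have hne : ∀ x ∈ S, (x - y).natAbs ≠ 0 := by
      intro x hx h0
      have : x = y := by
        have := Int.natAbs_eq_zero.mp h0
        linarith
      exact hy (this ▸ hx)
    refine ⟨Q * ∏ x ∈ S, (x - y).natAbs, ?_, ?_, ?_⟩
    · exact mul_ne_zero hQ0 (Finset.prod_ne_zero_iff.mpr hne)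
    · have h1 : Real.log (((∏ x ∈ S, (x - y).natAbs : ℕ)) : ℝ) ≤ (S.card : ℝ) * Real.log D := by
        rw [Nat.cast_prod, Real.log_prod (fun x hx => Nat.cast_ne_zero.mpr (hne x hx))]
        have : ∀ x ∈ S, Real.log (((x - y).natAbs : ℕ) : ℝ) ≤ Real.log D := by
          intro x hx
          apply Real.log_le_log
          · exact Nat.cast_pos.mpr (Nat.pos_of_ne_zero (hne x hx))
          · have h5 : (((x - y).natAbs : ℕ) : ℝ) = |((x - y : ℤ) : ℝ)| := by
              rw [← Int.cast_abs, Int.abs_eq_natAbs, Int.cast_natCast]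
            rw [h5]
            exact hD x (hSX x hx) y hyX
        calc ∑ x ∈ S, Real.log (((x - y).natAbs : ℕ) : ℝ) ≤ ∑ x ∈ S, Real.log D :=
              Finset.sum_le_sum this
          _ = (S.card : ℝ) * Real.log D := by rw [Finset.sum_const, nsmul_eq_mul]
      rw [Nat.cast_mul, Real.log_mul (Nat.cast_ne_zero.mpr hQ0)
        (Nat.cast_ne_zero.mpr (Finset.prod_ne_zero_iff.mpr hne)), Finset.card_insert_of_notMem hy]
      push_cast at h1 ⊢
      have hc : (0 : ℝ) ≤ (S.card : ℝ) := Nat.cast_nonneg _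
      nlinarith [mul_nonneg hc hlD]
    · rw [Finset.prod_insert hy]
      set g := (a + y).natAbs.gcd (a' + y).natAbs with hg
      set P := ∏ x ∈ S, (a + x).natAbs.gcd (a' + x).natAbs with hP
      have h1 : g.lcm P ∣ (a - a').natAbs * Q :=
        Nat.lcm_dvd ((Gcd_dvd_sub a a' y).trans (Nat.dvd_mul_right _ _)) hQd
      have h2 : g.gcd P ∣ ∏ x ∈ S, (x - y).natAbs := by
        refine (Gcd_dvd_prod S (fun x => (a + x).natAbs.gcd (a' + x).natAbs) g).trans ?_
        exact Finset.prod_dvd_prod_of_dvd _ _ (fun x _ => Gcd_dvd_sub' a a' x y)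
      rw [← Nat.gcd_mul_lcm g P, mul_comm (g.gcd P) (g.lcm P), ← mul_assoc]
      exact Nat.mul_dvd_mul h1 h2

theorem gcd_prod (X : Finset ℤ) {j : ℤ} (hj : j ∈ X) {a a' : ℤ} (haa : a ≠ a')
    (hne : ∀ x ∈ X, a + x ≠ 0 ∧ a' + x ≠ 0) {D : ℝ} (hD1 : 1 ≤ D)
    (hD : ∀ x ∈ X, ∀ x' ∈ X, |((x - x' : ℤ) : ℝ)| ≤ D) :
    ∑ x ∈ X.erase j, Real.log (((a + x).natAbs.gcd (a' + x).natAbs : ℕ) : ℝ) ≤
      Real.log (((a - a').natAbs / ((a + j).natAbs.gcd (a' + j).natAbs) : ℕ) : ℝ) +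
        (X.card : ℝ) ^ 2 * Real.log D := by
  obtain ⟨Q, hQ0, hQl, hQd⟩ := Gcd_key (a := a) (a' := a') X hD1 hD X (Finset.Subset.refl X)
  have hgpos : ∀ x ∈ X, 0 < (a + x).natAbs.gcd (a' + x).natAbs := by
    intro x hx
    exact Nat.gcd_pos_of_pos_left _ (Int.natAbs_pos.mpr (hne x hx).1)
  set g := (a + j).natAbs.gcd (a' + j).natAbs with hg
  set R := ∏ x ∈ X.erase j, (a + x).natAbs.gcd (a' + x).natAbs with hR
  have hgp : 0 < g := hgpos j hj
  have hRp : 0 < R := Finset.prod_pos (fun x hx => hgpos x (Finset.mem_of_mem_erase hx))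
  have hM : 0 < (a - a').natAbs := Int.natAbs_pos.mpr (sub_ne_zero.mpr haa)
  have hgM : g ∣ (a - a').natAbs := Gcd_dvd_sub a a' j
  obtain ⟨q, hq⟩ := hgM
  have hqp : 0 < q := by
    rcases Nat.eq_zero_or_pos q with h | h
    · rw [h, mul_zero] at hq
      omega
    · exact h
  have hdiv : (a - a').natAbs / g = q := by
    rw [hq]
    exact Nat.mul_div_cancel_left q hgp
  have h1 : g * R ∣ g * (q * Q) := by
    have h2 : g * R = ∏ x ∈ X, (a + x).natAbs.gcd (a' + x).natAbs :=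
      Finset.mul_prod_erase X (fun x => (a + x).natAbs.gcd (a' + x).natAbs) hj
    rw [h2, ← mul_assoc, ← hq]
    exact hQd
  have h3 : R ∣ q * Q := Nat.dvd_of_mul_dvd_mul_left hgp h1
  have h4 : R ≤ q * Q := Nat.le_of_dvd (Nat.mul_pos hqp (Nat.pos_of_ne_zero hQ0)) h3
  have h5 : Real.log (R : ℝ) ≤ Real.log (q : ℝ) + Real.log (Q : ℝ) := by
    rw [← Real.log_mul (Nat.cast_ne_zero.mpr hqp.ne') (Nat.cast_ne_zero.mpr hQ0)]
    apply Real.log_le_log (Nat.cast_pos.mpr hRp)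
    exact_mod_cast h4
  have h6 : Real.log (R : ℝ) =
      ∑ x ∈ X.erase j, Real.log (((a + x).natAbs.gcd (a' + x).natAbs : ℕ) : ℝ) := by
    rw [hR, Nat.cast_prod, Real.log_prod]
    intro x hx
    exact Nat.cast_ne_zero.mpr (hgpos x (Finset.mem_of_mem_erase hx)).ne'
  rw [hdiv, ← h6]
  linarith

end Pool.Agent.Helper35.TR
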