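import Pool.Agent.Helper35.TR.GamB
import Pool.Agent.Helper35.TR.Gcd

set_option autoImplicit false

/-!
MP_120218_co, project TR: the collision inequality (module TR-16).

`F a = G.filter (fun a' => c a' = c a)`. For `x ∈ X`:
`∑ a ∈ G, (1/|F a|) ∑ a' ∈ F a, [q^l ∣ a + x, q^l ∣ a' + x] ≥ cnt^2 / |G| ≥ κ^2 |G|` for
`l ≤ lamq κ G x q` (Cauchy-Schwarz over the classes), the terms `a = a'` contribute at most
`(κ^2/2) |G|` by `hcl`; sum over `1 ≤ l ≤ lamq` and over `q` with weights `log q`: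
`∑ a ∈ G, (1/|F a|) ∑ a' ∈ F a, a' ≠ a, log gcd_x (a, a') ≥ (κ^2/2) |G| Gam κ G x`.
For `a ≠ a'` in one class `gcd_prod` and `|a - a'| / gcd_j ≤ 2 H`.
-/

open Finset

namespace Pool.Agent.Helper35.TR

/-- one translate: average of the logarithm of the gcd over pairs of different elements in one
class -/
theorem ci_one {κ : ℝ} (hκ0 : 0 < κ) (hκ1 : κ ≤ 1) {G : Finset ℤ} (hG : G.Nonempty)
    (c : ℤ → List ℕ) (x : ℤ) (hne : ∀ a ∈ G, a + x ≠ 0)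
    (hcl : ∀ a ∈ G, 2 / κ ^ 2 ≤ ((G.filter (fun a' => c a' = c a)).card : ℝ)) :
    κ ^ 2 / 2 * G.card * Gam κ G x ≤
      ∑ a ∈ G, (1 / ((G.filter (fun a' => c a' = c a)).card : ℝ)) *
        ∑ a' ∈ (G.filter (fun a' => c a' = c a)).erase a,
          Real.log (((a + x).natAbs.gcd (a' + x).natAbs : ℕ) : ℝ) := by
  sorry

theorem ci {κ : ℝ} (hκ0 : 0 < κ) (hκ1 : κ ≤ 1) {G : Finset ℤ} (hG : G.Nonempty)
    (c : ℤ → List ℕ) (X : Finset ℤ) {j : ℤ} (hj : j ∈ X) (hne : ∀ x ∈ X, ∀ a ∈ G, a + x ≠ 0)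
    (hcl : ∀ a ∈ G, 2 / κ ^ 2 ≤ ((G.filter (fun a' => c a' = c a)).card : ℝ))
    {H : ℝ} (hH1 : 1 ≤ H)
    (hH : ∀ a ∈ G, ∀ a' ∈ G, c a = c a' →
      (((a + j).natAbs / (a + j).natAbs.gcd (a' + j).natAbs : ℕ) : ℝ) ≤ H)
    {D : ℝ} (hD1 : 1 ≤ D) (hD : ∀ x ∈ X, ∀ x' ∈ X, |((x - x' : ℤ) : ℝ)| ≤ D) :
    κ ^ 2 / 2 * ∑ x ∈ X.erase j, Gam κ G x ≤
      Real.log H + Real.log 2 + (X.card : ℝ) ^ 2 * Real.log D := by
  sorry

end Pool.Agent.Helper35.TR
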