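import Pool.Agent.Helper35.TR.PredA
import Pool.Agent.Helper35.TR.PredB
import Pool.Agent.Helper35.TR.AvgA
import Pool.Agent.Helper35.TR.AvgB

set_option autoImplicit false

/-!
MP_120218_co, project TR: the column theorem (module TR-8).

For every `t`: `(X1 w, ∑ i, dl v U t (w i))` determines the labels (`CE_det`), then `CE_chain`, `predA`,
`predB`; sum over `t` with `avgA`, `avgB`; then `mass_le`.
-/

open Finset

namespace Pool.Agent.Helper35.TR

open Pool.Agent.Helper80.LL (fib En)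

variable {α β : Type*} [DecidableEq β]

private theorem Col_act_congr (Y : Finset α) (c : α → β) (v : α → ℕ) (lam : ℕ) (σ : ℝ) {a b : α}
    (h : c a = c b) : act Y c v lam σ a ↔ act Y c v lam σ b := by
  have h1 : tail Y c v a (lam + 1) = tail Y c v b (lam + 1) := by
    unfold tail fib
    rw [h]
  unfold act
  rw [h1]

private theorem Col_det {k : ℕ} (Y : Finset α) (c : α → β) (v : α → ℕ) (lam : ℕ) (σ : ℝ) (U t : ℕ)
    (w w' : Fin k → α) (hX : X1 Y c v lam σ U t w = X1 Y c v lam σ U t w')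
    (hS : ∑ i, dl v U t (w i) = ∑ i, dl v U t (w' i))
    (hc : ∀ i, c (w i) = c (w' i)) :
    (fun i => dl v U t (w i)) = (fun i => dl v U t (w' i)) := by
  classical
  have hact : ∀ i, (act Y c v lam σ (w i) ↔ act Y c v lam σ (w' i)) :=
    fun i => Col_act_congr Y c v lam σ (hc i)
  have hcond : ∀ i, ((act Y c v lam σ (w i) ∧ ∀ j, j ≠ i → ¬ act Y c v lam σ (w j)) ↔
      (act Y c v lam σ (w' i) ∧ ∀ j, j ≠ i → ¬ act Y c v lam σ (w' j))) := by
    intro i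
    rw [hact i]
    refine and_congr Iff.rfl ?_
    refine forall_congr' fun j => ?_
    rw [hact j]
  have hne : ∀ i, ¬ (act Y c v lam σ (w i) ∧ ∀ j, j ≠ i → ¬ act Y c v lam σ (w j)) →
      dl v U t (w i) = dl v U t (w' i) := by
    intro i hi
    have h1 := congrFun hX i
    unfold X1 at h1
    rw [if_neg hi, if_neg (fun h => hi ((hcond i).2 h))] at h1
    exact h1
  funext i
  by_cases hi : act Y c v lam σ (w i) ∧ ∀ j, j ≠ i → ¬ act Y c v lam σ (w j)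
  · have hj : ∀ j ∈ univ.erase i, dl v U t (w j) = dl v U t (w' j) := by
      intro j hj
      exact hne j (fun h => hi.2 j (ne_of_mem_erase hj) h.1)
    have h2 := sum_congr rfl hj
    rw [← add_sum_erase univ (fun i => dl v U t (w i)) (mem_univ i),
      ← add_sum_erase univ (fun i => dl v U t (w' i)) (mem_univ i)] at hS
    omega
  · exact hne i hi

private theorem Col_mass_nonneg (Y : Finset α) (c : α → β) (v : α → ℕ) (lam : ℕ) (σ : ℝ) (U : ℕ) :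
    0 ≤ mass Y c v lam σ U := by
  unfold mass
  exact sum_nonneg fun a _ => mul_nonneg (ind_nonneg _) (Nat.cast_nonneg _)

theorem column {k : ℕ} (hk : 2 ≤ k) {Y : Finset α} (hY : Y.Nonempty) (c : α → β) (v : α → ℕ)
    {lam U : ℕ} (hU : 1 ≤ U) (hlam : k * lam ≤ U) {σ κ : ℝ} (hσ : 0 < σ) (hσ2 : σ ≤ 1 / 2)
    (hκ : ((Y.filter (fun a => lam < v a)).card : ℝ) ≤ κ * Y.card) :
    ∑ t ∈ range U, CE (tup k Y) (fun w i => dl v U t (w i))
        (fun w => ((fun i => c (w i)), ∑ i, v (w i))) ≤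
      (Y.card : ℝ) ^ (k - 1) * (7 * (k : ℝ) ^ 4 * (Y.card * lam) +
        (7 * (k : ℝ) ^ 4 / Real.log (1 / σ) + 3 * (k : ℝ) ^ 3 * (κ / σ)) *
          ∑ t ∈ range U, CE Y (dl v U t) c) := by
  classical
  have hn : 0 < (Y.card : ℝ) := by exact_mod_cast hY.card_pos
  have hκ0 : 0 ≤ κ := by
    by_contra h
    have h1 : κ * (Y.card : ℝ) < 0 := mul_neg_of_neg_of_pos (not_le.1 h) hn
    have h2 : (0 : ℝ) ≤ ((Y.filter (fun a => lam < v a)).card : ℝ) := Nat.cast_nonneg _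
    linarith
  have hk1 : (1 : ℝ) ≤ (k : ℝ) := by exact_mod_cast (by omega : 1 ≤ k)
  have hstep : ∀ t ∈ range U, CE (tup k Y) (fun w i => dl v U t (w i))
      (fun w => ((fun i => c (w i)), ∑ i, v (w i))) ≤
        ∑ w ∈ tup k Y, L1 Y c v lam σ U t w + ∑ w ∈ tup k Y, L2 Y c v lam σ U t w := by
    intro t ht
    have ht' : t < U := mem_range.1 ht
    have h1 : CE (tup k Y) (fun w i => dl v U t (w i))
        (fun w => ((fun i => c (w i)), ∑ i, v (w i))) ≤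
        CE (tup k Y) (fun w => (X1 Y c v lam σ U t w, ∑ i, dl v U t (w i)))
          (fun w => ((fun i => c (w i)), ∑ i, v (w i))) := by
      apply CE_det
      intro w _ w' _ h h'
      rw [Prod.mk.injEq] at h h'
      exact Col_det Y c v lam σ U t w w' h.1 h.2 (fun i => congrFun h'.1 i)
    have h2 := CE_chain (tup k Y) (X1 Y c v lam σ U t) (fun w => ∑ i, dl v U t (w i))
      (fun w => ((fun i => c (w i)), ∑ i, v (w i)))
    have h3 := predA hk Y c v hU hlam σ ht'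
    have h4 := predB hk Y c v (lam := lam) hU σ ht'
    linarith
  have hsum := sum_le_sum hstep
  rw [sum_add_distrib] at hsum
  have hA := avgA hk hY c v hU hσ hκ
  have hB := avgB hk hY c v hU hσ hκ
  have hM := mass_le Y c v lam U hσ hσ2
  have hM0 := Col_mass_nonneg Y c v lam σ U
  set C : ℝ := ∑ t ∈ range U, CE Y (dl v U t) c with hC
  have hC0 : 0 ≤ C := sum_nonneg fun t _ => CE_nonneg _ _ _
  set M : ℝ := mass Y c v lam σ U with hMdef
  set L : ℝ := Real.log (1 / σ) with hL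
  have hP : 0 ≤ (Y.card : ℝ) ^ (k - 1) := by positivity
  have hκσ : 0 ≤ κ / σ := div_nonneg hκ0 hσ.le
  have hκ1 : κ ≤ κ / σ := by
    rw [le_div_iff₀ hσ]
    nlinarith
  have hk2 : (k : ℝ) ^ 2 ≤ (k : ℝ) ^ 4 := pow_le_pow_right₀ hk1 (by norm_num)
  have hk3 : (k : ℝ) ^ 3 ≤ (k : ℝ) ^ 4 := pow_le_pow_right₀ hk1 (by norm_num)
  have hk23 : (k : ℝ) ^ 2 ≤ (k : ℝ) ^ 3 := pow_le_pow_right₀ hk1 (by norm_num)
  have hk2' : 0 ≤ (k : ℝ) ^ 2 := by positivity
  have e1 : (2 * (k : ℝ) ^ 2 + ((k : ℝ) ^ 2 + 3 * (k : ℝ) ^ 3 + (k : ℝ) ^ 4)) * M ≤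
      7 * (k : ℝ) ^ 4 * M := mul_le_mul_of_nonneg_right (by linarith) hM0
  have e2 : 7 * (k : ℝ) ^ 4 * M ≤ 7 * (k : ℝ) ^ 4 * (Y.card * lam + C / L) :=
    mul_le_mul_of_nonneg_left hM (by positivity)
  have e3 : (k : ℝ) ^ 2 * (κ / σ + κ) + (k : ℝ) ^ 3 * (κ / σ) ≤ 3 * (k : ℝ) ^ 3 * (κ / σ) := by
    have a1 : (k : ℝ) ^ 2 * (κ / σ + κ) ≤ (k : ℝ) ^ 2 * (2 * (κ / σ)) :=
      mul_le_mul_of_nonneg_left (by linarith) hk2'
    have a2 : (k : ℝ) ^ 2 * (2 * (κ / σ)) ≤ (k : ℝ) ^ 3 * (2 * (κ / σ)) :=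
      mul_le_mul_of_nonneg_right hk23 (by linarith)
    linarith
  have e4 : ((k : ℝ) ^ 2 * (κ / σ + κ) + (k : ℝ) ^ 3 * (κ / σ)) * C ≤
      3 * (k : ℝ) ^ 3 * (κ / σ) * C := mul_le_mul_of_nonneg_right e3 hC0
  have e5 : 7 * (k : ℝ) ^ 4 * (Y.card * lam + C / L) =
      7 * (k : ℝ) ^ 4 * (Y.card * lam) + 7 * (k : ℝ) ^ 4 / L * C := by ring
  have hfin : (2 * (k : ℝ) ^ 2 * M + (k : ℝ) ^ 2 * (κ / σ + κ) * C) +
      (((k : ℝ) ^ 2 + 3 * (k : ℝ) ^ 3 + (k : ℝ) ^ 4) * M + (k : ℝ) ^ 3 * (κ / σ) * C) ≤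
      7 * (k : ℝ) ^ 4 * (Y.card * lam) +
        (7 * (k : ℝ) ^ 4 / L + 3 * (k : ℝ) ^ 3 * (κ / σ)) * C := by
    nlinarith [e1, e2, e4, e5]
  have hmul := mul_le_mul_of_nonneg_left hfin hP
  rw [mul_add] at hmul
  linarith

end Pool.Agent.Helper35.TR
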