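import Pool.Agent.Helper35.TR.Step

set_option autoImplicit false

/-!
MP_120218_co, project TR: the contradiction, given a lower bound for the popular weight.
-/

open Finset

namespace Pool.Agent.Helper35.TR

theorem nP_mono (k : ℕ) {Y A : Finset ℤ} (h : Y ⊆ A) (x : ℤ) : nP k Y x ≤ nP k A x := by
  unfold nP
  apply card_le_card
  apply image_subset_image
  exact Fintype.piFinset_subset _ _ fun _ => h

theorem nS_mono (k : ℕ) {Y A : Finset ℤ} (h : Y ⊆ A) : nS k Y ≤ nS k A := by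
  unfold nS
  apply card_le_card
  apply image_subset_image
  exact Fintype.piFinset_subset _ _ fun _ => h

theorem core (k : ℕ) (hk : 2 ≤ k) (b ε : ℝ) (hε : 0 < ε) (hε1 : ε ≤ 1) : ∃ κ0 : ℝ,
    0 < κ0 ∧ κ0 ≤ 1 ∧ ∀ κ : ℝ, 0 < κ → κ ≤ κ0 → ∃ m N0 : ℕ, 1 ≤ m ∧ ∀ A X : Finset ℤ,
      N0 ≤ A.card → X.card = m + 1 →
      (∀ a ∈ A, ∀ x ∈ X, |((a + x : ℤ) : ℝ)| ≤ Real.exp ((A.card : ℝ) ^ b)) →
      (∀ x ∈ X, (nP k A x : ℝ) ≤ (A.card : ℝ) ^ ((k : ℝ) - ε)) →
      ∀ W D : ℝ, 1 ≤ D → (∀ x ∈ X, ∀ x' ∈ X, |((x - x' : ℤ) : ℝ)| ≤ D) →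
      Real.log 2 ≤ W → ((m : ℝ) + 1) ^ 2 * Real.log D ≤ W →
      (∀ Y ⊆ A, (A.card : ℝ) ^ (1 - ε / (2 * k)) ≤ (Y.card : ℝ) →
        (∀ x ∈ X, ∀ y ∈ Y, y + x ≠ 0) → ∀ x ∈ X, W ≤ Gam κ Y x) → False := by
  obtain ⟨κ0, c1, C, hκ0, hκ01, hc1, hc11, hC, n0, hstep⟩ := step k hk (ε / 2) (by positivity)
  refine ⟨κ0, hκ0, hκ01, ?_⟩
  intro κ hκ hκle
  have hκ1 : κ ≤ 1 := hκle.trans hκ01
  have hk0 : (2 : ℝ) ≤ k := by exact_mod_cast hk
  set η : ℝ := ε / (2 * k) with hη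
  have hη0 : 0 < η := by positivity
  have hη1 : η ≤ 1 / 4 := by
    rw [hη, div_le_iff₀ (by positivity)]
    linarith
  have hηk : η * k = ε / 2 := by
    rw [hη]; field_simp
  set lc : ℝ := Real.log (1 / c1) with hlc
  have hlc0 : 0 < lc := Real.log_pos (by rw [lt_div_iff₀ hc1]; linarith)
  set c3 : ℝ := η / (2 * lc) with hc3
  have hc30 : 0 < c3 := by positivity
  set b1 : ℝ := max b 1 with hb1
  have hb11 : 1 ≤ b1 := le_max_right _ _
  set β : ℝ := (b1 + 1) / c3 with hβ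
  have hβ0 : 0 < β := by positivity
  obtain ⟨m0, hm0⟩ := exists_nat_gt (2 * (C + 2) / κ ^ 2 * Real.exp β)
  have hm1 : 1 ≤ m0 := by
    have h1 : (0 : ℝ) < m0 := lt_of_le_of_lt (by positivity) hm0
    exact_mod_cast h1
  have hmpos : (0 : ℝ) < m0 := by exact_mod_cast hm1
  set ρ : ℝ := 2 * (C + 2) / (κ ^ 2 * m0) with hρ
  have hρ0 : 0 ≤ ρ := by positivity
  have hρβ : ρ ≤ Real.exp (-β) := by
    rw [hρ, div_le_iff₀ (by positivity), Real.exp_neg]
    have h1 : 2 * (C + 2) / κ ^ 2 * Real.exp β < m0 := hm0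
    have h2 : 2 * (C + 2) = 2 * (C + 2) / κ ^ 2 * Real.exp β * (κ ^ 2 * (Real.exp β)⁻¹) := by
      field_simp
    rw [h2]
    have h3 : 0 ≤ κ ^ 2 * (Real.exp β)⁻¹ := by positivity
    refine (mul_le_mul_of_nonneg_right h1.le h3).trans (le_of_eq ?_)
    ring
  -- conditions on `N`
  have hN0 : ∃ N0 : ℕ, ∀ N : ℕ, N0 ≤ N → 1 ≤ N ∧ (n0 : ℝ) ≤ (N : ℝ) ^ (1 - η) ∧
      2 / κ ^ 2 ≤ ((N : ℝ) ^ (1 - η)) ^ c1 ∧ 2 * ((m0 : ℝ) + 1) ≤ N ∧ 2 ≤ (N : ℝ) ^ (η / 2) ∧
      Real.exp β / (κ * N) < Real.log 2 := by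
    have t1 : Filter.Tendsto (fun N : ℕ => ((N : ℝ) ^ (1 - η))) Filter.atTop Filter.atTop :=
      (tendsto_rpow_atTop (by linarith)).comp tendsto_natCast_atTop_atTop
    have t2 : Filter.Tendsto (fun N : ℕ => ((N : ℝ) ^ (1 - η)) ^ c1) Filter.atTop
        Filter.atTop := (tendsto_rpow_atTop hc1).comp t1
    have t3 : Filter.Tendsto (fun N : ℕ => ((N : ℝ) ^ (η / 2))) Filter.atTop Filter.atTop :=
      (tendsto_rpow_atTop (by linarith)).comp tendsto_natCast_atTop_atTop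
    have t4 : Filter.Tendsto (fun N : ℕ => Real.exp β / (κ * (N : ℝ))) Filter.atTop
        (nhds 0) := by
      apply Filter.Tendsto.div_atTop tendsto_const_nhds
      exact Filter.Tendsto.const_mul_atTop hκ tendsto_natCast_atTop_atTop
    have e1 := t1.eventually_ge_atTop (n0 : ℝ)
    have e2 := t2.eventually_ge_atTop (2 / κ ^ 2)
    have e3 := t3.eventually_ge_atTop (2 : ℝ)
    have e4 := t4.eventually_lt_const (Real.log_pos (by norm_num : (1 : ℝ) < 2))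
    have e5 := tendsto_natCast_atTop_atTop (R := ℝ) |>.eventually_ge_atTop (2 * ((m0 : ℝ) + 1))
    have e6 := Filter.eventually_ge_atTop (α := ℕ) 1
    obtain ⟨N0, hN0⟩ := Filter.eventually_atTop.1
      (e1.and (e2.and (e3.and (e4.and (e5.and e6)))))
    refine ⟨N0, fun N hN => ?_⟩
    obtain ⟨a1, a2, a3, a4, a5, a6⟩ := hN0 N hN
    exact ⟨a6, a1, a2, a5, a3, a4⟩
  obtain ⟨N0, hN0⟩ := hN0
  refine ⟨m0, N0, hm1, ?_⟩
  intro A X hN hXc hht hP W D hD1 hD hW2 hWD hLB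
  obtain ⟨hN1, hNn0, hNκ, hNm, hNη, hNβ⟩ := hN0 A.card hN
  have hN1' : (1 : ℝ) ≤ A.card := by exact_mod_cast hN1
  have hNpos : (0 : ℝ) < A.card := by linarith
  set N : ℝ := (A.card : ℝ) with hNdef
  have hXne : X.Nonempty := by rw [← card_pos]; omega
  have hX2 : 2 ≤ X.card := by omega
  have hXc' : (X.card : ℝ) = m0 + 1 := by rw [hXc]; push_cast; ring
  -- remove the zeros
  set A' : Finset ℤ := A \ X.image (fun x => -x) with hA'
  have hA'A : A' ⊆ A := sdiff_subset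
  have hA'ne : ∀ x ∈ X, ∀ y ∈ A', y + x ≠ 0 := by
    intro x hx y hy h
    rw [hA', mem_sdiff] at hy
    apply hy.2
    rw [mem_image]
    exact ⟨x, hx, by omega⟩
  have hA'c : N / 2 ≤ (A'.card : ℝ) := by
    have h1 : A.card ≤ A'.card + X.card := by
      have h2 := le_card_sdiff (X.image (fun x => -x)) A
      have h3 : (X.image (fun x => -x)).card ≤ X.card := card_image_le
      rw [← hA'] at h2
      omega
    have h2 : (A.card : ℝ) ≤ A'.card + X.card := by exact_mod_cast h1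
    rw [hXc'] at h2
    linarith
  set M0 : ℝ := N ^ (1 - η) with hM0
  have hM0pos : 0 < M0 := by positivity
  -- the sets of the iteration
  have hgood : ∀ Y ⊆ A', M0 ≤ (Y.card : ℝ) → ∀ x ∈ X, W ≤ Gam κ Y x := by
    intro Y hY hYc
    exact hLB Y (hY.trans hA'A) hYc (fun x hx y hy => hA'ne x hx y (hY hy))
  have hst : ∀ Y ⊆ A', M0 ≤ (Y.card : ℝ) → ∃ G ⊆ Y, c1 * Y.card ≤ (G.card : ℝ) ∧
      X.inf' hXne (fun x => Gam κ G x) ≤ ρ * X.inf' hXne (fun x => Gam κ Y x) := by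
    intro Y hY hYc
    have hYpos : (0 : ℝ) < Y.card := lt_of_lt_of_le hM0pos hYc
    have key := hstep κ hκ hκle Y X hXne hX2 (fun x hx y hy => hA'ne x hx y (hY hy))
      (by exact_mod_cast hNn0.trans hYc)
      (hNκ.trans (Real.rpow_le_rpow hM0pos.le hYc hc1.le)) ?_ D hD1 hD ?_
    · obtain ⟨G, h1, h2, h3⟩ := key
      refine ⟨G, h1, h2, ?_⟩
      rw [hXc'] at h3
      have e : (m0 : ℝ) + 1 - 1 = m0 := by ring
      rw [e] at h3
      exact h3
    · intro x hx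
      have h1 : (nP k Y x : ℝ) ≤ nP k A x := by exact_mod_cast nP_mono k (hY.trans hA'A) x
      refine h1.trans ((hP x hx).trans ?_)
      have hkε : 0 ≤ (k : ℝ) - ε / 2 := by linarith
      calc N ^ ((k : ℝ) - ε) ≤ N ^ ((1 - η) * ((k : ℝ) - ε / 2)) := by
            apply Real.rpow_le_rpow_of_exponent_le hN1'
            have e : (1 - η) * ((k : ℝ) - ε / 2) = k - ε / 2 - η * k + η * ε / 2 := by ring
            have e' : 0 ≤ η * ε := mul_nonneg hη0.le hε.le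
            rw [e, hηk]
            linarith
        _ = M0 ^ ((k : ℝ) - ε / 2) := by rw [hM0, ← Real.rpow_mul hNpos.le]
        _ ≤ (Y.card : ℝ) ^ ((k : ℝ) - ε / 2) := Real.rpow_le_rpow hM0pos.le hYc hkε
    · intro x hx
      have h1 := hgood Y hY hYc x hx
      refine ⟨hW2.trans h1, ?_⟩
      rw [hXc']
      exact hWD.trans h1
  -- number of steps
  set T : ℕ := ⌊c3 * Real.log N⌋₊ with hT
  have hL0 : 0 ≤ Real.log N := Real.log_nonneg hN1'
  have hT1 : (T : ℝ) ≤ c3 * Real.log N := Nat.floor_le (by positivity)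
  have hT2 : c3 * Real.log N < T + 1 := Nat.lt_floor_add_one _
  have hc1T : N ^ (-(η / 2)) ≤ c1 ^ T := by
    have h1 : c1 ^ T = Real.exp (-(T * lc)) := by
      rw [hlc, one_div, Real.log_inv, mul_neg, neg_neg, mul_comm, Real.exp_mul,
        Real.exp_log hc1, Real.rpow_natCast]
    rw [h1, Real.rpow_def_of_pos hNpos, Real.exp_le_exp]
    have h2 : T * lc ≤ c3 * Real.log N * lc := mul_le_mul_of_nonneg_right hT1 hlc0.le
    have h3 : c3 * lc = η / 2 := by rw [hc3]; field_simp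
    have h4 : c3 * Real.log N * lc = Real.log N * (η / 2) := by rw [← h3]; ring
    rw [h4] at h2
    linarith
  have hTM : M0 ≤ c1 ^ T * (A'.card : ℝ) := by
    have h1 : N ^ (-(η / 2)) * (N / 2) ≤ c1 ^ T * (A'.card : ℝ) :=
      mul_le_mul hc1T hA'c (by positivity) (by positivity)
    refine le_trans ?_ h1
    have h2 : N ^ (1 - η) * N ^ (η / 2) = N ^ (-(η / 2)) * N := by
      rw [← Real.rpow_add hNpos]
      nth_rewrite 3 [← Real.rpow_one N]
      rw [← Real.rpow_add hNpos]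
      congr 1
      ring
    have h3 : M0 * 2 ≤ N ^ (1 - η) * N ^ (η / 2) := mul_le_mul_of_nonneg_left hNη hM0pos.le
    rw [h2] at h3
    linarith
  obtain ⟨G, hGA, hGc, hGμ⟩ := iterate (μ := fun Y => X.inf' hXne (fun x => Gam κ Y x)) hc1
    hc11.le hρ0 hst T hTM
  obtain ⟨x, hx⟩ := hXne
  have hlow : W ≤ X.inf' ⟨x, hx⟩ (fun x => Gam κ G x) := by
    apply le_inf'
    intro x' hx'
    exact hgood G hGA (hTM.trans hGc) x' hx'
  have hup : X.inf' ⟨x, hx⟩ (fun x => Gam κ A' x) ≤ N ^ b1 / κ := by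
    refine (inf'_le _ hx).trans ?_
    have hA'pos : (0 : ℝ) < A'.card := lt_of_lt_of_le (by positivity) hA'c
    have h1 := Gam_le hκ hκ1 (hA'ne x hx)
    have h2 : ∑ y ∈ A', Real.log ((y + x).natAbs : ℝ) ≤ A'.card * N ^ b1 := by
      rw [← nsmul_eq_mul, ← sum_const]
      apply sum_le_sum
      intro y hy
      have h3 := hht y (hA'A hy) x hx
      have h4 : ((y + x).natAbs : ℝ) = |((y + x : ℤ) : ℝ)| := by
        rw [← Int.cast_abs, Int.abs_eq_natAbs, Int.cast_natCast]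
      have h5 : (0 : ℝ) < |((y + x : ℤ) : ℝ)| := by
        rw [abs_pos]
        exact_mod_cast hA'ne x hx y hy
      rw [h4]
      refine (Real.log_le_log h5 h3).trans ?_
      rw [Real.log_exp]
      exact Real.rpow_le_rpow_of_exponent_le hN1' (le_max_left _ _)
    rw [le_div_iff₀ hκ]
    have h6 : (A'.card : ℝ) * (Gam κ A' x * κ) ≤ A'.card * N ^ b1 := by
      calc (A'.card : ℝ) * (Gam κ A' x * κ) = κ * A'.card * Gam κ A' x := by ring
        _ ≤ _ := h1.trans h2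
    exact le_of_mul_le_mul_left h6 hA'pos
  have hρT : ρ ^ T ≤ Real.exp β * N ^ (-(b1 + 1)) := by
    have h1 : ρ ^ T ≤ (Real.exp (-β)) ^ T := pow_le_pow_left₀ hρ0 hρβ T
    refine h1.trans ?_
    rw [← Real.exp_nat_mul, Real.rpow_def_of_pos hNpos, ← Real.exp_add, Real.exp_le_exp]
    have h2 : β * c3 = b1 + 1 := by rw [hβ]; field_simp
    have h3 := mul_le_mul_of_nonneg_left hT2.le hβ0.le
    have h4 : β * (c3 * Real.log N) = Real.log N * (b1 + 1) := by rw [← h2]; ring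
    rw [h4] at h3
    linarith
  have hfin : W ≤ Real.exp β / (κ * N) := by
    refine hlow.trans (hGμ.trans ?_)
    have h1 : ρ ^ T * X.inf' ⟨x, hx⟩ (fun x => Gam κ A' x) ≤
        Real.exp β * N ^ (-(b1 + 1)) * (N ^ b1 / κ) :=
      mul_le_mul hρT hup (le_inf' _ _ (fun _ _ => Gam_nonneg _ _ _)) (by positivity)
    refine h1.trans (le_of_eq ?_)
    have h2 : N ^ (-(b1 + 1)) * N ^ b1 = N⁻¹ := by
      rw [← Real.rpow_add hNpos]
      have : -(b1 + 1) + b1 = -1 := by ring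
      rw [this, Real.rpow_neg_one]
    calc Real.exp β * N ^ (-(b1 + 1)) * (N ^ b1 / κ)
        = Real.exp β * (N ^ (-(b1 + 1)) * N ^ b1) / κ := by ring
      _ = Real.exp β / (κ * N) := by
        rw [h2]; field_simp
  linarith

end Pool.Agent.Helper35.TR
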