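import Pool.Agent.Helper80.LL.Ent

set_option autoImplicit false

/-!
MP_120218_co, project TR (translates): definitions.
-/

open Finset

namespace Pool.Agent.Helper35.TR

open Pool.Agent.Helper80.LL (fib En)

variable {α β γ δ : Type*}

/-- the indicator of a proposition -/
noncomputable def ind (p : Prop) : ℝ := by
  classical
  exact if p then 1 else 0

theorem ind_of {p : Prop} (h : p) : ind p = 1 := by
  unfold ind
  rw [if_pos h]

theorem ind_of_not {p : Prop} (h : ¬ p) : ind p = 0 := by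
  unfold ind
  rw [if_neg h]

theorem ind_nonneg (p : Prop) : 0 ≤ ind p := by
  by_cases h : p
  · rw [ind_of h]; norm_num
  · rw [ind_of_not h]

theorem ind_le_one (p : Prop) : ind p ≤ 1 := by
  by_cases h : p
  · rw [ind_of h]
  · rw [ind_of_not h]; norm_num

theorem ind_mono {p q : Prop} (h : p → q) : ind p ≤ ind q := by
  by_cases hp : p
  · rw [ind_of hp, ind_of (h hp)]
  · rw [ind_of_not hp]
    exact ind_nonneg q

/-- the unnormalised conditional entropy `|Ω| H(f | g)` of functions on a finite set -/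
noncomputable def CE [DecidableEq β] [DecidableEq γ] (Ω : Finset α) (f : α → β) (g : α → γ) : ℝ :=
  ∑ w ∈ Ω, Real.log ((fib Ω g w : ℝ) / (fib Ω (fun w' => (f w', g w')) w : ℝ))

/-- the dithered label -/
def dl (v : α → ℕ) (U t : ℕ) (a : α) : ℕ := (v a + t) / U

/-- the proportion of the elements with `u ≤ v` in the class of `a` -/
noncomputable def tail [DecidableEq β] (Y : Finset α) (c : α → β) (v : α → ℕ) (a : α) (u : ℕ) : ℝ :=
  ((Y.filter (fun a' => c a' = c a ∧ u ≤ v a')).card : ℝ) / (fib Y c a : ℝ)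

/-- the class of `a` is active -/
def act [DecidableEq β] (Y : Finset α) (c : α → β) (v : α → ℕ) (lam : ℕ) (σ : ℝ) (a : α) : Prop :=
  σ < tail Y c v a (lam + 1)

/-- the information of the dithered label in the class; `CE Y (dl v U t) c` is its sum over `Y` -/
noncomputable def gi [DecidableEq β] (Y : Finset α) (c : α → β) (v : α → ℕ) (U t : ℕ) (a : α) : ℝ :=
  Real.log ((fib Y c a : ℝ) / (fib Y (fun a' => (dl v U t a', c a')) a : ℝ))

/-- the mass of the inactive part -/
noncomputable def mass [DecidableEq β] (Y : Finset α) (c : α → β) (v : α → ℕ) (lam : ℕ) (σ : ℝ)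
    (U : ℕ) : ℝ :=
  ∑ a ∈ Y, ind (¬ act Y c v lam σ a) * ((min (v a) U : ℕ) : ℝ)

/-- the `k`-tuples of elements of `Y` -/
abbrev tup (k : ℕ) (Y : Finset α) : Finset (Fin k → α) := Fintype.piFinset (fun _ : Fin k => Y)

/-- the labels which are revealed first: all of them, except for the label of the active
variable if there is exactly one active variable -/
noncomputable def X1 [DecidableEq β] {k : ℕ} (Y : Finset α) (c : α → β) (v : α → ℕ) (lam : ℕ) (σ : ℝ)
    (U t : ℕ) (w : Fin k → α) : Fin k → ℕ := by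
  classical
  exact fun i => if act Y c v lam σ (w i) ∧ ∀ j, j ≠ i → ¬ act Y c v lam σ (w j) then 0
    else dl v U t (w i)

/-- first code length -/
noncomputable def L1 [DecidableEq β] {k : ℕ} (Y : Finset α) (c : α → β) (v : α → ℕ) (lam : ℕ) (σ : ℝ)
    (U t : ℕ) (w : Fin k → α) : ℝ :=
  ind ((∀ i, ¬ act Y c v lam σ (w i)) ∧ U ≤ (∑ i, v (w i)) + t) * (k * Real.log 5) +
    ∑ i, ∑ j ∈ univ.erase i, (ind (act Y c v lam σ (w j)) + ind (lam < v (w j))) *
      gi Y c v U t (w i)

/-- the parameter of the second predictor -/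
noncomputable def xf [DecidableEq β] {k : ℕ} (Y : Finset α) (c : α → β) (v : α → ℕ) (w : Fin k → α)
    (i0 : Fin k) (f : ℕ) : ℝ :=
  min (1 / 2) (∑ i ∈ univ.erase i0, tail Y c v (w i) (f / (k - 1) + 1))

/-- the cost of the carry -/
noncomputable def Tc [DecidableEq β] {k : ℕ} (Y : Finset α) (c : α → β) (v : α → ℕ) (w : Fin k → α)
    (i0 : Fin k) (f : ℕ) : ℝ :=
  if ∑ i ∈ univ.erase i0, v (w i) ≤ f then - Real.log (1 - xf Y c v w i0 f)
    else Real.log k - Real.log (xf Y c v w i0 f)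

/-- second code length -/
noncomputable def L2 [DecidableEq β] {k : ℕ} (Y : Finset α) (c : α → β) (v : α → ℕ) (lam : ℕ) (σ : ℝ)
    (U t : ℕ) (w : Fin k → α) : ℝ :=
  ∑ i0, ind (act Y c v lam σ (w i0) ∧ ∀ i, i ≠ i0 → ¬ act Y c v lam σ (w i)) *
    (Real.log k * ∑ i ∈ univ.erase i0, ind (U ≤ v (w i) + t) +
      Tc Y c v w i0 (((∑ i, v (w i)) + t) % U))

/-- the list of dithered labels for the columns in a list -/
def lab (v : ℕ → α → ℕ) (U θ : ℕ → ℕ) (ps : List ℕ) (a : α) : List ℕ :=
  ps.map (fun q => dl (v q) (U q) (θ q) a)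

/-! ### Integers -/

/-- number of `k`-fold products of `Y + x` -/
def nP (k : ℕ) (Y : Finset ℤ) (x : ℤ) : ℕ :=
  ((tup k Y).image (fun f : Fin k → ℤ => ∏ i, (f i + x))).card

/-- number of `k`-fold sums -/
def nS (k : ℕ) (Y : Finset ℤ) : ℕ := ((tup k Y).image (fun f : Fin k → ℤ => ∑ i, f i)).card

/-- a bound for the elements of `Y + x` -/
def bnd (Y : Finset ℤ) (x : ℤ) : ℕ := Y.sup (fun y => (y + x).natAbs)

/-- the number of elements of `Y + x` divisible by `d` -/
def cnt (Y : Finset ℤ) (x : ℤ) (d : ℕ) : ℕ := (Y.filter (fun y => d ∣ (y + x).natAbs)).card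

/-- the valuation at `q` of `y + x` -/
def val (x : ℤ) (q : ℕ) (y : ℤ) : ℕ := (y + x).natAbs.factorization q

/-- the popular exponent of `q` -/
noncomputable def lamq (κ : ℝ) (Y : Finset ℤ) (x : ℤ) (q : ℕ) : ℕ := by
  classical
  exact Nat.findGreatest (fun l => κ * Y.card ≤ (cnt Y x (q ^ l) : ℝ)) (bnd Y x)

/-- the popular weight -/
noncomputable def Gam (κ : ℝ) (Y : Finset ℤ) (x : ℤ) : ℝ :=
  ∑ q ∈ (range (bnd Y x + 1)).filter Nat.Prime, (lamq κ Y x q : ℝ) * Real.log q

end Pool.Agent.Helper35.TR
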