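import Pool.Agent.Helper35.TR.Defs

set_option autoImplicit false

/-!
MP_120218_co, project TR: conditional entropies (module TR-1).
-/

open Finset

namespace Pool.Agent.Helper35.TR

open Pool.Agent.Helper80.LL (fib En)

variable {α β γ δ ε : Type*} [DecidableEq β] [DecidableEq γ] [DecidableEq δ] [DecidableEq ε]

theorem CE_nonneg (Ω : Finset α) (f : α → β) (g : α → γ) : 0 ≤ CE Ω f g := by
  sorry

/-- Gibbs' inequality: code lengths bound the conditional entropy -/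
theorem CE_gibbs {Ω : Finset α} {f : α → β} {g : α → γ} (q : β → γ → ℝ)
    (hq0 : ∀ b e, 0 ≤ q b e)
    (hq1 : ∀ w ∈ Ω, ∑ b ∈ (Ω.filter (fun w' => g w' = g w)).image f, q b (g w) ≤ 1)
    (hq : ∀ w ∈ Ω, 0 < q (f w) (g w)) :
    CE Ω f g ≤ ∑ w ∈ Ω, - Real.log (q (f w) (g w)) := by
  sorry

/-- Gibbs' inequality for a product of predictors -/
theorem CE_gibbs_pi {k : ℕ} {Ω : Finset α} {f : α → (Fin k → β)} {g : α → γ}
    (m : Fin k → β → γ → ℝ) (hm0 : ∀ i b e, 0 ≤ m i b e)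
    (hm1 : ∀ w ∈ Ω, ∀ i, ∀ T : Finset β, ∑ b ∈ T, m i b (g w) ≤ 1)
    (hm : ∀ w ∈ Ω, ∀ i, 0 < m i (f w i) (g w)) :
    CE Ω f g ≤ ∑ w ∈ Ω, ∑ i, - Real.log (m i (f w i) (g w)) := by
  sorry

/-- the chain rule -/
theorem CE_chain (Ω : Finset α) (f : α → β) (f' : α → δ) (g : α → γ) :
    CE Ω (fun w => (f w, f' w)) g = CE Ω f g + CE Ω f' (fun w => (f w, g w)) := by
  sorry

/-- `f` is determined by `f'` given `g` -/
theorem CE_det {Ω : Finset α} {f : α → β} {f' : α → δ} {g : α → γ}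
    (h : ∀ w ∈ Ω, ∀ w' ∈ Ω, f' w = f' w' → g w = g w' → f w = f w') :
    CE Ω f g ≤ CE Ω f' g := by
  sorry

/-- conditioning on more reduces the entropy -/
theorem CE_cond {Ω : Finset α} {f : α → β} {g : α → γ} {g' : α → δ}
    (h : ∀ w ∈ Ω, ∀ w' ∈ Ω, g' w = g' w' → g w = g w') :
    CE Ω f g' ≤ CE Ω f g := by
  sorry

/-- the entropy of `f` is at most that of `g` plus the conditional entropy -/
theorem En_le_CE (Ω : Finset α) (f : α → β) (g : α → γ) :
    En Ω f ≤ CE Ω f g + En Ω g := by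
  sorry

/-- adding a function -/
theorem En_pair (Ω : Finset α) (f : α → β) (g : α → γ) :
    En Ω (fun w => (f w, g w)) = CE Ω f g + En Ω g := by
  sorry

end Pool.Agent.Helper35.TR
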