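import Pool.Agent.Helper35.TR.Defs

set_option autoImplicit false

/-!
MP_120218_co, project TR: popular exponents and the popular weight (module TR-11).
-/

open Finset

namespace Pool.Agent.Helper35.TR

theorem pow_dvd_iff_val {x : ℤ} {q : ℕ} (hq : q.Prime) {y : ℤ} (hy : y + x ≠ 0) (l : ℕ) :
    q ^ l ∣ (y + x).natAbs ↔ l ≤ val x q y := by
  unfold val
  exact hq.pow_dvd_iff_le_factorization (Int.natAbs_ne_zero.2 hy)

private theorem GamB_pow_le_bnd {Y : Finset ℤ} {x : ℤ} (hne : ∀ y ∈ Y, y + x ≠ 0) {q : ℕ}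
    {y : ℤ} (hy : y ∈ Y) {l : ℕ} (h : q ^ l ∣ (y + x).natAbs) : q ^ l ≤ bnd Y x :=
  (Nat.le_of_dvd (Int.natAbs_pos.2 (hne y hy)) h).trans
    (Finset.le_sup (f := fun y => (y + x).natAbs) hy)

private theorem GamB_cnt_mono (Y : Finset ℤ) (x : ℤ) (q : ℕ) {l m : ℕ} (h : l ≤ m) :
    cnt Y x (q ^ m) ≤ cnt Y x (q ^ l) := by
  unfold cnt
  apply card_le_card
  intro y hy
  rw [mem_filter] at hy ⊢
  exact ⟨hy.1, (pow_dvd_pow q h).trans hy.2⟩

theorem lamq_pop {κ : ℝ} (hκ0 : 0 < κ) (hκ1 : κ ≤ 1) {Y : Finset ℤ} {x : ℤ}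
    (hne : ∀ y ∈ Y, y + x ≠ 0) {q : ℕ} (hq : q.Prime) {l : ℕ} (hl : l ≤ lamq κ Y x q) :
    κ * Y.card ≤ (cnt Y x (q ^ l) : ℝ) := by
  classical
  have h0 : κ * Y.card ≤ (cnt Y x (q ^ 0) : ℝ) := by
    have h1 : cnt Y x (q ^ 0) = Y.card := by
      unfold cnt
      rw [pow_zero, filter_true_of_mem]
      intro y _
      exact one_dvd _
    rw [h1]
    have : (0 : ℝ) ≤ Y.card := Nat.cast_nonneg _
    nlinarith
  have h2 : κ * Y.card ≤ (cnt Y x (q ^ (lamq κ Y x q)) : ℝ) := by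
    unfold lamq
    exact Nat.findGreatest_spec (P := fun l => κ * Y.card ≤ (cnt Y x (q ^ l) : ℝ))
      (Nat.zero_le _) h0
  exact h2.trans (by exact_mod_cast GamB_cnt_mono Y x q hl)

private theorem GamB_le_lamq {κ : ℝ} {Y : Finset ℤ} {x : ℤ} {q m : ℕ} (hm : m ≤ bnd Y x)
    (h : κ * Y.card ≤ (cnt Y x (q ^ m) : ℝ)) : m ≤ lamq κ Y x q := by
  classical
  unfold lamq
  exact Nat.le_findGreatest hm h

theorem lamq_max {κ : ℝ} (hκ0 : 0 < κ) (hκ1 : κ ≤ 1) {Y : Finset ℤ} {x : ℤ}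
    (hne : ∀ y ∈ Y, y + x ≠ 0) {q : ℕ} (hq : q.Prime) :
    ((Y.filter (fun y => lamq κ Y x q < val x q y)).card : ℝ) ≤ κ * Y.card := by
  by_contra hcon
  push Not at hcon
  have hsub : Y.filter (fun y => lamq κ Y x q < val x q y) ⊆
      Y.filter (fun y => q ^ (lamq κ Y x q + 1) ∣ (y + x).natAbs) := by
    intro y hy
    rw [mem_filter] at hy ⊢
    exact ⟨hy.1, (pow_dvd_iff_val hq (hne y hy.1) _).2 hy.2⟩
  have hcard : κ * Y.card ≤ (cnt Y x (q ^ (lamq κ Y x q + 1)) : ℝ) := by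
    refine hcon.le.trans ?_
    unfold cnt
    exact_mod_cast card_le_card hsub
  have hpos : 0 < (Y.filter (fun y => lamq κ Y x q < val x q y)).card := by
    have h1 : (0 : ℝ) ≤ κ * Y.card := mul_nonneg hκ0.le (Nat.cast_nonneg _)
    exact_mod_cast lt_of_le_of_lt h1 hcon
  obtain ⟨y, hy⟩ := card_pos.1 hpos
  have hy' := mem_filter.1 (hsub hy)
  have h1 := GamB_pow_le_bnd hne hy'.1 hy'.2
  have h2 : lamq κ Y x q + 1 < q ^ (lamq κ Y x q + 1) := Nat.lt_pow_self hq.one_lt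
  have h3 := GamB_le_lamq (h2.le.trans h1) hcard
  omega

/-- a prime which divides at least `κ |Y|` of the numbers is popular -/
theorem one_le_lamq {κ : ℝ} (hκ0 : 0 < κ) {Y : Finset ℤ} (hY : Y.Nonempty) {x : ℤ}
    (hne : ∀ y ∈ Y, y + x ≠ 0) {q : ℕ} (hq : q.Prime) (h : κ * Y.card ≤ (cnt Y x q : ℝ)) :
    1 ≤ lamq κ Y x q := by
  obtain ⟨y, hy⟩ := hY
  apply GamB_le_lamq
  · have h1 := GamB_pow_le_bnd hne hy (q := q) (l := 0) (by rw [pow_zero]; exact one_dvd _)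
    rwa [pow_zero] at h1
  · rwa [pow_one]

theorem lamq_eq_zero {κ : ℝ} (hκ0 : 0 < κ) {Y : Finset ℤ} (hY : Y.Nonempty) {x : ℤ}
    (hne : ∀ y ∈ Y, y + x ≠ 0) {q : ℕ} (hq : q.Prime) (h : bnd Y x < q) :
    lamq κ Y x q = 0 := by
  classical
  unfold lamq
  rw [Nat.findGreatest_eq_zero_iff]
  intro l hl _ hP
  have hc : cnt Y x (q ^ l) = 0 := by
    unfold cnt
    rw [card_eq_zero, filter_eq_empty_iff]
    intro y hy hd
    have h1 := GamB_pow_le_bnd hne hy hd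
    have h2 : q ≤ q ^ l := Nat.le_self_pow hl.ne' q
    omega
  rw [hc, Nat.cast_zero] at hP
  have h3 : (0 : ℝ) < κ * Y.card := mul_pos hκ0 (by exact_mod_cast card_pos.2 hY)
  linarith

theorem Gam_nonneg (κ : ℝ) (Y : Finset ℤ) (x : ℤ) : 0 ≤ Gam κ Y x := by
  unfold Gam
  apply sum_nonneg
  intro q _
  exact mul_nonneg (Nat.cast_nonneg _) (Real.log_natCast_nonneg _)

theorem Gam_ge {κ : ℝ} (hκ0 : 0 < κ) {Y : Finset ℤ} (hY : Y.Nonempty) {x : ℤ}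
    (hne : ∀ y ∈ Y, y + x ≠ 0) (Q : Finset ℕ) (hQ : ∀ q ∈ Q, q.Prime) :
    ∑ q ∈ Q, (lamq κ Y x q : ℝ) * Real.log q ≤ Gam κ Y x := by
  have h1 : ∑ q ∈ Q, (lamq κ Y x q : ℝ) * Real.log q =
      ∑ q ∈ Q.filter (fun q => q ≤ bnd Y x), (lamq κ Y x q : ℝ) * Real.log q := by
    rw [sum_filter_of_ne]
    intro q hq hn
    by_contra hc
    push Not at hc
    rw [lamq_eq_zero hκ0 hY hne (hQ q hq) hc] at hn
    simp at hn
  rw [h1]
  unfold Gam
  apply sum_le_sum_of_subset_of_nonneg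
  · intro q hq
    rw [mem_filter] at hq
    rw [mem_filter, mem_range]
    exact ⟨by omega, hQ q hq.1⟩
  · intro q _ _
    exact mul_nonneg (Nat.cast_nonneg _) (Real.log_natCast_nonneg _)

private theorem GamB_sum_val {Y : Finset ℤ} {x : ℤ}
    (hne : ∀ y ∈ Y, y + x ≠ 0) {q : ℕ} (hq : q.Prime) (L : ℕ) :
    ∑ l ∈ Icc 1 L, cnt Y x (q ^ l) ≤ ∑ y ∈ Y, val x q y := by
  have h1 : ∑ l ∈ Icc 1 L, cnt Y x (q ^ l) =
      ∑ y ∈ Y, ((Icc 1 L).filter (fun l => q ^ l ∣ (y + x).natAbs)).card := by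
    unfold cnt
    simp only [card_filter]
    rw [sum_comm]
  rw [h1]
  apply sum_le_sum
  intro y hy
  have h2 : (Icc 1 L).filter (fun l => q ^ l ∣ (y + x).natAbs) ⊆ Icc 1 (val x q y) := by
    intro l hl
    rw [mem_filter, mem_Icc] at hl
    rw [mem_Icc]
    exact ⟨hl.1.1, (pow_dvd_iff_val hq (hne y hy) l).1 hl.2⟩
  have h3 := card_le_card h2
  rwa [Nat.card_Icc, Nat.add_sub_cancel] at h3

private theorem GamB_log {Y : Finset ℤ} {x : ℤ} (hne : ∀ y ∈ Y, y + x ≠ 0) {y : ℤ}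
    (hy : y ∈ Y) :
    Real.log ((y + x).natAbs : ℝ) =
      ∑ q ∈ (range (bnd Y x + 1)).filter Nat.Prime, (val x q y : ℝ) * Real.log q := by
  rw [Real.log_nat_eq_sum_factorization]
  unfold val
  apply Finsupp.sum_of_support_subset
  · intro p hp
    rw [Nat.support_factorization] at hp
    rw [mem_filter, mem_range]
    refine ⟨?_, Nat.prime_of_mem_primeFactors hp⟩
    have h1 := GamB_pow_le_bnd hne hy (q := p) (l := 1)
      (by rw [pow_one]; exact Nat.dvd_of_mem_primeFactors hp)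
    rw [pow_one] at h1
    omega
  · intro p _
    simp

theorem Gam_le {κ : ℝ} (hκ0 : 0 < κ) (hκ1 : κ ≤ 1) {Y : Finset ℤ} {x : ℤ}
    (hne : ∀ y ∈ Y, y + x ≠ 0) :
    κ * Y.card * Gam κ Y x ≤ ∑ y ∈ Y, Real.log ((y + x).natAbs : ℝ) := by
  rw [sum_congr rfl fun y hy => GamB_log hne hy, sum_comm]
  unfold Gam
  rw [mul_sum]
  apply sum_le_sum
  intro q hq
  have hqp : q.Prime := (mem_filter.1 hq).2
  rw [← sum_mul, ← mul_assoc]
  apply mul_le_mul_of_nonneg_right _ (Real.log_natCast_nonneg _)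
  have h1 : (lamq κ Y x q : ℝ) * (κ * Y.card) ≤
      ∑ l ∈ Icc 1 (lamq κ Y x q), (cnt Y x (q ^ l) : ℝ) := by
    calc (lamq κ Y x q : ℝ) * (κ * Y.card)
        = ∑ l ∈ Icc 1 (lamq κ Y x q), κ * (Y.card : ℝ) := by
          rw [sum_const, Nat.card_Icc, Nat.add_sub_cancel, nsmul_eq_mul]
      _ ≤ _ := by
          apply sum_le_sum
          intro l hl
          exact lamq_pop hκ0 hκ1 hne hqp (mem_Icc.1 hl).2
  have h2 : (∑ l ∈ Icc 1 (lamq κ Y x q), (cnt Y x (q ^ l) : ℝ)) ≤ ∑ y ∈ Y, (val x q y : ℝ) := by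
    exact_mod_cast GamB_sum_val hne hqp (lamq κ Y x q)
  linarith [mul_comm (κ * (Y.card : ℝ)) (lamq κ Y x q : ℝ)]

end Pool.Agent.Helper35.TR
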