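import Pool.Agent.Helper35.TR.Col

set_option autoImplicit false

/-!
MP_120218_co, project TR: induction over the columns (module TR-9).

Induction on `ps`. For `q :: ps` take `θ` for `ps`, put `c = lab v U θ ps`, and choose the dither
`t < U q` such that the inequality holds for the new labels: it holds on average over `t`, by
`column` (applied to `c` and the column `q`) and
`∑ t < U, [dl v U t a = dl v U t a'] ≤ U * exp (-|v a - v a'| / U)` (the left side is
`max 0 (U - |v a - v a'|)`). Entropies: `CE (d, c) (S, g) ≤ CE c g + CE d (c, S)` by `CE_chain` and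
`CE_cond`, and `En Y (d :: c) = En Y c + CE Y d c` by `En_pair` (a list `x :: l` and the pair `(x, l)`
have the same fibres).
-/

open Finset

namespace Pool.Agent.Helper35.TR

open Pool.Agent.Helper80.LL (fib En)

variable {α : Type*}

/-- the conditional entropy only depends on the fibres -/
theorem Ind_CE_congr {β β' γ γ' : Type*} [DecidableEq β] [DecidableEq β'] [DecidableEq γ]
    [DecidableEq γ'] {Ω : Finset α} {f : α → β} {f' : α → β'} {g : α → γ} {g' : α → γ'}
    (hf : ∀ w ∈ Ω, ∀ w' ∈ Ω, (f w = f w' ∧ g w = g w') ↔ (f' w = f' w' ∧ g' w = g' w'))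
    (hg : ∀ w ∈ Ω, ∀ w' ∈ Ω, g w = g w' ↔ g' w = g' w') : CE Ω f g = CE Ω f' g' := by
  unfold CE
  apply sum_congr rfl
  intro w hw
  have h1 : fib Ω g w = fib Ω g' w := by
    unfold fib
    congr 1
    apply filter_congr
    intro w' hw'
    exact hg w' hw' w hw
  have h2 : fib Ω (fun w' => (f w', g w')) w = fib Ω (fun w' => (f' w', g' w')) w := by
    unfold fib
    congr 1
    apply filter_congr
    intro w' hw'
    simp only [Prod.mk.injEq]
    exact hf w' hw' w hw
  rw [h1, h2]

/-- the entropy only depends on the fibres -/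
theorem Ind_En_congr {β β' : Type*} [DecidableEq β] [DecidableEq β'] {Ω : Finset α} {f : α → β}
    {f' : α → β'} (hf : ∀ w ∈ Ω, ∀ w' ∈ Ω, f w = f w' ↔ f' w = f' w') : En Ω f = En Ω f' := by
  unfold En
  apply sum_congr rfl
  intro w hw
  have h1 : fib Ω f w = fib Ω f' w := by
    unfold fib
    congr 1
    apply filter_congr
    intro w' hw'
    exact hf w' hw' w hw
  rw [h1]

theorem Ind_hermite {U : ℕ} (hU : 1 ≤ U) (x : ℕ) : ∑ t ∈ range U, (x + t) / U = x := by
  induction x with
  | zero =>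
    apply sum_eq_zero
    intro t ht
    rw [zero_add]
    exact Nat.div_eq_of_lt (mem_range.1 ht)
  | succ x ih =>
    have h1 : ∑ t ∈ range U, (x + 1 + t) / U + x / U = ∑ t ∈ range (U + 1), (x + t) / U := by
      rw [sum_range_succ' (fun t => (x + t) / U) U]
      congr 1
      apply sum_congr rfl
      intro t _
      congr 1
      omega
    rw [sum_range_succ, ih, Nat.add_div_right x (by omega)] at h1
    omega

/-- the number of dithers for which two elements get the same label -/
theorem Ind_count {U : ℕ} (hU : 1 ≤ U) {x y : ℕ} (hxy : x ≤ y) :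
    ∑ t ∈ range U, (if (x + t) / U = (y + t) / U then (1 : ℝ) else 0) ≤
      U * Real.exp (-(((y : ℝ) - x) / U)) := by
  have hUp : (0 : ℝ) < U := by exact_mod_cast (by omega : 0 < U)
  rcases le_or_gt (x + U) y with h | h
  · rw [sum_eq_zero]
    · positivity
    · intro t _
      rw [if_neg]
      have h1 : (x + t + U) / U ≤ (y + t) / U := Nat.div_le_div_right (by omega)
      rw [Nat.add_div_right _ (by omega)] at h1
      omega
  · have h3 : ∀ t ∈ range U, (if (x + t) / U = (y + t) / U then (1 : ℝ) else 0) ≤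
        1 + (((x + t) / U : ℕ) : ℝ) - (((y + t) / U : ℕ) : ℝ) := by
      intro t _
      have h4 : (x + t) / U ≤ (y + t) / U := Nat.div_le_div_right (by omega)
      have h5 : (y + t) / U ≤ (x + t) / U + 1 := by
        rw [← Nat.add_div_right _ (by omega : 0 < U)]
        exact Nat.div_le_div_right (by omega)
      split_ifs with h6
      · rw [h6]
        linarith
      · have h7 : (((y + t) / U : ℕ) : ℝ) ≤ (((x + t) / U : ℕ) : ℝ) + 1 := by exact_mod_cast h5
        linarith
    have h8 := sum_le_sum h3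
    rw [sum_sub_distrib, sum_add_distrib, ← Nat.cast_sum, ← Nat.cast_sum, Ind_hermite hU,
      Ind_hermite hU, sum_const, card_range, nsmul_eq_mul, mul_one] at h8
    have h9 := Real.add_one_le_exp (-(((y : ℝ) - x) / U))
    have h10 : (U : ℝ) * (-(((y : ℝ) - x) / U) + 1) = U + x - y := by
      field_simp
      ring
    have h11 := mul_le_mul_of_nonneg_left h9 hUp.le
    linarith

theorem Ind_dl {U : ℕ} (hU : 1 ≤ U) (v : α → ℕ) (a a' : α) :
    ∑ t ∈ range U, (if dl v U t a = dl v U t a' then (1 : ℝ) else 0) ≤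
      U * Real.exp (-(|(v a : ℝ) - (v a' : ℝ)| / U)) := by
  unfold dl
  rcases le_total (v a) (v a') with h | h
  · have h1 := Ind_count hU h
    have h2 : |(v a : ℝ) - (v a' : ℝ)| = (v a' : ℝ) - v a := by
      rw [abs_sub_comm, abs_of_nonneg]
      have : (v a : ℝ) ≤ v a' := by exact_mod_cast h
      linarith
    rw [h2]
    exact h1
  · have h1 := Ind_count hU h
    have h2 : |(v a : ℝ) - (v a' : ℝ)| = (v a : ℝ) - v a' := by
      rw [abs_of_nonneg]
      have : (v a' : ℝ) ≤ v a := by exact_mod_cast h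
      linarith
    rw [h2]
    refine le_trans (le_of_eq ?_) h1
    apply sum_congr rfl
    intro t _
    by_cases h3 : (v a + t) / U = (v a' + t) / U
    · rw [if_pos h3, if_pos h3.symm]
    · rw [if_neg h3, if_neg (fun h4 => h3 h4.symm)]

/-- the labels do not change if the dither of a new column is changed -/
theorem Ind_lab (v : ℕ → α → ℕ) (U θ : ℕ → ℕ) {ps : List ℕ} {q : ℕ} (hq : q ∉ ps) (t : ℕ) (a : α) :
    lab v U (Function.update θ q t) ps a = lab v U θ ps a := by
  unfold lab
  apply List.map_congr_left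
  intro p hp
  rw [Function.update_of_ne]
  rintro rfl
  exact hq hp

theorem Ind_lab_cons (v : ℕ → α → ℕ) (U θ : ℕ → ℕ) {ps : List ℕ} {q : ℕ} (hq : q ∉ ps) (t : ℕ)
    (a : α) : lab v U (Function.update θ q t) (q :: ps) a =
      dl (v q) (U q) t a :: lab v U θ ps a := by
  have h : lab v U (Function.update θ q t) (q :: ps) a =
      dl (v q) (U q) (Function.update θ q t q) a :: lab v U (Function.update θ q t) ps a := rfl
  rw [h, Function.update_self, Ind_lab v U θ hq]

/-- the conditional entropy of the labels of a tuple, with one more column -/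
theorem Ind_CE {k : ℕ} (Ω : Finset (Fin k → α)) {δ γ : Type*} [DecidableEq δ] [DecidableEq γ]
    (c : α → List δ) (d : α → δ) (s : (Fin k → α) → γ) (g : (Fin k → α) → List γ) :
    CE Ω (fun w i => d (w i) :: c (w i)) (fun w => s w :: g w) ≤
      CE Ω (fun w i => c (w i)) g + CE Ω (fun w i => d (w i)) (fun w => ((fun i => c (w i)), s w)) := by
  have h1 : CE Ω (fun w i => d (w i) :: c (w i)) (fun w => s w :: g w) =
      CE Ω (fun w => ((fun i => c (w i)), (fun i => d (w i)))) (fun w => s w :: g w) := by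
    apply Ind_CE_congr
    · intro w _ w' _
      apply and_congr_left
      intro _
      simp only [Prod.mk.injEq, funext_iff, List.cons.injEq]
      constructor
      · intro h
        exact ⟨fun i => (h i).2, fun i => (h i).1⟩
      · intro h i
        exact ⟨h.2 i, h.1 i⟩
    · intro w _ w' _
      exact Iff.rfl
  rw [h1, CE_chain]
  apply add_le_add
  · apply CE_cond
    intro w _ w' _ h
    exact (List.cons.inj h).2
  · apply CE_cond
    intro w _ w' _ h
    simp only [Prod.mk.injEq, List.cons.injEq] at h ⊢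
    exact ⟨h.1, h.2.1⟩

theorem Ind_En (Y : Finset α) {δ : Type*} [DecidableEq δ] (c : α → List δ) (d : α → δ) :
    En Y (fun a => d a :: c a) = CE Y d c + En Y c := by
  rw [← En_pair]
  apply Ind_En_congr
  intro a _ a' _
  simp only [Prod.mk.injEq, List.cons.injEq]

theorem Ind_nil_CE {β γ : Type*} [DecidableEq β] [DecidableEq γ] (Ω : Finset α) {f : α → β}
    {g : α → γ} (hf : ∀ w w', f w = f w') : CE Ω f g = 0 := by
  unfold CE
  apply sum_eq_zero
  intro w hw
  have h : fib Ω (fun w' => (f w', g w')) w = fib Ω g w := by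
    unfold fib
    congr 1
    apply filter_congr
    intro w' _
    simp only [Prod.mk.injEq]
    exact ⟨fun h => h.2, fun h => ⟨hf _ _, h⟩⟩
  have hp : (fib Ω g w : ℝ) ≠ 0 := by
    have := Pool.Agent.Helper80.LL.fib_pos (f := g) hw
    exact_mod_cast this.ne'
  rw [h, div_self hp, Real.log_one]

theorem Ind_nil_En {β : Type*} [DecidableEq β] (Ω : Finset α) {f : α → β}
    (hf : ∀ w w', f w = f w') : En Ω f = 0 := by
  unfold En
  apply sum_eq_zero
  intro w hw
  have h : fib Ω f w = Ω.card := by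
    unfold fib
    congr 1
    apply filter_true_of_mem
    intro w' _
    exact hf _ _
  have hp : (Ω.card : ℝ) ≠ 0 := by
    have : 0 < Ω.card := card_pos.2 ⟨w, hw⟩
    exact_mod_cast this.ne'
  rw [h, div_self hp, Real.log_one]

/-- the pair term, with one more column, on average over the dither -/
theorem Ind_pair {U : ℕ} (hU : 1 ≤ U) (Y : Finset α) (v : α → ℕ) (c : α → List ℕ)
    (E : α → α → ℝ) :
    ∑ t ∈ range U, ∑ a ∈ Y, ∑ a' ∈ Y,
      (if dl v U t a :: c a = dl v U t a' :: c a' then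
        Real.exp (|(v a : ℝ) - (v a' : ℝ)| / (U : ℝ) + E a a') else 0) ≤
      U * ∑ a ∈ Y, ∑ a' ∈ Y, (if c a = c a' then Real.exp (E a a') else 0) := by
  rw [sum_comm, mul_sum]
  apply sum_le_sum
  intro a _
  rw [sum_comm, mul_sum]
  apply sum_le_sum
  intro a' _
  by_cases h : c a = c a'
  · rw [if_pos h]
    have h1 : ∀ t ∈ range U, (if dl v U t a :: c a = dl v U t a' :: c a' then
        Real.exp (|(v a : ℝ) - (v a' : ℝ)| / (U : ℝ) + E a a') else 0) =
        Real.exp (|(v a : ℝ) - (v a' : ℝ)| / (U : ℝ) + E a a') *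
          (if dl v U t a = dl v U t a' then (1 : ℝ) else 0) := by
      intro t _
      by_cases h2 : dl v U t a = dl v U t a'
      · rw [if_pos h2, if_pos (by rw [h2, h]), mul_one]
      · rw [if_neg h2, if_neg (fun h3 => h2 (List.cons.inj h3).1), mul_zero]
    rw [sum_congr rfl h1, ← mul_sum]
    have h3 := mul_le_mul_of_nonneg_left (Ind_dl hU v a a')
      (Real.exp_pos (|(v a : ℝ) - (v a' : ℝ)| / (U : ℝ) + E a a')).le
    refine le_trans h3 (le_of_eq ?_)
    have h4 : Real.exp (|(v a : ℝ) - (v a' : ℝ)| / (U : ℝ) + E a a') *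
        Real.exp (-(|(v a : ℝ) - (v a' : ℝ)| / U)) = Real.exp (E a a') := by
      rw [← Real.exp_add]
      congr 1
      ring
    calc Real.exp (|(v a : ℝ) - (v a' : ℝ)| / (U : ℝ) + E a a') *
          (U * Real.exp (-(|(v a : ℝ) - (v a' : ℝ)| / U))) =
          U * (Real.exp (|(v a : ℝ) - (v a' : ℝ)| / (U : ℝ) + E a a') *
            Real.exp (-(|(v a : ℝ) - (v a' : ℝ)| / U))) := by ring
      _ = U * Real.exp (E a a') := by rw [h4]
  · rw [if_neg h, mul_zero]
    apply le_of_eq
    apply sum_eq_zero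
    intro t _
    rw [if_neg (fun h3 => h (List.cons.inj h3).2)]

theorem ind_cols {k : ℕ} (hk : 2 ≤ k) {Y : Finset α} (hY : Y.Nonempty) (v : ℕ → α → ℕ)
    (lam U : ℕ → ℕ) {σ κ ω : ℝ} (hσ : 0 < σ) (hσ2 : σ ≤ 1 / 2) (hω : 0 ≤ ω) (ps : List ℕ)
    (hnd : ps.Nodup)
    (h : ∀ q ∈ ps, 1 ≤ U q ∧ k * lam q ≤ U q ∧
      ((Y.filter (fun a => lam q < v q a)).card : ℝ) ≤ κ * Y.card) :
    ∃ θ : ℕ → ℕ,
      CE (tup k Y) (fun w i => lab v U θ ps (w i)) (fun w => ps.map (fun q => ∑ i, v q (w i))) /
          (Y.card : ℝ) ^ k +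
        ω * ∑ a ∈ Y, ∑ a' ∈ Y, (if lab v U θ ps a = lab v U θ ps a' then
          Real.exp ((ps.map (fun q => |(v q a : ℝ) - (v q a' : ℝ)| / (U q : ℝ))).sum) else 0) ≤
      (7 * (k : ℝ) ^ 4 / Real.log (1 / σ) + 3 * (k : ℝ) ^ 3 * (κ / σ)) *
          (En Y (lab v U θ ps) / Y.card) +
        7 * (k : ℝ) ^ 4 * (ps.map (fun q => (lam q : ℝ) / (U q : ℝ))).sum +
        ω * (Y.card : ℝ) ^ 2 := by
  induction ps with
  | nil =>
    refine ⟨fun _ => 0, ?_⟩
    rw [Ind_nil_CE (tup k Y) (f := fun w i => lab v U (fun _ => 0) [] (w i))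
      (g := fun w => ([] : List ℕ).map (fun q => ∑ i, v q (w i))) (fun _ _ => rfl),
      Ind_nil_En Y (f := lab v U (fun _ => 0) []) (fun _ _ => rfl)]
    have h1 : ∑ a ∈ Y, ∑ a' ∈ Y, (if lab v U (fun _ => 0) [] a = lab v U (fun _ => 0) [] a' then
          Real.exp ((([] : List ℕ).map (fun q => |(v q a : ℝ) - (v q a' : ℝ)| / (U q : ℝ))).sum)
          else 0) = (Y.card : ℝ) ^ 2 := by
      have h2 : ∀ a ∈ Y, ∀ a' ∈ Y, (if lab v U (fun _ => 0) [] a = lab v U (fun _ => 0) [] a' then
          Real.exp ((([] : List ℕ).map (fun q => |(v q a : ℝ) - (v q a' : ℝ)| / (U q : ℝ))).sum)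
          else 0) = 1 := by
        intro a _ a' _
        rw [if_pos (show lab v U (fun _ => 0) [] a = lab v U (fun _ => 0) [] a' from rfl),
          List.map_nil, List.sum_nil, Real.exp_zero]
      rw [sum_congr rfl fun a ha => sum_congr rfl (h2 a ha)]
      simp only [sum_const, nsmul_eq_mul, mul_one]
      ring
    rw [h1, List.map_nil, List.sum_nil]
    simp
  | cons q ps ih =>
    rw [List.nodup_cons] at hnd
    obtain ⟨θ, hθ⟩ := ih hnd.2 (fun p hp => h p (List.mem_cons_of_mem _ hp))
    obtain ⟨hU, hlam, hκ⟩ := h q (List.mem_cons_self)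
    have hYp : (0 : ℝ) < Y.card := by exact_mod_cast card_pos.2 hY
    have hUp : (0 : ℝ) < U q := by exact_mod_cast (by omega : 0 < U q)
    set A : ℝ := 7 * (k : ℝ) ^ 4 / Real.log (1 / σ) + 3 * (k : ℝ) ^ 3 * (κ / σ) with hA
    have hcol := column hk hY (lab v U θ ps) (v q) hU hlam hσ hσ2 hκ
    rw [← hA] at hcol
    set c : α → List ℕ := lab v U θ ps with hc
    have hpair := Ind_pair hU Y (v q) c
      (fun a a' => (ps.map (fun q => |(v q a : ℝ) - (v q a' : ℝ)| / (U q : ℝ))).sum)
    -- the summand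
    set P0 : ℝ := ∑ a ∈ Y, ∑ a' ∈ Y, (if c a = c a' then
      Real.exp ((ps.map (fun q => |(v q a : ℝ) - (v q a' : ℝ)| / (U q : ℝ))).sum) else 0) with hP0
    set C0 : ℝ := CE (tup k Y) (fun w i => c (w i)) (fun w => ps.map (fun q => ∑ i, v q (w i)))
      with hC0
    set L : ℝ := (ps.map (fun q => (lam q : ℝ) / (U q : ℝ))).sum with hL
    let P : ℕ → ℝ := fun t => ∑ a ∈ Y, ∑ a' ∈ Y,
      (if dl (v q) (U q) t a :: c a = dl (v q) (U q) t a' :: c a' then
        Real.exp (|(v q a : ℝ) - (v q a' : ℝ)| / (U q : ℝ) +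
          (ps.map (fun q => |(v q a : ℝ) - (v q a' : ℝ)| / (U q : ℝ))).sum) else 0)
    let D : ℕ → ℝ := fun t => CE (tup k Y) (fun w i => dl (v q) (U q) t (w i))
        (fun w => ((fun i => c (w i)), ∑ i, v q (w i)))
    let G : ℕ → ℝ := fun t => CE Y (dl (v q) (U q) t) c
    have hcol' : ∑ t ∈ range (U q), D t ≤ (Y.card : ℝ) ^ (k - 1) *
      (7 * (k : ℝ) ^ 4 * (Y.card * lam q) + A * ∑ t ∈ range (U q), G t) := hcol
    have hpair' : ∑ t ∈ range (U q), P t ≤ U q * P0 := hpair
    have hkk : (Y.card : ℝ) ^ k = (Y.card : ℝ) ^ (k - 1) * Y.card := by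
      rw [← pow_succ]
      congr 1
      omega
    have hsum : ∑ t ∈ range (U q), ((C0 + D t) / (Y.card : ℝ) ^ k + ω * P t) ≤
        ∑ t ∈ range (U q), (A * ((G t + En Y c) / Y.card) +
          7 * (k : ℝ) ^ 4 * ((lam q : ℝ) / (U q : ℝ) + L) + ω * (Y.card : ℝ) ^ 2) := by
      have e1 : ∑ t ∈ range (U q), ((C0 + D t) / (Y.card : ℝ) ^ k + ω * P t) =
          U q * (C0 / (Y.card : ℝ) ^ k) + (∑ t ∈ range (U q), D t) / (Y.card : ℝ) ^ k +
            ω * ∑ t ∈ range (U q), P t := by
        rw [sum_add_distrib, ← mul_sum, ← sum_div, sum_add_distrib, sum_const, card_range,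
          nsmul_eq_mul]
        ring
      have e2 : ∑ t ∈ range (U q), (A * ((G t + En Y c) / Y.card) +
          7 * (k : ℝ) ^ 4 * ((lam q : ℝ) / (U q : ℝ) + L) + ω * (Y.card : ℝ) ^ 2) =
          A * ((∑ t ∈ range (U q), G t) / Y.card) + U q * (A * (En Y c / Y.card)) +
          7 * (k : ℝ) ^ 4 * (lam q + U q * L) + U q * (ω * (Y.card : ℝ) ^ 2) := by
        rw [sum_add_distrib, sum_add_distrib, ← mul_sum, ← sum_div, sum_add_distrib, sum_const,
          sum_const, sum_const, card_range, nsmul_eq_mul, nsmul_eq_mul, nsmul_eq_mul]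
        have e3 : (U q : ℝ) * ((lam q : ℝ) / (U q : ℝ)) = lam q := by
          field_simp
        linear_combination (7 * (k : ℝ) ^ 4) * e3
      rw [e1, e2]
      have e4 : (∑ t ∈ range (U q), D t) / (Y.card : ℝ) ^ k ≤
          7 * (k : ℝ) ^ 4 * lam q + A * ((∑ t ∈ range (U q), G t) / Y.card) := by
        rw [div_le_iff₀ (by positivity), hkk]
        refine le_trans hcol' (le_of_eq ?_)
        field_simp
      have e5 := mul_le_mul_of_nonneg_left hpair' hω
      have e6 := mul_le_mul_of_nonneg_left hθ hUp.le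
      nlinarith [e4, e5, e6]
    obtain ⟨t, ht, hle⟩ := exists_le_of_sum_le (s := range (U q))
      ⟨0, mem_range.2 (by omega)⟩ hsum
    refine ⟨Function.update θ q t, ?_⟩
    have f1 : (fun (w : Fin k → α) (i : Fin k) => lab v U (Function.update θ q t) (q :: ps) (w i)) =
        fun (w : Fin k → α) (i : Fin k) => dl (v q) (U q) t (w i) :: c (w i) := by
      funext w i
      exact Ind_lab_cons v U θ hnd.1 t (w i)
    have f2 : lab v U (Function.update θ q t) (q :: ps) =
        fun a => dl (v q) (U q) t a :: c a := by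
      funext a
      exact Ind_lab_cons v U θ hnd.1 t a
    have f3 : CE (tup k Y) (fun (w : Fin k → α) (i : Fin k) =>
          lab v U (Function.update θ q t) (q :: ps) (w i))
        (fun w => (q :: ps).map (fun q => ∑ i, v q (w i))) ≤ C0 + D t := by
      rw [f1]
      exact Ind_CE (tup k Y) c (dl (v q) (U q) t) (fun w => ∑ i, v q (w i))
        (fun w => ps.map (fun q => ∑ i, v q (w i)))
    have f4 : En Y (lab v U (Function.update θ q t) (q :: ps)) = G t + En Y c := by
      rw [f2]
      exact Ind_En Y c (dl (v q) (U q) t)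
    have f5 : ∑ a ∈ Y, ∑ a' ∈ Y, (if lab v U (Function.update θ q t) (q :: ps) a =
          lab v U (Function.update θ q t) (q :: ps) a' then
          Real.exp (((q :: ps).map (fun q => |(v q a : ℝ) - (v q a' : ℝ)| / (U q : ℝ))).sum)
          else 0) = P t := by
      rw [f2]
      apply sum_congr rfl
      intro a _
      apply sum_congr rfl
      intro a' _
      rw [List.map_cons, List.sum_cons]
    rw [f4, f5, List.map_cons, List.sum_cons]
    refine le_trans ?_ hle
    have f6 := div_le_div_of_nonneg_right f3 (by positivity : (0 : ℝ) ≤ (Y.card : ℝ) ^ k)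
    linarith

end Pool.Agent.Helper35.TR
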