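import Pool.Agent.Helper35.TR.Ml

set_option autoImplicit false

/-!
MP_120218_co, project TR: lower bound for the popular weight by counting fractions (module TR-13).
-/

open Finset

namespace Pool.Agent.Helper35.TR

/-- fractions of bounded height: fix `a'` and send `a` to the signed fraction `(a + x) / (a' + x)` in
lowest terms -/
theorem cluster_count (F : Finset ℤ) (x : ℤ) (H : ℝ) (hne : ∀ a ∈ F, a + x ≠ 0)
    (hH : ∀ a ∈ F, ∀ a' ∈ F,
      (((a + x).natAbs / (a + x).natAbs.gcd (a' + x).natAbs : ℕ) : ℝ) ≤ H) :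
    (F.card : ℝ) ≤ 4 * H ^ 2 := by
  classical
  rcases F.eq_empty_or_nonempty with rfl | ⟨b, hb⟩
  · simp only [card_empty, Nat.cast_zero]
    positivity
  have hb0 : 0 < (b + x).natAbs := Int.natAbs_pos.2 (hne b hb)
  have hH0 : 0 ≤ H := le_trans (Nat.cast_nonneg _) (hH b hb b hb)
  set N : ℕ := ⌊H⌋₊ with hN
  have hNH : (N : ℝ) ≤ H := Nat.floor_le hH0
  let T : Finset (Bool × ℕ × ℕ) := univ ×ˢ (Icc 1 N ×ˢ Icc 1 N)
  let φ : ℤ → Bool × ℕ × ℕ := fun a =>
    (decide (0 < a + x), (a + x).natAbs / (a + x).natAbs.gcd (b + x).natAbs,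
      (b + x).natAbs / (b + x).natAbs.gcd (a + x).natAbs)
  have hmap : ∀ a ∈ F, φ a ∈ T := by
    intro a ha
    have ha0 : 0 < (a + x).natAbs := Int.natAbs_pos.2 (hne a ha)
    have h1 := hH a ha b hb
    have h2 := hH b hb a ha
    have h3 : 1 ≤ (a + x).natAbs / (a + x).natAbs.gcd (b + x).natAbs :=
      Nat.div_pos (Nat.gcd_le_left _ ha0) (Nat.gcd_pos_of_pos_left _ ha0)
    have h4 : 1 ≤ (b + x).natAbs / (b + x).natAbs.gcd (a + x).natAbs :=
      Nat.div_pos (Nat.gcd_le_left _ hb0) (Nat.gcd_pos_of_pos_left _ hb0)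
    simp only [T, φ, mem_product, mem_univ, true_and, mem_Icc]
    exact ⟨⟨h3, Nat.le_floor h1⟩, ⟨h4, Nat.le_floor h2⟩⟩
  have hinj : Set.InjOn φ F := by
    intro a ha a' ha' h
    have ha0 : 0 < (a + x).natAbs := Int.natAbs_pos.2 (hne a ha)
    simp only [φ, Prod.mk.injEq, decide_eq_decide] at h
    obtain ⟨h1, h2, h3⟩ := h
    rw [Nat.gcd_comm (b + x).natAbs, Nat.gcd_comm (b + x).natAbs] at h3
    set g := (a + x).natAbs.gcd (b + x).natAbs with hg
    set g' := (a' + x).natAbs.gcd (b + x).natAbs with hg'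
    have h4 : (b + x).natAbs / g * g = (b + x).natAbs := Nat.div_mul_cancel (Nat.gcd_dvd_right _ _)
    have h5 : (b + x).natAbs / g' * g' = (b + x).natAbs :=
      Nat.div_mul_cancel (Nat.gcd_dvd_right _ _)
    have h6 : (a + x).natAbs / g * g = (a + x).natAbs := Nat.div_mul_cancel (Nat.gcd_dvd_left _ _)
    have h7 : (a' + x).natAbs / g' * g' = (a' + x).natAbs :=
      Nat.div_mul_cancel (Nat.gcd_dvd_left _ _)
    have h8 : 0 < (b + x).natAbs / g := by
      rcases Nat.eq_zero_or_pos ((b + x).natAbs / g) with h | h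
      · rw [h, Nat.zero_mul] at h4
        omega
      · exact h
    have h9 : g = g' := by
      rw [← h3] at h5
      exact Nat.eq_of_mul_eq_mul_left h8 (h4.trans h5.symm)
    have h10 : (a + x).natAbs = (a' + x).natAbs := by
      rw [← h6, ← h7, ← h9, h2, ← h9]
    omega
  have hcard : F.card ≤ T.card := card_le_card_of_injOn φ hmap hinj
  have hT : T.card = 2 * (N * N) := by
    simp only [T, card_product, card_univ, Fintype.card_bool, Nat.card_Icc, Nat.add_sub_cancel]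
  have h1 : (F.card : ℝ) ≤ 2 * ((N : ℝ) * N) := by
    have h2 : (F.card : ℝ) ≤ ((2 * (N * N) : ℕ) : ℝ) := by
      exact_mod_cast hT ▸ hcard
    rw [Nat.cast_mul, Nat.cast_mul] at h2
    exact_mod_cast h2
  have h2 : (N : ℝ) * N ≤ H * H := mul_le_mul hNH hNH (Nat.cast_nonneg _) hH0
  nlinarith [mul_nonneg hH0 hH0]

/-- from `ml`: a cluster has at least `|Y|^c1` and at most `4 exp (2 C Γ)` elements -/
theorem low1 (k : ℕ) (hk : 2 ≤ k) (ε : ℝ) (hε : 0 < ε) : ∃ κ0 c2 : ℝ,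
    0 < κ0 ∧ κ0 ≤ 1 ∧ 0 < c2 ∧ ∃ n0 : ℕ,
    ∀ κ : ℝ, 0 < κ → κ ≤ κ0 → ∀ (Y : Finset ℤ) (x : ℤ), (∀ y ∈ Y, y + x ≠ 0) → n0 ≤ Y.card →
      (nP k Y x : ℝ) ≤ (Y.card : ℝ) ^ ((k : ℝ) - ε) →
      c2 * Real.log Y.card ≤ Gam κ Y x := by
  obtain ⟨κ0, c1, C, hκ0, hκ1, hc1, hc1', hC, n0, H⟩ := ml k hk ε hε
  refine ⟨κ0, c1 / (4 * C), hκ0, hκ1, by positivity,
    max n0 (⌈Real.exp (2 * Real.log 4 / c1)⌉₊ + 1), ?_⟩
  intro κ hκ hκ' Y x hY hn hP
  obtain ⟨G, c, hG0, hG1, hG2, hG3⟩ := H κ hκ hκ' Y x hY ((le_max_left _ _).trans hn) hP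
  have hn2 : ⌈Real.exp (2 * Real.log 4 / c1)⌉₊ + 1 ≤ Y.card := (le_max_right _ _).trans hn
  have hYpos : (0 : ℝ) < Y.card := by
    have : 0 < Y.card := by omega
    exact_mod_cast this
  have hexp : Real.exp (2 * Real.log 4 / c1) ≤ (Y.card : ℝ) := by
    refine (Nat.le_ceil _).trans ?_
    exact_mod_cast (by omega : ⌈Real.exp (2 * Real.log 4 / c1)⌉₊ ≤ Y.card)
  have hlog : 2 * Real.log 4 / c1 ≤ Real.log Y.card := by
    rw [← Real.log_exp (2 * Real.log 4 / c1)]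
    exact Real.log_le_log (Real.exp_pos _) hexp
  have hlog2 : 2 * Real.log 4 ≤ c1 * Real.log Y.card := by
    rw [div_le_iff₀ hc1] at hlog
    linarith
  have hGne : G.Nonempty := by
    rw [← card_pos]
    have : (0 : ℝ) < G.card := lt_of_lt_of_le (by positivity) hG1
    exact_mod_cast this
  obtain ⟨a, ha⟩ := hGne
  have h1 := hG2 a ha
  have h2 := cluster_count (G.filter (fun a' => c a' = c a)) x (Real.exp (C * Gam κ Y x)) ?_ ?_
  · have h3 : (Y.card : ℝ) ^ c1 ≤ 4 * Real.exp (C * Gam κ Y x) ^ 2 := h1.trans h2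
    have h4 := Real.log_le_log (Real.rpow_pos_of_pos hYpos c1) h3
    rw [Real.log_rpow hYpos, Real.log_mul (by norm_num) (by positivity), Real.log_pow,
      Real.log_exp] at h4
    push_cast at h4
    have hC0 : 0 < C := by linarith
    rw [div_mul_eq_mul_div, div_le_iff₀ (by positivity)]
    nlinarith
  · intro b hb
    obtain ⟨hb1, -⟩ := mem_filter.1 hb
    exact hY b (hG0 hb1)
  · intro b hb b' hb'
    obtain ⟨hb1, hb2⟩ := mem_filter.1 hb
    obtain ⟨hb1', hb2'⟩ := mem_filter.1 hb'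
    exact hG3 b hb1 b' hb1' (hb2.trans hb2'.symm)

end Pool.Agent.Helper35.TR
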