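import Pool.Agent.Helper35.TR.GamB
import Pool.Agent.Helper2.Variants.PopularPrimes

set_option autoImplicit false

/-!
MP_120218_co, project TR: lower bound for the popular weight from the popular primes theorem of
helper2 (module TR-14).

Let `B = Y + x` (image), `n = |Y|`, `c = c(k, ε/2)` of
`Pool.Agent.Helper2.Variants.PopularPrimes.primes_case`, `T` the set of the primes `q ≤ bnd Y x`
with more than `c n` elements `b ∈ B` with `padicValInt q b ≠ 0`. If `|T| ≤ c log n` then
`c n^(k-ε/2) ≤ max (..) ≤ n^(k-ε)`, false for large `n` (the number of `k`-fold sums of `Y + x` is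
`nS k Y`). So `|T| > c log n`; with `κ ≤ c` every `q ∈ T` has `1 ≤ lamq κ Y x q`, and
`∑ q ∈ T, log q ≥ (|T|/2) log (|T|/2)`.
-/

open Finset

namespace Pool.Agent.Helper35.TR

/-- the translate -/
def Low2_tr (Y : Finset ℤ) (x : ℤ) : Finset ℤ := Y.image (fun y => y + x)

theorem Low2_card_tr (Y : Finset ℤ) (x : ℤ) : (Low2_tr Y x).card = Y.card :=
  card_image_of_injective _ (fun a b h => by simpa using h)

theorem Low2_pi_tr (k : ℕ) (Y : Finset ℤ) (x : ℤ) :
    Fintype.piFinset (fun _ : Fin k => Low2_tr Y x) =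
      (tup k Y).image (fun f : Fin k → ℤ => fun i => f i + x) := by
  ext g
  simp only [Fintype.mem_piFinset, mem_image, Low2_tr]
  constructor
  · intro h
    choose f hf hg using h
    exact ⟨f, hf, funext hg⟩
  · rintro ⟨f, hf, rfl⟩ i
    exact ⟨f i, hf i, rfl⟩

theorem Low2_sums (k : ℕ) (Y : Finset ℤ) (x : ℤ) :
    ((Fintype.piFinset (fun _ : Fin k => Low2_tr Y x)).image
      (fun f : Fin k → ℤ => ∑ i, f i)).card = nS k Y := by
  rw [Low2_pi_tr, image_image, nS]
  have : (tup k Y).image ((fun f : Fin k → ℤ => ∑ i, f i) ∘ fun f : Fin k → ℤ => fun i => f i + x)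
      = ((tup k Y).image (fun f : Fin k → ℤ => ∑ i, f i)).image (fun s => s + k * x) := by
    rw [image_image]
    refine image_congr ?_
    intro f _
    simp [Finset.sum_add_distrib]
  rw [this]
  exact card_image_of_injective _ (fun a b h => by simpa using h)

theorem Low2_prods (k : ℕ) (Y : Finset ℤ) (x : ℤ) :
    ((Fintype.piFinset (fun _ : Fin k => Low2_tr Y x)).image
      (fun f : Fin k → ℤ => ∏ i, f i)).card = nP k Y x := by
  rw [Low2_pi_tr, image_image, nP]
  rfl

/-- the number of elements of the translate with nonzero valuation -/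
theorem Low2_cnt {Y : Finset ℤ} {x : ℤ} (hne : ∀ y ∈ Y, y + x ≠ 0) {q : ℕ} (hq : q.Prime) :
    ((Low2_tr Y x).filter (fun b => padicValInt q b ≠ 0)).card = cnt Y x q := by
  have h1 : (Low2_tr Y x).filter (fun b => padicValInt q b ≠ 0) =
      (Y.filter (fun y => q ∣ (y + x).natAbs)).image (fun y => y + x) := by
    ext b
    simp only [mem_filter, mem_image, Low2_tr]
    constructor
    · rintro ⟨⟨y, hy, rfl⟩, h⟩
      refine ⟨y, ⟨hy, ?_⟩, rfl⟩
      by_contra h'
      exact h (padicValNat.eq_zero_of_not_dvd h')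
    · rintro ⟨y, ⟨hy, h⟩, rfl⟩
      refine ⟨⟨y, hy, rfl⟩, ?_⟩
      have : 1 ≤ padicValNat q (y + x).natAbs := by
        have := Fact.mk hq
        exact one_le_padicValNat_of_dvd (by
          have := hne y hy
          simpa using this) h
      unfold padicValInt
      omega
  rw [h1, card_image_of_injective _ (fun a b h => by simpa using h), cnt]

/-- a set of `s` primes has large sum of logarithms -/
theorem Low2_sum_log {c L : ℝ} (hc : 0 < c) (hL1 : 1 ≤ L) (hL2 : 2 / c ≤ L)
    (hL3 : (4 / c) ^ 2 ≤ L) {T : Finset ℕ} (hT : c * L < T.card) :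
    c / 4 * L * Real.log L ≤ ∑ q ∈ T, Real.log q := by
  have hL0 : 0 < L := by linarith
  have hlogL : 0 ≤ Real.log L := Real.log_nonneg hL1
  set s : ℕ := T.card with hs
  set m : ℕ := s / 2 with hm
  have hs2 : (2 : ℝ) < s := by
    have : 2 ≤ c * L := by
      have := mul_le_mul_of_nonneg_left hL2 hc.le
      rwa [mul_div_cancel₀ _ hc.ne'] at this
    linarith
  have hs2' : 2 < s := by exact_mod_cast hs2
  have hm1 : 1 ≤ m := by omega
  have hms : s ≤ 4 * m := by omega
  have hmc : c * L / 4 ≤ m := by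
    have : (s : ℝ) ≤ 4 * m := by exact_mod_cast hms
    linarith
  have hlogm : Real.log L / 2 ≤ Real.log m := by
    have h1 : Real.log (c * L / 4) ≤ Real.log m := Real.log_le_log (by positivity) hmc
    have h2 : Real.log (c * L / 4) = Real.log L - Real.log (4 / c) := by
      rw [← Real.log_div hL0.ne' (by positivity)]
      congr 1
      field_simp
    have h3 : 2 * Real.log (4 / c) ≤ Real.log L := by
      have := Real.log_le_log (by positivity) hL3
      rwa [Real.log_pow] at this
    linarith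
  have h4 : ∑ q ∈ T.filter (fun q => m ≤ q), Real.log q ≤ ∑ q ∈ T, Real.log q := by
    refine sum_le_sum_of_subset_of_nonneg (filter_subset _ _) ?_
    intro q _ _
    exact Real.log_natCast_nonneg q
  have h5 : s - m ≤ (T.filter (fun q => m ≤ q)).card := by
    have h6 : (T.filter (fun q => ¬ m ≤ q)).card ≤ m := by
      calc _ ≤ (range m).card := by
            refine card_le_card ?_
            intro q hq
            rw [mem_filter] at hq
            rw [mem_range]
            omega
        _ = m := card_range m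
    have h7 := card_filter_add_card_filter_not (s := T) (fun q => m ≤ q)
    omega
  have h8 : ((T.filter (fun q => m ≤ q)).card : ℝ) * Real.log m ≤
      ∑ q ∈ T.filter (fun q => m ≤ q), Real.log q := by
    rw [← nsmul_eq_mul]
    refine card_nsmul_le_sum _ _ _ ?_
    intro q hq
    rw [mem_filter] at hq
    exact Real.log_le_log (by exact_mod_cast hm1) (by exact_mod_cast hq.2)
  have h9 : (s : ℝ) / 2 ≤ ((T.filter (fun q => m ≤ q)).card : ℝ) := by
    have : s ≤ 2 * (T.filter (fun q => m ≤ q)).card := by omega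
    have : (s : ℝ) ≤ 2 * ((T.filter (fun q => m ≤ q)).card : ℝ) := by exact_mod_cast this
    linarith
  have hlogm0 : 0 ≤ Real.log m := by linarith
  calc c / 4 * L * Real.log L = (c * L / 2) * (Real.log L / 2) := by ring
    _ ≤ ((T.filter (fun q => m ≤ q)).card : ℝ) * Real.log m := by
        refine mul_le_mul ?_ hlogm (by linarith) (by positivity)
        linarith
    _ ≤ _ := h8.trans h4

theorem low2 (k : ℕ) (hk : 1 ≤ k) (ε : ℝ) (hε : 0 < ε) : ∃ κ0 c2 : ℝ,
    0 < κ0 ∧ κ0 ≤ 1 ∧ 0 < c2 ∧ ∃ n0 : ℕ,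
    ∀ κ : ℝ, 0 < κ → κ ≤ κ0 → ∀ (Y : Finset ℤ) (x : ℤ), (∀ y ∈ Y, y + x ≠ 0) → n0 ≤ Y.card →
      (nS k Y : ℝ) ≤ (Y.card : ℝ) ^ ((k : ℝ) - ε) →
      (nP k Y x : ℝ) ≤ (Y.card : ℝ) ^ ((k : ℝ) - ε) →
      c2 * Real.log Y.card * Real.log (Real.log Y.card) ≤ Gam κ Y x := by
  obtain ⟨c, hc, H⟩ := Pool.Agent.Helper2.Variants.PopularPrimes.primes_case k hk (ε / 2)
    (by positivity)
  have hev1 : ∀ᶠ n : ℕ in Filter.atTop, max 1 (max (2 / c) ((4 / c) ^ 2)) ≤ Real.log (n : ℝ) :=
    (Real.tendsto_log_atTop.comp tendsto_natCast_atTop_atTop).eventually_ge_atTop _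
  have hev2 : ∀ᶠ n : ℕ in Filter.atTop, 1 / c < (n : ℝ) ^ (ε / 2) :=
    ((tendsto_rpow_atTop (y := ε / 2) (by positivity)).comp
      tendsto_natCast_atTop_atTop).eventually_gt_atTop _
  obtain ⟨n0, hn0⟩ := Filter.eventually_atTop.mp
    ((hev1.and hev2).and (Filter.eventually_ge_atTop 1))
  refine ⟨min c 1, c / 4, lt_min hc one_pos, min_le_right _ _, by positivity, n0, ?_⟩
  intro κ hκ0 hκ Y x hne hn hS hP
  obtain ⟨⟨hL, hR⟩, hn1⟩ := hn0 Y.card hn
  have hκc : κ ≤ c := hκ.trans (min_le_left _ _)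
  have hYne : Y.Nonempty := card_pos.mp hn1
  have hnpos : (0 : ℝ) < Y.card := by exact_mod_cast hn1
  classical
  set T : Finset ℕ := (range (bnd Y x + 1)).filter
    (fun q => q.Prime ∧ c * (Y.card : ℝ) < (cnt Y x q : ℝ)) with hT
  have hTbig : c * Real.log (Y.card : ℝ) < T.card := by
    by_contra hcon
    push Not at hcon
    have hA : (Low2_tr Y x).Nonempty := hYne.image _
    have h0 : (0 : ℤ) ∉ Low2_tr Y x := by
      intro h
      rw [Low2_tr, mem_image] at h
      obtain ⟨y, hy, h⟩ := h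
      exact hne y hy h
    have hcard : ((Low2_tr Y x).card : ℝ) ^ (1 - c) ≤ ((Low2_tr Y x).card : ℝ) := by
      have h1 : (1 : ℝ) ≤ ((Low2_tr Y x).card : ℝ) := by
        rw [Low2_card_tr]; exact_mod_cast hn1
      calc ((Low2_tr Y x).card : ℝ) ^ (1 - c) ≤ ((Low2_tr Y x).card : ℝ) ^ (1 : ℝ) :=
            Real.rpow_le_rpow_of_exponent_le h1 (by linarith)
        _ = _ := Real.rpow_one _
    have hfin := H (Low2_tr Y x) (Low2_tr Y x) hA (Subset.refl _) h0 hcard T
      (by rw [Low2_card_tr]; exact hcon) ?_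
    · rw [Low2_sums, Low2_prods, Low2_card_tr] at hfin
      have h2 : c * (Y.card : ℝ) ^ ((k : ℝ) - ε / 2) ≤ (Y.card : ℝ) ^ ((k : ℝ) - ε) :=
        hfin.trans (max_le hS hP)
      have h3 : (Y.card : ℝ) ^ ((k : ℝ) - ε / 2) =
          (Y.card : ℝ) ^ ((k : ℝ) - ε) * (Y.card : ℝ) ^ (ε / 2) := by
        rw [← Real.rpow_add hnpos]
        congr 1
        ring
      have h4 : 0 < (Y.card : ℝ) ^ ((k : ℝ) - ε) := Real.rpow_pos_of_pos hnpos _
      have h5 : 1 < c * (Y.card : ℝ) ^ (ε / 2) := by
        rw [div_lt_iff₀ hc] at hR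
        linarith
      rw [h3] at h2
      nlinarith
    · intro p hp hpT
      refine ⟨0, ?_⟩
      rw [Low2_cnt hne hp, Low2_card_tr]
      by_cases hpb : p ≤ bnd Y x
      · have : ¬ (c * (Y.card : ℝ) < (cnt Y x p : ℝ)) := by
          intro h
          exact hpT (by
            rw [hT, mem_filter, mem_range]
            exact ⟨by omega, hp, h⟩)
        exact not_lt.mp this
      · have : cnt Y x p = 0 := by
          rw [cnt, card_eq_zero, filter_eq_empty_iff]
          intro y hy hd
          have h1 : (y + x).natAbs ≤ bnd Y x := le_sup (f := fun y => (y + x).natAbs) hy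
          have h2 : p ≤ (y + x).natAbs := Nat.le_of_dvd (by
            have := hne y hy
            omega) hd
          omega
        rw [this]
        simp only [Nat.cast_zero]
        positivity
  have hL1 : 1 ≤ Real.log (Y.card : ℝ) := (le_max_left _ _).trans hL
  have hL2 : 2 / c ≤ Real.log (Y.card : ℝ) :=
    ((le_max_left _ _).trans (le_max_right _ _)).trans hL
  have hL3 : (4 / c) ^ 2 ≤ Real.log (Y.card : ℝ) :=
    ((le_max_right _ _).trans (le_max_right _ _)).trans hL
  refine (Low2_sum_log hc hL1 hL2 hL3 hTbig).trans ?_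
  refine le_trans ?_ (Gam_ge hκ0 hYne hne T (fun q hq => (mem_filter.mp hq).2.1))
  refine sum_le_sum ?_
  intro q hq
  obtain ⟨_, hqp, hqc⟩ := mem_filter.mp hq
  have h1 : 1 ≤ lamq κ Y x q := by
    refine one_le_lamq hκ0 hYne hne hqp ?_
    refine le_trans ?_ hqc.le
    gcongr
  have h1' : (1 : ℝ) ≤ (lamq κ Y x q : ℝ) := by exact_mod_cast h1
  have h2 : 0 ≤ Real.log (q : ℝ) := Real.log_natCast_nonneg q
  nlinarith

end Pool.Agent.Helper35.TR
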