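import Pool.Agent.Helper35.TR.Core
import Pool.Agent.Helper35.TR.Low1

set_option autoImplicit false

/-!
MP_120218_co, project TR: the theorem for finite sets of translates, products alone (module TR-18).
-/

open Finset

namespace Pool.Agent.Helper35.TR

theorem one_le_nP (k : ℕ) {A : Finset ℤ} (hA : A.Nonempty) (x : ℤ) : 1 ≤ nP k A x := by
  unfold nP
  apply card_pos.2
  exact (Fintype.piFinset_nonempty.2 fun _ => hA).image _

theorem one_le_nS (k : ℕ) {A : Finset ℤ} (hA : A.Nonempty) : 1 ≤ nS k A := by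
  unfold nS
  apply card_pos.2
  exact (Fintype.piFinset_nonempty.2 fun _ => hA).image _

theorem le_nP_one (A : Finset ℤ) (x : ℤ) : A.card ≤ nP 1 A x := by
  unfold nP
  apply card_le_card_of_injOn (fun a => a + x)
  · intro a ha
    rw [mem_coe, mem_image]
    refine ⟨fun _ => a, Fintype.mem_piFinset.2 fun _ => ha, ?_⟩
    simp
  · intro a _ a' _ h
    simpa using h

/-- the case `k ≤ 1` -/
theorem small_k {k : ℕ} (hk : k < 2) {ε : ℝ} (hε : 0 < ε) {A : Finset ℤ} (hA : A.Nonempty) (x : ℤ) :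
    (1 : ℝ) * (A.card : ℝ) ^ ((k : ℝ) - ε) ≤ (nP k A x : ℝ) := by
  have hN1 : (1 : ℝ) ≤ A.card := by exact_mod_cast card_pos.2 hA
  have h1 : (A.card : ℝ) ^ ((k : ℝ) - ε) ≤ (A.card : ℝ) ^ (k : ℝ) :=
    Real.rpow_le_rpow_of_exponent_le hN1 (by linarith)
  rw [one_mul]
  refine h1.trans ?_
  rw [Real.rpow_natCast]
  have hk' : k = 0 ∨ k = 1 := by omega
  rcases hk' with rfl | rfl
  · rw [pow_zero]
    exact_mod_cast one_le_nP 0 hA x
  · rw [pow_one]
    exact_mod_cast le_nP_one A x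

theorem transfer {k : ℕ} (hk : 2 ≤ k) {ε : ℝ} (hε : 0 < ε) (hε1 : ε ≤ 1) {N n : ℝ} (hN : 1 ≤ N)
    (h : N ^ (1 - ε / (2 * k)) ≤ n) : N ^ ((k : ℝ) - ε) ≤ n ^ ((k : ℝ) - ε / 2) := by
  have hk0 : (2 : ℝ) ≤ k := by exact_mod_cast hk
  have hNpos : 0 < N := by linarith
  set η : ℝ := ε / (2 * k) with hη
  have hη0 : 0 < η := by positivity
  have hηk : η * k = ε / 2 := by
    rw [hη]; field_simp
  have hM0pos : 0 < N ^ (1 - η) := by positivity
  have hkε : 0 ≤ (k : ℝ) - ε / 2 := by linarith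
  calc N ^ ((k : ℝ) - ε) ≤ N ^ ((1 - η) * ((k : ℝ) - ε / 2)) := by
        apply Real.rpow_le_rpow_of_exponent_le hN
        have e : (1 - η) * ((k : ℝ) - ε / 2) = k - ε / 2 - η * k + η * ε / 2 := by ring
        have e' : 0 ≤ η * ε := mul_nonneg hη0.le hε.le
        rw [e, hηk]
        linarith
    _ = (N ^ (1 - η)) ^ ((k : ℝ) - ε / 2) := by rw [← Real.rpow_mul hNpos.le]
    _ ≤ n ^ ((k : ℝ) - ε / 2) := Real.rpow_le_rpow hM0pos.le h hkε

/-- small sets: the constant is small -/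
theorem small_card {k N1 : ℕ} {c ε : ℝ} (hε : 0 < ε) (hc : c ≤ ((N1 : ℝ) + 1) ^ (-(k : ℝ)))
    {A : Finset ℤ} (hA : A.Nonempty) (hN : A.card < N1) :
    c * (A.card : ℝ) ^ ((k : ℝ) - ε) ≤ 1 := by
  have hN1 : (1 : ℝ) ≤ A.card := by exact_mod_cast card_pos.2 hA
  have hp : (0 : ℝ) < (N1 : ℝ) + 1 := by positivity
  have h1 : (A.card : ℝ) ^ ((k : ℝ) - ε) ≤ ((N1 : ℝ) + 1) ^ (k : ℝ) := by
    have h2 : (A.card : ℝ) ^ ((k : ℝ) - ε) ≤ (A.card : ℝ) ^ (k : ℝ) :=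
      Real.rpow_le_rpow_of_exponent_le hN1 (by linarith)
    refine h2.trans (Real.rpow_le_rpow (by positivity) ?_ (by positivity))
    have : (A.card : ℝ) ≤ N1 := by exact_mod_cast hN.le
    linarith
  calc c * (A.card : ℝ) ^ ((k : ℝ) - ε)
      ≤ ((N1 : ℝ) + 1) ^ (-(k : ℝ)) * ((N1 : ℝ) + 1) ^ (k : ℝ) :=
        mul_le_mul hc h1 (by positivity) (by positivity)
    _ = 1 := by rw [← Real.rpow_add hp]; simp

theorem main1 (k : ℕ) (b ε : ℝ) (hε : 0 < ε) : ∃ (m : ℕ) (c : ℝ), 0 < c ∧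
    ∀ A X : Finset ℤ, A.Nonempty → m < X.card →
      (∀ a ∈ A, ∀ x ∈ X, |((a + x : ℤ) : ℝ)| ≤ Real.exp ((A.card : ℝ) ^ b)) →
      (∀ x ∈ X, ∀ x' ∈ X, |((x - x' : ℤ) : ℝ)| ≤ (A.card : ℝ) ^ c) →
      ∃ x ∈ X, c * (A.card : ℝ) ^ ((k : ℝ) - ε) ≤ (nP k A x : ℝ) := by
  rcases Nat.lt_or_ge k 2 with hk | hk
  · refine ⟨0, 1, one_pos, ?_⟩
    intro A X hA hX _ _
    obtain ⟨x, hx⟩ := card_pos.1 hX
    exact ⟨x, hx, small_k hk hε hA x⟩
  have hk0 : (2 : ℝ) ≤ k := by exact_mod_cast hk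
  set e : ℝ := min ε 1 with he
  have he0 : 0 < e := lt_min hε one_pos
  have he1 : e ≤ 1 := min_le_right _ _
  have heε : e ≤ ε := min_le_left _ _
  obtain ⟨κ0, hκ0, hκ01, hcore⟩ := core k hk b e he0 he1
  obtain ⟨κ1, c2, hκ1, hκ11, hc2, n1, hlow⟩ := low1 k hk (e / 2) (by positivity)
  obtain ⟨m, N0, hm, hcr⟩ := hcore (min κ0 κ1) (lt_min hκ0 hκ1) (min_le_left _ _)
  have hlw := hlow (min κ0 κ1) (lt_min hκ0 hκ1) (min_le_right _ _)
  set κ : ℝ := min κ0 κ1 with hκ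
  set η : ℝ := e / (2 * k) with hη
  have hη0 : 0 < η := by positivity
  have hη1 : η ≤ 1 / 4 := by
    rw [hη, div_le_iff₀ (by positivity)]
    linarith
  have hN1 : ∃ N1 : ℕ, ∀ N : ℕ, N1 ≤ N → N0 ≤ N ∧ (n1 : ℝ) ≤ (N : ℝ) ^ (1 - η) ∧
      Real.log 2 ≤ c2 / 2 * Real.log N := by
    have t1 : Filter.Tendsto (fun N : ℕ => ((N : ℝ) ^ (1 - η))) Filter.atTop Filter.atTop :=
      (tendsto_rpow_atTop (by linarith)).comp tendsto_natCast_atTop_atTop
    have t2 : Filter.Tendsto (fun N : ℕ => c2 / 2 * Real.log (N : ℝ)) Filter.atTop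
        Filter.atTop := by
      apply Filter.Tendsto.const_mul_atTop (by positivity)
      exact Real.tendsto_log_atTop.comp tendsto_natCast_atTop_atTop
    obtain ⟨N1, hN1⟩ := Filter.eventually_atTop.1
      ((Filter.eventually_ge_atTop N0).and ((t1.eventually_ge_atTop (n1 : ℝ)).and
        (t2.eventually_ge_atTop (Real.log 2))))
    exact ⟨N1, fun N hN => hN1 N hN⟩
  obtain ⟨N1, hN1⟩ := hN1
  set c : ℝ := min (min 1 (c2 / (2 * ((m : ℝ) + 1) ^ 2))) (((N1 : ℝ) + 1) ^ (-(k : ℝ))) with hc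
  have hc0 : 0 < c := by
    rw [hc]
    exact lt_min (lt_min one_pos (by positivity)) (by positivity)
  have hc1 : c ≤ 1 := (min_le_left _ _).trans (min_le_left _ _)
  have hcm : c ≤ c2 / (2 * ((m : ℝ) + 1) ^ 2) := (min_le_left _ _).trans (min_le_right _ _)
  have hcN : c ≤ ((N1 : ℝ) + 1) ^ (-(k : ℝ)) := min_le_right _ _
  refine ⟨m, c, hc0, ?_⟩
  intro A X hA hX hht hD
  rcases Nat.lt_or_ge A.card N1 with hN | hN
  · obtain ⟨x, hx⟩ := card_pos.1 (lt_of_le_of_lt (Nat.zero_le _) hX)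
    refine ⟨x, hx, (small_card hε hcN hA hN).trans ?_⟩
    exact_mod_cast one_le_nP k hA x
  by_contra hcon
  push Not at hcon
  obtain ⟨hN0, hNn1, hNlog⟩ := hN1 A.card hN
  have hNN : (1 : ℝ) ≤ A.card := by exact_mod_cast card_pos.2 hA
  have hNpos : (0 : ℝ) < A.card := by linarith
  have hL0 : 0 ≤ Real.log (A.card : ℝ) := Real.log_nonneg hNN
  obtain ⟨X', hX'X, hX'c⟩ := exists_subset_card_eq (Nat.succ_le_of_lt hX)
  have hP : ∀ x ∈ X', (nP k A x : ℝ) ≤ (A.card : ℝ) ^ ((k : ℝ) - e) := by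
    intro x hx
    refine (hcon x (hX'X hx)).le.trans ?_
    calc c * (A.card : ℝ) ^ ((k : ℝ) - ε) ≤ 1 * (A.card : ℝ) ^ ((k : ℝ) - e) := by
          apply mul_le_mul hc1 _ (by positivity) zero_le_one
          exact Real.rpow_le_rpow_of_exponent_le hNN (by linarith)
      _ = _ := one_mul _
  refine hcr A X' hN0 hX'c (fun a ha x hx => hht a ha x (hX'X hx)) hP
    (c2 / 2 * Real.log (A.card : ℝ)) ((A.card : ℝ) ^ c) (Real.one_le_rpow hNN hc0.le)
    (fun x hx x' hx' => hD x (hX'X hx) x' (hX'X hx')) hNlog ?_ ?_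
  · rw [Real.log_rpow hNpos, ← mul_assoc]
    apply mul_le_mul_of_nonneg_right _ hL0
    rw [le_div_iff₀ (by positivity)] at hcm
    linarith
  · intro Y hYA hYc hYne x hx
    have hYpos : (0 : ℝ) < Y.card := lt_of_lt_of_le (by positivity) hYc
    have h1 := hlw Y x (hYne x hx) (by exact_mod_cast hNn1.trans hYc) (by
      refine le_trans ?_ (transfer hk he0 he1 hNN hYc)
      refine le_trans ?_ (hP x hx)
      exact_mod_cast nP_mono k hYA x)
    refine le_trans ?_ h1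
    have h2 : (1 - η) * Real.log (A.card : ℝ) ≤ Real.log (Y.card : ℝ) := by
      rw [← Real.log_rpow hNpos]
      exact Real.log_le_log (by positivity) hYc
    have h3 : 1 / 2 * Real.log (A.card : ℝ) ≤ (1 - η) * Real.log (A.card : ℝ) :=
      mul_le_mul_of_nonneg_right (by linarith) hL0
    calc c2 / 2 * Real.log (A.card : ℝ) = c2 * (1 / 2 * Real.log (A.card : ℝ)) := by ring
      _ ≤ c2 * Real.log (Y.card : ℝ) := mul_le_mul_of_nonneg_left (h3.trans h2) hc2.le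

end Pool.Agent.Helper35.TR
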