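import Pool.Agent.Helper35.TR.Main
import Pool.Agent.Helper35.TR.Low2

set_option autoImplicit false

/-!
MP_120218_co, project TR: the theorem for finite sets of translates, sums and products.
-/

open Finset

namespace Pool.Agent.Helper35.TR

theorem main2 (k : ℕ) (b ε : ℝ) (hε : 0 < ε) : ∃ (m : ℕ) (c : ℝ), 0 < c ∧
    ∀ A X : Finset ℤ, A.Nonempty → m < X.card →
      (∀ a ∈ A, ∀ x ∈ X, |((a + x : ℤ) : ℝ)| ≤ Real.exp ((A.card : ℝ) ^ b)) →
      (∀ x ∈ X, ∀ x' ∈ X, |((x - x' : ℤ) : ℝ)| ≤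
        (A.card : ℝ) ^ (c * Real.log (Real.log (A.card : ℝ)))) →
      c * (A.card : ℝ) ^ ((k : ℝ) - ε) ≤ (nS k A : ℝ) ∨
        ∃ x ∈ X, c * (A.card : ℝ) ^ ((k : ℝ) - ε) ≤ (nP k A x : ℝ) := by
  rcases Nat.lt_or_ge k 2 with hk | hk
  · refine ⟨0, 1, one_pos, ?_⟩
    intro A X hA hX _ _
    obtain ⟨x, hx⟩ := card_pos.1 hX
    exact Or.inr ⟨x, hx, small_k hk hε hA x⟩
  have hk0 : (2 : ℝ) ≤ k := by exact_mod_cast hk
  set e : ℝ := min ε 1 with he
  have he0 : 0 < e := lt_min hε one_pos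
  have he1 : e ≤ 1 := min_le_right _ _
  have heε : e ≤ ε := min_le_left _ _
  obtain ⟨κ0, hκ0, hκ01, hcore⟩ := core k hk b e he0 he1
  obtain ⟨κ1, c2, hκ1, hκ11, hc2, n1, hlow⟩ := low2 k (by omega) (e / 2) (by positivity)
  obtain ⟨m, N0, hm, hcr⟩ := hcore (min κ0 κ1) (lt_min hκ0 hκ1) (min_le_left _ _)
  have hlw := hlow (min κ0 κ1) (lt_min hκ0 hκ1) (min_le_right _ _)
  set κ : ℝ := min κ0 κ1 with hκ
  set η : ℝ := e / (2 * k) with hη
  have hη0 : 0 < η := by positivity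
  have hη1 : η ≤ 1 / 4 := by
    rw [hη, div_le_iff₀ (by positivity)]
    linarith
  have hN1 : ∃ N1 : ℕ, ∀ N : ℕ, N1 ≤ N → N0 ≤ N ∧ (n1 : ℝ) ≤ (N : ℝ) ^ (1 - η) ∧
      1 ≤ Real.log N ∧ 2 * Real.log 2 ≤ Real.log (Real.log N) ∧
      Real.log 2 ≤ c2 / 4 * (Real.log N * Real.log (Real.log N)) := by
    have tl : Filter.Tendsto (fun N : ℕ => Real.log (N : ℝ)) Filter.atTop Filter.atTop :=
      Real.tendsto_log_atTop.comp tendsto_natCast_atTop_atTop
    have tll : Filter.Tendsto (fun N : ℕ => Real.log (Real.log (N : ℝ))) Filter.atTop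
        Filter.atTop := Real.tendsto_log_atTop.comp tl
    have t1 : Filter.Tendsto (fun N : ℕ => ((N : ℝ) ^ (1 - η))) Filter.atTop Filter.atTop :=
      (tendsto_rpow_atTop (by linarith)).comp tendsto_natCast_atTop_atTop
    have t2 : Filter.Tendsto (fun N : ℕ => c2 / 4 * (Real.log (N : ℝ) *
        Real.log (Real.log (N : ℝ)))) Filter.atTop Filter.atTop := by
      apply Filter.Tendsto.const_mul_atTop (by positivity)
      exact tl.atTop_mul_atTop₀ tll
    obtain ⟨N1, hN1⟩ := Filter.eventually_atTop.1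
      ((Filter.eventually_ge_atTop N0).and ((t1.eventually_ge_atTop (n1 : ℝ)).and
        ((tl.eventually_ge_atTop 1).and ((tll.eventually_ge_atTop (2 * Real.log 2)).and
        (t2.eventually_ge_atTop (Real.log 2))))))
    exact ⟨N1, fun N hN => hN1 N hN⟩
  obtain ⟨N1, hN1⟩ := hN1
  set c : ℝ := min (min 1 (c2 / (4 * ((m : ℝ) + 1) ^ 2))) (((N1 : ℝ) + 1) ^ (-(k : ℝ))) with hc
  have hc0 : 0 < c := by
    rw [hc]
    exact lt_min (lt_min one_pos (by positivity)) (by positivity)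
  have hc1 : c ≤ 1 := (min_le_left _ _).trans (min_le_left _ _)
  have hcm : c ≤ c2 / (4 * ((m : ℝ) + 1) ^ 2) := (min_le_left _ _).trans (min_le_right _ _)
  have hcN : c ≤ ((N1 : ℝ) + 1) ^ (-(k : ℝ)) := min_le_right _ _
  refine ⟨m, c, hc0, ?_⟩
  intro A X hA hX hht hD
  rcases Nat.lt_or_ge A.card N1 with hN | hN
  · left
    refine (small_card hε hcN hA hN).trans ?_
    exact_mod_cast one_le_nS k hA
  by_contra hcon
  push Not at hcon
  obtain ⟨hconS, hconP⟩ := hcon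
  obtain ⟨hN0, hNn1, hNlog1, hNll, hNlog⟩ := hN1 A.card hN
  have hNN : (1 : ℝ) ≤ A.card := by exact_mod_cast card_pos.2 hA
  have hNpos : (0 : ℝ) < A.card := by linarith
  have hL0 : 0 < Real.log (A.card : ℝ) := by linarith
  have hlog2 : 0 < Real.log 2 := Real.log_pos (by norm_num)
  have hLL0 : 0 < Real.log (Real.log (A.card : ℝ)) := by linarith
  have hcN' : ∀ z : ℝ, z < c * (A.card : ℝ) ^ ((k : ℝ) - ε) → z ≤ (A.card : ℝ) ^ ((k : ℝ) - e) := by
    intro z hz
    refine hz.le.trans ?_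
    calc c * (A.card : ℝ) ^ ((k : ℝ) - ε) ≤ 1 * (A.card : ℝ) ^ ((k : ℝ) - e) := by
          apply mul_le_mul hc1 _ (by positivity) zero_le_one
          exact Real.rpow_le_rpow_of_exponent_le hNN (by linarith)
      _ = _ := one_mul _
  obtain ⟨X', hX'X, hX'c⟩ := exists_subset_card_eq (Nat.succ_le_of_lt hX)
  have hP : ∀ x ∈ X', (nP k A x : ℝ) ≤ (A.card : ℝ) ^ ((k : ℝ) - e) :=
    fun x hx => hcN' _ (hconP x (hX'X hx))
  have hS : (nS k A : ℝ) ≤ (A.card : ℝ) ^ ((k : ℝ) - e) := hcN' _ hconS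
  refine hcr A X' hN0 hX'c (fun a ha x hx => hht a ha x (hX'X hx)) hP
    (c2 / 4 * (Real.log (A.card : ℝ) * Real.log (Real.log (A.card : ℝ))))
    ((A.card : ℝ) ^ (c * Real.log (Real.log (A.card : ℝ))))
    (Real.one_le_rpow hNN (by positivity))
    (fun x hx x' hx' => hD x (hX'X hx) x' (hX'X hx')) hNlog ?_ ?_
  · rw [Real.log_rpow hNpos]
    rw [le_div_iff₀ (by positivity)] at hcm
    have h1 : ((m : ℝ) + 1) ^ 2 * c ≤ c2 / 4 := by linarith
    calc ((m : ℝ) + 1) ^ 2 * (c * Real.log (Real.log (A.card : ℝ)) * Real.log (A.card : ℝ))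
        = (((m : ℝ) + 1) ^ 2 * c) * (Real.log (A.card : ℝ) * Real.log (Real.log (A.card : ℝ))) := by
          ring
      _ ≤ _ := mul_le_mul_of_nonneg_right h1 (by positivity)
  · intro Y hYA hYc hYne x hx
    have hYpos : (0 : ℝ) < Y.card := lt_of_lt_of_le (by positivity) hYc
    have h1 := hlw Y x (hYne x hx) (by exact_mod_cast hNn1.trans hYc) (by
      refine le_trans ?_ (transfer hk he0 he1 hNN hYc)
      refine le_trans ?_ hS
      exact_mod_cast nS_mono k hYA) (by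
      refine le_trans ?_ (transfer hk he0 he1 hNN hYc)
      refine le_trans ?_ (hP x hx)
      exact_mod_cast nP_mono k hYA x)
    refine le_trans ?_ h1
    have h2 : (1 - η) * Real.log (A.card : ℝ) ≤ Real.log (Y.card : ℝ) := by
      rw [← Real.log_rpow hNpos]
      exact Real.log_le_log (by positivity) hYc
    have h3 : 1 / 2 * Real.log (A.card : ℝ) ≤ (1 - η) * Real.log (A.card : ℝ) :=
      mul_le_mul_of_nonneg_right (by linarith) hL0.le
    have h4 : 1 / 2 * Real.log (A.card : ℝ) ≤ Real.log (Y.card : ℝ) := h3.trans h2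
    have h5 : 1 / 2 * Real.log (Real.log (A.card : ℝ)) ≤ Real.log (Real.log (Y.card : ℝ)) := by
      have h6 := Real.log_le_log (by positivity) h4
      rw [Real.log_mul (by norm_num) hL0.ne', one_div, Real.log_inv] at h6
      linarith
    calc c2 / 4 * (Real.log (A.card : ℝ) * Real.log (Real.log (A.card : ℝ)))
        = c2 * ((1 / 2 * Real.log (A.card : ℝ)) *
          (1 / 2 * Real.log (Real.log (A.card : ℝ)))) := by ring
      _ ≤ c2 * (Real.log (Y.card : ℝ) * Real.log (Real.log (Y.card : ℝ))) := by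
          apply mul_le_mul_of_nonneg_left _ hc2.le
          exact mul_le_mul h4 h5 (by positivity) (le_trans (by positivity) h4)
      _ = _ := by ring

end Pool.Agent.Helper35.TR
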