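import Pool.Agent.Helper35.TR.Aml
import Pool.Agent.Helper35.TR.GamB

set_option autoImplicit false

/-!
MP_120218_co, project TR: the main lemma for integers (module TR-12).

Apply `aml` to `ps = ((range (bnd Y x + 1)).filter Nat.Prime).toList`, `v q a = val x q a`,
`lam q = lamq κ Y x q`, `U q = 1` if `lam q = 0` and `U q = k * lam q + ⌈τ Γ / (L log q)⌉₊` otherwise
(`Γ = Gam κ Y x`, `L = log |Y|`): then `∑ lam q / U q ≤ L / τ`, and
`U q * log q ≤ (k + 1) lam q log q + τ Γ / L` if `lam q ≥ 1`. For `a, a'` with equal labels and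
`D q = |v q a - v q a'|`: `D q = 0` if `lam q = 0`, `D q < U q`, so
`log ((a+x).natAbs / gcd) ≤ ∑ D q log q ≤ (k + 1) Γ + 4 τ Γ`. The list of the sums of valuations is a
function of the product `∏ (w i + x)`. `G` is the union of the classes with at least
`|Y|^(ε/(8k))` elements, `c1 = min (ε/(8k)) (1/2)`.
-/

open Finset

namespace Pool.Agent.Helper35.TR

open Pool.Agent.Helper80.LL (fib En)

/-- the logarithm of the quotient by the gcd, from the valuations -/
private theorem Ml_log_div {m n B : ℕ} (hm : m ≠ 0) (hn : n ≠ 0) (hmB : m ≤ B) :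
    Real.log ((m / m.gcd n : ℕ) : ℝ) ≤
      ∑ q ∈ (range (B + 1)).filter Nat.Prime,
        |(m.factorization q : ℝ) - (n.factorization q : ℝ)| * Real.log q := by
  have h1 : (m / m.gcd n).factorization = m.factorization - (m.factorization ⊓ n.factorization) := by
    rw [Nat.factorization_div (Nat.gcd_dvd_left m n), Nat.factorization_gcd hm hn]
  have h2 : ((m / m.gcd n).factorization.sum fun p t => (t : ℝ) * Real.log p) =
      ∑ q ∈ (range (B + 1)).filter Nat.Prime,
        ((m / m.gcd n).factorization q : ℝ) * Real.log q := by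
    apply Finsupp.sum_of_support_subset
    · intro p hp
      rw [Nat.support_factorization] at hp
      rw [mem_filter, mem_range]
      refine ⟨?_, Nat.prime_of_mem_primeFactors hp⟩
      have h3 : p ∣ m := (Nat.dvd_of_mem_primeFactors hp).trans
        (Nat.div_dvd_of_dvd (Nat.gcd_dvd_left m n))
      have h4 := Nat.le_of_dvd (Nat.pos_of_ne_zero hm) h3
      omega
    · intro p _
      simp
  rw [Real.log_nat_eq_sum_factorization, h2]
  apply sum_le_sum
  intro q _
  apply mul_le_mul_of_nonneg_right _ (Real.log_natCast_nonneg _)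
  rw [h1, Finsupp.tsub_apply, Finsupp.inf_apply]
  rcases le_total (m.factorization q) (n.factorization q) with h | h
  · rw [inf_eq_left.2 h, Nat.sub_self, Nat.cast_zero]
    exact abs_nonneg _
  · rw [inf_eq_right.2 h, Nat.cast_sub h]
    exact le_abs_self _

/-- the factorization of a product of nonzero integers -/
private theorem Ml_fact {k : ℕ} (w : Fin k → ℤ) (x : ℤ) (h : ∀ i, w i + x ≠ 0) (q : ℕ) :
    ∑ i, val x q (w i) = (∏ i, (w i + x)).natAbs.factorization q := by
  have h1 : (∏ i, (w i + x)).natAbs = ∏ i, (w i + x).natAbs := by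
    rw [← Int.natAbsHom_apply, map_prod]
    rfl
  rw [h1, Nat.factorization_prod (fun i _ => Int.natAbs_ne_zero.2 (h i)), Finsupp.finsetSum_apply]
  rfl

/-- the number of lists of sums of valuations -/
private theorem Ml_card (k : ℕ) (Y : Finset ℤ) (x : ℤ) (hne : ∀ y ∈ Y, y + x ≠ 0) (ps : List ℕ) :
    ((tup k Y).image (fun w : Fin k → ℤ => ps.map (fun q => ∑ i, val x q (w i)))).card ≤
      nP k Y x := by
  unfold nP
  have h1 : (tup k Y).image (fun w : Fin k → ℤ => ps.map (fun q => ∑ i, val x q (w i))) =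
      ((tup k Y).image (fun f : Fin k → ℤ => ∏ i, (f i + x))).image
        (fun z : ℤ => ps.map (fun q => z.natAbs.factorization q)) := by
    rw [image_image]
    apply image_congr
    intro w hw
    have hw' : ∀ i, w i ∈ Y := by
      have := Fintype.mem_piFinset.1 (mem_coe.1 hw)
      exact this
    show ps.map (fun q => ∑ i, val x q (w i)) =
      ps.map (fun q => (∏ i, (w i + x)).natAbs.factorization q)
    apply List.map_congr_left
    intro q _
    exact Ml_fact w x (fun i => hne _ (hw' i)) q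
  rw [h1]
  exact card_image_le

theorem ml (k : ℕ) (hk : 2 ≤ k) (ε : ℝ) (hε : 0 < ε) : ∃ κ0 c1 C : ℝ,
    0 < κ0 ∧ κ0 ≤ 1 ∧ 0 < c1 ∧ c1 < 1 ∧ 1 ≤ C ∧ ∃ n0 : ℕ,
    ∀ κ : ℝ, 0 < κ → κ ≤ κ0 → ∀ (Y : Finset ℤ) (x : ℤ), (∀ y ∈ Y, y + x ≠ 0) → n0 ≤ Y.card →
      (nP k Y x : ℝ) ≤ (Y.card : ℝ) ^ ((k : ℝ) - ε) →
      ∃ (G : Finset ℤ) (c : ℤ → List ℕ), G ⊆ Y ∧ c1 * Y.card ≤ (G.card : ℝ) ∧
        (∀ a ∈ G, (Y.card : ℝ) ^ c1 ≤ ((G.filter (fun a' => c a' = c a)).card : ℝ)) ∧
        ∀ a ∈ G, ∀ a' ∈ G, c a = c a' →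
          (((a + x).natAbs / (a + x).natAbs.gcd (a' + x).natAbs : ℕ) : ℝ) ≤
            Real.exp (C * Gam κ Y x) := by
  classical
  obtain ⟨κ0, τ, hκ0, hκ01, hτ, n0, haml⟩ := aml k hk ε hε
  have hkR : (2 : ℝ) ≤ (k : ℝ) := by exact_mod_cast hk
  have he : 0 < ε / (8 * k) := by positivity
  refine ⟨κ0, min (ε / (8 * k)) (1 / 2), k + 1 + 4 * τ, hκ0, hκ01, lt_min he (by norm_num),
    lt_of_le_of_lt (min_le_right _ _) (by norm_num), by linarith, max n0 2, ?_⟩
  intro κ hκ hκκ0 Y x hne hn hP
  have hκ1 : κ ≤ 1 := hκκ0.trans hκ01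
  have hn0 : n0 ≤ Y.card := (le_max_left _ _).trans hn
  have hn2 : 2 ≤ Y.card := (le_max_right _ _).trans hn
  have hnR : (2 : ℝ) ≤ (Y.card : ℝ) := by exact_mod_cast hn2
  have hL : 0 < Real.log Y.card := Real.log_pos (by linarith)
  set L : ℝ := Real.log Y.card with hLdef
  set S : Finset ℕ := (range (bnd Y x + 1)).filter Nat.Prime with hS
  have hSp : ∀ q ∈ S, q.Prime := fun q hq => (mem_filter.1 hq).2
  set Γ : ℝ := Gam κ Y x with hΓ
  have hΓS : Γ = ∑ q ∈ S, (lamq κ Y x q : ℝ) * Real.log q := rfl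
  have hΓ0 : 0 ≤ Γ := Gam_nonneg κ Y x
  have hτ0 : 0 < τ := by linarith
  let U : ℕ → ℕ := fun q => if lamq κ Y x q = 0 then 1
    else k * lamq κ Y x q + ⌈τ * Γ / (L * Real.log q)⌉₊
  have hU0 : ∀ q, lamq κ Y x q = 0 → U q = 1 := fun q h => if_pos h
  have hU1 : ∀ q, lamq κ Y x q ≠ 0 → U q = k * lamq κ Y x q + ⌈τ * Γ / (L * Real.log q)⌉₊ :=
    fun q h => if_neg h
  have hlog : ∀ q ∈ S, 0 < Real.log q := fun q hq =>
    Real.log_pos (by exact_mod_cast (hSp q hq).one_lt)
  have hUpos : ∀ q, 1 ≤ U q ∧ k * lamq κ Y x q ≤ U q := by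
    intro q
    by_cases h : lamq κ Y x q = 0
    · rw [hU0 q h, h]
      simp
    · rw [hU1 q h]
      have h1 : 1 ≤ lamq κ Y x q := Nat.one_le_iff_ne_zero.2 h
      have h2 : 1 ≤ k * lamq κ Y x q := Nat.one_le_iff_ne_zero.2 (by positivity)
      omega
  -- the sum of the ratios
  have hsum : (S.toList.map (fun q => (lamq κ Y x q : ℝ) / (U q : ℝ))).sum ≤
      Real.log Y.card / τ := by
    rw [Finset.sum_map_toList]
    by_cases hG : Γ = 0
    · have h1 : ∀ q ∈ S, (lamq κ Y x q : ℝ) / (U q : ℝ) = 0 := by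
        intro q hq
        have h2 : ∑ q ∈ S, (lamq κ Y x q : ℝ) * Real.log q = 0 := by rw [← hΓS, hG]
        rw [sum_eq_zero_iff_of_nonneg (fun q hq => mul_nonneg (Nat.cast_nonneg _)
          (hlog q hq).le)] at h2
        have h3 := h2 q hq
        rcases mul_eq_zero.1 h3 with h4 | h4
        · rw [h4, zero_div]
        · exact absurd h4 (hlog q hq).ne'
      rw [sum_eq_zero h1]
      positivity
    · have hG0 : 0 < Γ := lt_of_le_of_ne hΓ0 (Ne.symm hG)
      have h1 : ∀ q ∈ S, (lamq κ Y x q : ℝ) / (U q : ℝ) ≤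
          (lamq κ Y x q : ℝ) * Real.log q * (L / (τ * Γ)) := by
        intro q hq
        by_cases h : lamq κ Y x q = 0
        · rw [h]
          simp
        · have hUp : (0 : ℝ) < (U q : ℝ) := by exact_mod_cast (hUpos q).1
          have h2 : τ * Γ / (L * Real.log q) ≤ (U q : ℝ) := by
            rw [hU1 q h]
            push_cast
            have h3 := Nat.le_ceil (τ * Γ / (L * Real.log q))
            have h4 : (0 : ℝ) ≤ (k : ℝ) * (lamq κ Y x q : ℝ) := by positivity
            linarith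
          have hlq := hlog q hq
          have h5 : 1 ≤ (U q : ℝ) * (Real.log q * (L / (τ * Γ))) := by
            have h6 : τ * Γ / (L * Real.log q) * (Real.log q * (L / (τ * Γ))) = 1 := by
              field_simp
            rw [← h6]
            apply mul_le_mul_of_nonneg_right h2
            positivity
          rw [div_le_iff₀ hUp]
          have h7 : (0 : ℝ) ≤ (lamq κ Y x q : ℝ) := Nat.cast_nonneg _
          nlinarith [mul_le_mul_of_nonneg_left h5 h7]
      calc ∑ q ∈ S, (lamq κ Y x q : ℝ) / (U q : ℝ)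
          ≤ ∑ q ∈ S, (lamq κ Y x q : ℝ) * Real.log q * (L / (τ * Γ)) := sum_le_sum h1
        _ = Γ * (L / (τ * Γ)) := by rw [← sum_mul, ← hΓS]
        _ = L / τ := by field_simp
  obtain ⟨c, hc1, hc2⟩ := haml Y (fun q a => val x q a) (lamq κ Y x) U S.toList hn0
    (Finset.nodup_toList S)
    (fun q hq => ⟨(hUpos q).1, (hUpos q).2,
      (lamq_max hκ hκ1 hne (hSp q (Finset.mem_toList.1 hq))).trans
        (mul_le_mul_of_nonneg_right hκκ0 (Nat.cast_nonneg _))⟩)
    hsum
    ((Nat.cast_le.2 (Ml_card k Y x hne S.toList)).trans hP)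
  refine ⟨Y.filter (fun a => (Y.card : ℝ) ^ (ε / (8 * k)) ≤ (fib Y c a : ℝ)), c,
    filter_subset _ _, ?_, ?_, ?_⟩
  · refine le_trans ?_ hc2
    exact mul_le_mul_of_nonneg_right (min_le_left _ _) (Nat.cast_nonneg _)
  · intro a ha
    rw [mem_filter] at ha
    have h1 : (Y.filter (fun a => (Y.card : ℝ) ^ (ε / (8 * k)) ≤ (fib Y c a : ℝ))).filter
        (fun a' => c a' = c a) = Y.filter (fun a' => c a' = c a) := by
      ext b
      rw [mem_filter, mem_filter, mem_filter]
      constructor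
      · rintro ⟨⟨h2, _⟩, h3⟩
        exact ⟨h2, h3⟩
      · rintro ⟨h2, h3⟩
        refine ⟨⟨h2, ?_⟩, h3⟩
        have h4 : fib Y c b = fib Y c a := by
          unfold Pool.Agent.Helper80.LL.fib
          rw [h3]
        rw [h4]
        exact ha.2
    rw [h1]
    have h5 : ((Y.filter (fun a' => c a' = c a)).card : ℝ) = (fib Y c a : ℝ) := rfl
    rw [h5]
    refine le_trans ?_ ha.2
    exact Real.rpow_le_rpow_of_exponent_le (by linarith) (min_le_left _ _)
  · intro a ha a' ha' haa
    have haY : a ∈ Y := (mem_filter.1 ha).1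
    have haY' : a' ∈ Y := (mem_filter.1 ha').1
    obtain ⟨hD, hDs⟩ := hc1 a haY a' haY' haa
    rw [Finset.sum_map_toList] at hDs
    have hpos : (0 : ℝ) < (((a + x).natAbs / (a + x).natAbs.gcd (a' + x).natAbs : ℕ) : ℝ) := by
      have h1 : 0 < (a + x).natAbs := Int.natAbs_pos.2 (hne a haY)
      exact_mod_cast Nat.div_pos (Nat.le_of_dvd h1 (Nat.gcd_dvd_left _ _))
        (Nat.gcd_pos_of_pos_left _ h1)
    rw [← Real.log_le_iff_le_exp hpos]
    refine (Ml_log_div (Int.natAbs_ne_zero.2 (hne a haY)) (Int.natAbs_ne_zero.2 (hne a' haY'))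
      (Finset.le_sup (f := fun y => (y + x).natAbs) haY)).trans ?_
    have key : ∀ q ∈ S, |(val x q a : ℝ) - (val x q a' : ℝ)| * Real.log q ≤
        (k + 1) * ((lamq κ Y x q : ℝ) * Real.log q) +
          |(val x q a : ℝ) - (val x q a' : ℝ)| / (U q : ℝ) * (τ * Γ / L) := by
      intro q hq
      have hDq := hD q (Finset.mem_toList.2 hq)
      have hlq := hlog q hq
      have hD0 : 0 ≤ |(val x q a : ℝ) - (val x q a' : ℝ)| := abs_nonneg _
      by_cases h : lamq κ Y x q = 0
      · rw [hU0 q h, Nat.cast_one] at hDq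
        have h1 : |(val x q a : ℝ) - (val x q a' : ℝ)| = 0 := by
          have h2 : |((val x q a : ℤ) : ℝ) - ((val x q a' : ℤ) : ℝ)| < 1 := by
            exact_mod_cast hDq
          have h3 : |(val x q a : ℤ) - (val x q a' : ℤ)| < 1 := by
            exact_mod_cast h2
          have h4 : |(val x q a : ℤ) - (val x q a' : ℤ)| = 0 := by
            have := abs_nonneg ((val x q a : ℤ) - (val x q a' : ℤ))
            omega
          have h5 : |((val x q a : ℤ) : ℝ) - ((val x q a' : ℤ) : ℝ)| = 0 := by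
            exact_mod_cast h4
          exact_mod_cast h5
        rw [h1, h]
        simp
      · have hUp : (0 : ℝ) < (U q : ℝ) := by exact_mod_cast (hUpos q).1
        have hl1 : (1 : ℝ) ≤ (lamq κ Y x q : ℝ) := by
          exact_mod_cast Nat.one_le_iff_ne_zero.2 h
        have h1 : (U q : ℝ) * Real.log q ≤
            (k + 1) * ((lamq κ Y x q : ℝ) * Real.log q) + τ * Γ / L := by
          have h2 : (U q : ℝ) ≤ k * (lamq κ Y x q : ℝ) + (τ * Γ / (L * Real.log q) + 1) := by
            rw [hU1 q h]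
            push_cast
            have h3 := (Nat.ceil_lt_add_one (a := τ * Γ / (L * Real.log q))
              (by positivity)).le
            linarith
          have h4 : τ * Γ / (L * Real.log q) * Real.log q = τ * Γ / L := by
            field_simp
          calc (U q : ℝ) * Real.log q
              ≤ (k * (lamq κ Y x q : ℝ) + (τ * Γ / (L * Real.log q) + 1)) * Real.log q :=
                mul_le_mul_of_nonneg_right h2 hlq.le
            _ = k * (lamq κ Y x q : ℝ) * Real.log q + Real.log q + τ * Γ / L := by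
                rw [← h4]; ring
            _ ≤ _ := by
                have h5 : Real.log q ≤ (lamq κ Y x q : ℝ) * Real.log q := by nlinarith
                nlinarith
        have hr0 : 0 ≤ |(val x q a : ℝ) - (val x q a' : ℝ)| / (U q : ℝ) := by positivity
        have hr1 : |(val x q a : ℝ) - (val x q a' : ℝ)| / (U q : ℝ) ≤ 1 := by
          rw [div_le_one hUp]
          exact hDq.le
        have h6 : |(val x q a : ℝ) - (val x q a' : ℝ)| * Real.log q =
            |(val x q a : ℝ) - (val x q a' : ℝ)| / (U q : ℝ) * ((U q : ℝ) * Real.log q) := by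
          field_simp
        have h7 : 0 ≤ (k + 1 : ℝ) * ((lamq κ Y x q : ℝ) * Real.log q) := by positivity
        rw [h6]
        calc |(val x q a : ℝ) - (val x q a' : ℝ)| / (U q : ℝ) * ((U q : ℝ) * Real.log q)
            ≤ |(val x q a : ℝ) - (val x q a' : ℝ)| / (U q : ℝ) *
              ((k + 1) * ((lamq κ Y x q : ℝ) * Real.log q) + τ * Γ / L) :=
              mul_le_mul_of_nonneg_left h1 hr0
          _ = |(val x q a : ℝ) - (val x q a' : ℝ)| / (U q : ℝ) *
                ((k + 1) * ((lamq κ Y x q : ℝ) * Real.log q)) +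
              |(val x q a : ℝ) - (val x q a' : ℝ)| / (U q : ℝ) * (τ * Γ / L) := by ring
          _ ≤ _ := by
              have := mul_le_mul_of_nonneg_right hr1 h7
              linarith
    calc ∑ q ∈ S, |(val x q a : ℝ) - (val x q a' : ℝ)| * Real.log q
        ≤ ∑ q ∈ S, ((k + 1) * ((lamq κ Y x q : ℝ) * Real.log q) +
          |(val x q a : ℝ) - (val x q a' : ℝ)| / (U q : ℝ) * (τ * Γ / L)) := sum_le_sum key
      _ = (k + 1) * Γ +
          (∑ q ∈ S, |(val x q a : ℝ) - (val x q a' : ℝ)| / (U q : ℝ)) * (τ * Γ / L) := by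
          rw [sum_add_distrib, ← mul_sum, ← sum_mul, ← hΓS]
      _ ≤ (k + 1) * Γ + (4 * L) * (τ * Γ / L) := by
          have h8 : 0 ≤ τ * Γ / L := by positivity
          have := mul_le_mul_of_nonneg_right hDs h8
          linarith
      _ = (k + 1 + 4 * τ) * Γ := by
          field_simp

end Pool.Agent.Helper35.TR
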