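import Pool.Agent.Helper35.TR.Defs

set_option autoImplicit false

/-!
MP_120218_co, project TR: averages over tuples (module TR-2).
-/

open Finset

namespace Pool.Agent.Helper35.TR

open Pool.Agent.Helper80.LL (fib En)

variable {α β : Type*} [DecidableEq β]

theorem sum_tup_one {k : ℕ} (Y : Finset α) (i : Fin k) (f : α → ℝ) :
    ∑ w ∈ tup k Y, f (w i) = (Y.card : ℝ) ^ (k - 1) * ∑ a ∈ Y, f a := by
  have h1 := Finset.prod_univ_sum (fun _ : Fin k => Y)
    (fun j a => if j = i then f a else (1 : ℝ))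
  have h2 : ∀ w : Fin k → α, ∏ j, (if j = i then f (w j) else (1 : ℝ)) = f (w i) := by
    intro w
    rw [Finset.prod_ite_eq' univ i (fun j => f (w j)), if_pos (mem_univ i)]
  simp only [h2] at h1
  rw [← h1, ← mul_prod_erase univ _ (mem_univ i)]
  have h3 : ∀ j ∈ univ.erase i, ∑ a ∈ Y, (if j = i then f a else (1 : ℝ)) = Y.card := by
    intro j hj
    simp [ne_of_mem_erase hj]
  rw [prod_congr rfl h3, prod_const, card_erase_of_mem (mem_univ i), card_univ, Fintype.card_fin]
  simp [mul_comm]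

theorem sum_tup_two {k : ℕ} (Y : Finset α) {i j : Fin k} (hij : i ≠ j) (f g : α → ℝ) :
    ∑ w ∈ tup k Y, f (w i) * g (w j) =
      (Y.card : ℝ) ^ (k - 2) * ((∑ a ∈ Y, f a) * ∑ a ∈ Y, g a) := by
  have h1 := Finset.prod_univ_sum (fun _ : Fin k => Y)
    (fun l a => if l = i then f a else if l = j then g a else (1 : ℝ))
  have hj : j ∈ univ.erase i := mem_erase.2 ⟨hij.symm, mem_univ j⟩
  have h2 : ∀ w : Fin k → α, ∏ l, (if l = i then f (w l) else if l = j then g (w l)
      else (1 : ℝ)) = f (w i) * g (w j) := by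
    intro w
    rw [← mul_prod_erase univ _ (mem_univ i), ← mul_prod_erase _ _ hj]
    have h3 : ∀ l ∈ (univ.erase i).erase j, (if l = i then f (w l) else if l = j then g (w l)
        else (1 : ℝ)) = 1 := by
      intro l hl
      rw [if_neg (ne_of_mem_erase (mem_of_mem_erase hl)), if_neg (ne_of_mem_erase hl)]
    rw [prod_congr rfl h3, prod_const_one, mul_one, if_pos rfl, if_neg hij.symm, if_pos rfl]
  simp only [h2] at h1
  rw [← h1, ← mul_prod_erase univ _ (mem_univ i), ← mul_prod_erase _ _ hj]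
  have h3 : ∀ l ∈ (univ.erase i).erase j, ∑ a ∈ Y, (if l = i then f a else if l = j then g a
      else (1 : ℝ)) = Y.card := by
    intro l hl
    simp [ne_of_mem_erase (mem_of_mem_erase hl), ne_of_mem_erase hl]
  rw [prod_congr rfl h3, prod_const, card_erase_of_mem hj, card_erase_of_mem (mem_univ i),
    card_univ, Fintype.card_fin, Nat.sub_sub]
  simp only [if_true, if_neg hij.symm]
  ring

/-- sums over tuples: one coordinate first -/
theorem Pi_split {n : ℕ} (Y : Finset α) (i : Fin (n + 1)) (Φ : (Fin (n + 1) → α) → ℝ) :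
    ∑ w ∈ tup (n + 1) Y, Φ w = ∑ u ∈ tup n Y, ∑ a ∈ Y, Φ (i.insertNth (α := fun _ => α) a u) := by
  rw [← sum_product']
  refine sum_nbij' (fun w => (i.removeNth w, w i)) (fun z => i.insertNth (α := fun _ => α) z.2 z.1)
    ?_ ?_ ?_ ?_ ?_
  · intro w hw
    rw [Fintype.mem_piFinset] at hw
    rw [mem_product, Fintype.mem_piFinset]
    exact ⟨fun j => hw _, hw i⟩
  · rintro ⟨u, a⟩ hz
    rw [mem_product, Fintype.mem_piFinset] at hz
    rw [Fintype.mem_piFinset]
    intro j
    rcases Fin.eq_self_or_eq_succAbove i j with rfl | ⟨l, rfl⟩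
    · rw [Fin.insertNth_apply_same]
      exact hz.2
    · rw [Fin.insertNth_apply_succAbove]
      exact hz.1 l
  · intro w _
    exact Fin.insertNth_self_removeNth i w
  · rintro ⟨u, a⟩ _
    simp
  · intro w _
    rw [Fin.insertNth_self_removeNth]

/-- a function of the classes can be tested in one coordinate by class averages -/
theorem sum_tup_class {k : ℕ} (Y : Finset α) (c : α → β) (i : Fin k) (F : (Fin k → α) → ℝ)
    (hF : ∀ w ∈ tup k Y, ∀ w' ∈ tup k Y, (∀ j, c (w j) = c (w' j)) → F w = F w')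
    (G G' : α → ℝ)
    (hG : ∀ H : α → ℝ, (∀ a ∈ Y, ∀ a' ∈ Y, c a = c a' → H a = H a') →
      ∑ a ∈ Y, H a * G a = ∑ a ∈ Y, H a * G' a) :
    ∑ w ∈ tup k Y, F w * G (w i) = ∑ w ∈ tup k Y, F w * G' (w i) := by
  obtain _ | n := k
  · exact i.elim0
  have hmem : ∀ u ∈ tup n Y, ∀ a ∈ Y, i.insertNth (α := fun _ => α) a u ∈ tup (n + 1) Y := by
    intro u hu a ha
    rw [Fintype.mem_piFinset] at hu ⊢
    intro j
    rcases Fin.eq_self_or_eq_succAbove i j with rfl | ⟨l, rfl⟩
    · rw [Fin.insertNth_apply_same]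
      exact ha
    · rw [Fin.insertNth_apply_succAbove]
      exact hu l
  rw [Pi_split Y i, Pi_split Y i]
  apply sum_congr rfl
  intro u hu
  simp only [Fin.insertNth_apply_same]
  apply hG (fun a => F (i.insertNth (α := fun _ => α) a u))
  intro a ha a' ha' h
  apply hF _ (hmem u hu a ha) _ (hmem u hu a' ha')
  intro j
  rcases Fin.eq_self_or_eq_succAbove i j with rfl | ⟨l, rfl⟩
  · rw [Fin.insertNth_apply_same, Fin.insertNth_apply_same]
    exact h
  · rw [Fin.insertNth_apply_succAbove, Fin.insertNth_apply_succAbove]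

theorem Pi_card {k : ℕ} (Y : Finset α) : ((tup k Y).card : ℝ) = (Y.card : ℝ) ^ k := by
  rw [Fintype.card_piFinset_const]
  push_cast
  rfl

/-- the fibres of the classes of a tuple -/
theorem Pi_fib {k : ℕ} (Y : Finset α) (c : α → β) (w : Fin k → α) :
    fib (tup k Y) (fun w i => c (w i)) w = ∏ i, fib Y c (w i) := by
  unfold fib
  have h1 : (tup k Y).filter (fun w' => (fun i => c (w' i)) = fun i => c (w i)) =
      Fintype.piFinset (fun i => Y.filter (fun a => c a = c (w i))) := by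
    ext w'
    simp only [mem_filter, Fintype.mem_piFinset, funext_iff]
    exact ⟨fun h i => ⟨h.1 i, h.2 i⟩, fun h => ⟨fun i => (h i).1, fun i => (h i).2⟩⟩
  rw [h1, Fintype.card_piFinset]

/-- the entropy of the classes of a tuple -/
theorem En_tup {k : ℕ} (Y : Finset α) (c : α → β) :
    En (tup k Y) (fun w i => c (w i)) = (k : ℝ) * (Y.card : ℝ) ^ (k - 1) * En Y c := by
  unfold En
  have h1 : ∀ w ∈ tup k Y, Real.log (((tup k Y).card : ℝ) /
      (fib (tup k Y) (fun w i => c (w i)) w : ℝ)) =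
      ∑ i, Real.log ((Y.card : ℝ) / (fib Y c (w i) : ℝ)) := by
    intro w hw
    rw [Fintype.mem_piFinset] at hw
    rw [Pi_card, Pi_fib, Nat.cast_prod]
    have h2 : ∀ i : Fin k, ((Y.card : ℝ) / (fib Y c (w i) : ℝ)) ≠ 0 := by
      intro i
      have h3 := Pool.Agent.Helper80.LL.fib_pos (f := c) (hw i)
      have h4 : 0 < Y.card := card_pos.2 ⟨w i, hw i⟩
      positivity
    rw [← Real.log_prod (fun i _ => h2 i), prod_div_distrib, prod_const, card_univ,
      Fintype.card_fin]
  rw [sum_congr rfl h1, sum_comm]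
  have h5 : ∀ i : Fin k, ∑ w ∈ tup k Y, Real.log ((Y.card : ℝ) / (fib Y c (w i) : ℝ)) =
      (Y.card : ℝ) ^ (k - 1) * ∑ a ∈ Y, Real.log ((Y.card : ℝ) / (fib Y c a : ℝ)) :=
    fun i => sum_tup_one Y i (fun a => Real.log ((Y.card : ℝ) / (fib Y c a : ℝ)))
  rw [sum_congr rfl (fun i _ => h5 i), sum_const, card_univ, Fintype.card_fin, nsmul_eq_mul]
  ring

theorem card_tup {k : ℕ} (Y : Finset α) : ((tup k Y).card : ℝ) = (Y.card : ℝ) ^ k := by
  exact Pi_card Y

end Pool.Agent.Helper35.TR
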