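import Pool.Agent.Helper35.TR.Ent
import Pool.Agent.Helper35.TR.Mass

set_option autoImplicit false

/-!
MP_120218_co, project TR: the first predictor (module TR-4).

Use `CE_gibbs_pi` with `f = X1 Y c v lam σ U t`, `g w = (c ∘ w, ∑ i, v (w i))` and the predictor
`m i x (p, s)` given by: let `P i x = #{a ∈ Y : c a = p i, dl v U t a = x} / #{a ∈ Y : c a = p i}`
(the law of the dithered label in the class); whether `w i` is active depends only on `p i`.
* no index is active and `s + t < U`: `m i x = 1` if `x = 0`, else `0` (all labels are `0`);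
* no index is active and `U ≤ s + t`: `m i x = (1/3) ([x = s' - 1] + [x = s'] + P i x)` with
  `s' = (s + t) / U`: if all the other variables are `≤ lam` then the label is in
  `{s' - 1, s'}` (here `k * lam ≤ U` is used) and the cost is `log 3`; otherwise the cost is
  `log 3 + gi`;
* exactly one index `i0` is active: `m i0 x = 1` if `x = 0`, else `0`, and `m i x = P i x` for the
  others, cost `gi Y c v U t (w i)`, and there is `j ≠ i` which is active;
* at least two indices are active: `m i x = P i x`, cost `gi`, and there is `j ≠ i` active.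
-/

open Finset

namespace Pool.Agent.Helper35.TR

open Pool.Agent.Helper80.LL (fib En)

variable {α β : Type*} [DecidableEq β]

/-- the law of the dithered label in the class `b` -/
noncomputable def PredA_P (Y : Finset α) (c : α → β) (v : α → ℕ) (U t : ℕ) (b : β) (x : ℕ) : ℝ :=
  (((Y.filter (fun a => c a = b)).filter (fun a => dl v U t a = x)).card : ℝ) /
    ((Y.filter (fun a => c a = b)).card : ℝ)

/-- the class `b` is active -/
def PredA_A (Y : Finset α) (c : α → β) (v : α → ℕ) (lam : ℕ) (σ : ℝ) (b : β) : Prop :=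
  σ < ((Y.filter (fun a' => c a' = b ∧ lam + 1 ≤ v a')).card : ℝ) /
    ((Y.filter (fun a' => c a' = b)).card : ℝ)

theorem PredA_act (Y : Finset α) (c : α → β) (v : α → ℕ) (lam : ℕ) (σ : ℝ) (a : α) :
    act Y c v lam σ a ↔ PredA_A Y c v lam σ (c a) := Iff.rfl

theorem PredA_P_nonneg (Y : Finset α) (c : α → β) (v : α → ℕ) (U t : ℕ) (b : β) (x : ℕ) :
    0 ≤ PredA_P Y c v U t b x := by
  unfold PredA_P
  positivity

theorem PredA_P_sum (Y : Finset α) (c : α → β) (v : α → ℕ) (U t : ℕ) (b : β) (T : Finset ℕ) :
    ∑ x ∈ T, PredA_P Y c v U t b x ≤ 1 := by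
  classical
  unfold PredA_P
  rw [← Finset.sum_div]
  apply div_le_one_of_le₀ _ (Nat.cast_nonneg _)
  rw [← Nat.cast_sum]
  norm_cast
  rw [← Finset.card_biUnion]
  · apply card_le_card
    intro a ha
    rw [mem_biUnion] at ha
    obtain ⟨x, _, hx⟩ := ha
    exact (mem_filter.1 hx).1
  · intro x _ y _ hxy
    rw [Function.onFun, Finset.disjoint_left]
    intro a ha hb
    exact hxy ((mem_filter.1 ha).2.symm.trans (mem_filter.1 hb).2)

theorem PredA_P_pos {Y : Finset α} (c : α → β) (v : α → ℕ) (U t : ℕ) {a : α} (ha : a ∈ Y) :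
    0 < PredA_P Y c v U t (c a) (dl v U t a) := by
  unfold PredA_P
  have h1 : a ∈ Y.filter (fun a' => c a' = c a) := mem_filter.2 ⟨ha, rfl⟩
  have h2 : a ∈ (Y.filter (fun a' => c a' = c a)).filter (fun a' => dl v U t a' = dl v U t a) :=
    mem_filter.2 ⟨h1, rfl⟩
  have h3 : (0 : ℝ) < ((Y.filter (fun a' => c a' = c a)).card : ℝ) := by
    exact_mod_cast card_pos.2 ⟨a, h1⟩
  have h4 : (0 : ℝ) < (((Y.filter (fun a' => c a' = c a)).filter
      (fun a' => dl v U t a' = dl v U t a)).card : ℝ) := by
    exact_mod_cast card_pos.2 ⟨a, h2⟩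
  positivity

theorem PredA_P_log (Y : Finset α) (c : α → β) (v : α → ℕ) (U t : ℕ) (a : α) :
    - Real.log (PredA_P Y c v U t (c a) (dl v U t a)) = gi Y c v U t a := by
  unfold PredA_P gi
  rw [← Real.log_inv, inv_div]
  have h1 : (Y.filter (fun a' => c a' = c a)).filter (fun a' => dl v U t a' = dl v U t a) =
      Y.filter (fun a' => (dl v U t a', c a') = (dl v U t a, c a)) := by
    rw [filter_filter]
    apply filter_congr
    intro x _
    rw [Prod.mk.injEq]
    exact and_comm
  rw [h1]
  rfl

/-- the predictor -/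
noncomputable def PredA_m {k : ℕ} (Y : Finset α) (c : α → β) (v : α → ℕ) (lam : ℕ) (σ : ℝ)
    (U t : ℕ) (i : Fin k) (x : ℕ) (e : (Fin k → β) × ℕ) : ℝ := by
  classical
  exact if ∀ j, ¬ PredA_A Y c v lam σ (e.1 j) then
    (if e.2 + t < U then ind (x = 0) else
      (1 / 3) * (ind (x = (e.2 + t) / U - 1) + ind (x = (e.2 + t) / U) +
        PredA_P Y c v U t (e.1 i) x))
    else (if PredA_A Y c v lam σ (e.1 i) ∧ ∀ j, j ≠ i → ¬ PredA_A Y c v lam σ (e.1 j) then
      ind (x = 0) else PredA_P Y c v U t (e.1 i) x)

theorem PredA_ind_sum (T : Finset ℕ) (x0 : ℕ) : ∑ x ∈ T, ind (x = x0) ≤ 1 := by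
  classical
  have h1 : ∀ x ∈ T, ind (x = x0) = if x = x0 then (1 : ℝ) else 0 := by
    intro x _
    by_cases h : x = x0
    · rw [ind_of h, if_pos h]
    · rw [ind_of_not h, if_neg h]
  rw [sum_congr rfl h1, Finset.sum_ite_eq']
  split_ifs <;> norm_num

theorem PredA_m_nonneg {k : ℕ} (Y : Finset α) (c : α → β) (v : α → ℕ) (lam : ℕ) (σ : ℝ)
    (U t : ℕ) (i : Fin k) (x : ℕ) (e : (Fin k → β) × ℕ) :
    0 ≤ PredA_m Y c v lam σ U t i x e := by
  have h0 := PredA_P_nonneg Y c v U t (e.1 i) x
  have h1 := ind_nonneg (x = 0)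
  have h2 := ind_nonneg (x = (e.2 + t) / U - 1)
  have h3 := ind_nonneg (x = (e.2 + t) / U)
  unfold PredA_m
  split_ifs
  · exact h1
  · positivity
  · exact h1
  · exact h0

theorem PredA_m_sum {k : ℕ} (Y : Finset α) (c : α → β) (v : α → ℕ) (lam : ℕ) (σ : ℝ)
    (U t : ℕ) (i : Fin k) (T : Finset ℕ) (e : (Fin k → β) × ℕ) :
    ∑ x ∈ T, PredA_m Y c v lam σ U t i x e ≤ 1 := by
  have h0 := PredA_P_sum Y c v U t (e.1 i) T
  have h1 := PredA_ind_sum T 0
  have h2 := PredA_ind_sum T ((e.2 + t) / U - 1)
  have h3 := PredA_ind_sum T ((e.2 + t) / U)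
  unfold PredA_m
  split_ifs
  · exact h1
  · rw [← mul_sum, sum_add_distrib, sum_add_distrib]
    linarith
  · exact h1
  · exact h0

theorem predA {k : ℕ} (hk : 2 ≤ k) (Y : Finset α) (c : α → β) (v : α → ℕ) {lam U : ℕ}
    (hU : 1 ≤ U) (hlam : k * lam ≤ U) (σ : ℝ) {t : ℕ} (ht : t < U) :
    CE (tup k Y) (X1 Y c v lam σ U t) (fun w => ((fun i => c (w i)), ∑ i, v (w i))) ≤
      ∑ w ∈ tup k Y, L1 Y c v lam σ U t w := by
  classical
  have hmem : ∀ w ∈ tup k Y, ∀ i, w i ∈ Y := fun w hw i => Fintype.mem_piFinset.1 hw i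
  -- the cost of one index
  have key : ∀ w ∈ tup k Y, ∀ i,
      0 < PredA_m Y c v lam σ U t i (X1 Y c v lam σ U t w i)
        ((fun i => c (w i)), ∑ i, v (w i)) ∧
      - Real.log (PredA_m Y c v lam σ U t i (X1 Y c v lam σ U t w i)
        ((fun i => c (w i)), ∑ i, v (w i))) ≤
        ind ((∀ i, ¬ act Y c v lam σ (w i)) ∧ U ≤ (∑ i, v (w i)) + t) * Real.log 5 +
        ∑ j ∈ univ.erase i, (ind (act Y c v lam σ (w j)) + ind (lam < v (w j))) *
          gi Y c v U t (w i) := by
    intro w hw i
    have hwi := hmem w hw i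
    have hP := PredA_P_pos c v U t hwi
    have hg := PredA_P_log Y c v U t (w i)
    have hgi : 0 ≤ gi Y c v U t (w i) := gi_nonneg c v U t hwi
    have hlog5 : 0 ≤ Real.log 5 := Real.log_nonneg (by norm_num)
    have hA0 : 0 ≤ ind ((∀ i, ¬ act Y c v lam σ (w i)) ∧ U ≤ (∑ i, v (w i)) + t) * Real.log 5 :=
      mul_nonneg (ind_nonneg _) hlog5
    have hterm : ∀ j, 0 ≤ (ind (act Y c v lam σ (w j)) + ind (lam < v (w j))) *
        gi Y c v U t (w i) := fun j =>
      mul_nonneg (add_nonneg (ind_nonneg _) (ind_nonneg _)) hgi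
    have hS0 : 0 ≤ ∑ j ∈ univ.erase i, (ind (act Y c v lam σ (w j)) + ind (lam < v (w j))) *
        gi Y c v U t (w i) := sum_nonneg fun j _ => hterm j
    -- one further index pays
    have hpay : ∀ j, j ≠ i → (act Y c v lam σ (w j) ∨ lam < v (w j)) →
        gi Y c v U t (w i) ≤
        ∑ j ∈ univ.erase i, (ind (act Y c v lam σ (w j)) + ind (lam < v (w j))) *
          gi Y c v U t (w i) := by
      intro j hj hor
      have h1 : (ind (act Y c v lam σ (w j)) + ind (lam < v (w j))) * gi Y c v U t (w i) ≤
          ∑ j ∈ univ.erase i, (ind (act Y c v lam σ (w j)) + ind (lam < v (w j))) *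
          gi Y c v U t (w i) :=
        single_le_sum (f := fun j => (ind (act Y c v lam σ (w j)) + ind (lam < v (w j))) *
          gi Y c v U t (w i)) (fun j _ => hterm j) (mem_erase.2 ⟨hj, mem_univ _⟩)
      have h2 : (1 : ℝ) ≤ ind (act Y c v lam σ (w j)) + ind (lam < v (w j)) := by
        rcases hor with h | h
        · rw [ind_of h]
          linarith [ind_nonneg (lam < v (w j))]
        · rw [ind_of h]
          linarith [ind_nonneg (act Y c v lam σ (w j))]
      nlinarith
    by_cases hnone : ∀ j, ¬ act Y c v lam σ (w j)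
    · have hX : X1 Y c v lam σ U t w i = dl v U t (w i) := by
        unfold X1
        rw [if_neg (fun h => hnone i h.1)]
      have hle : v (w i) ≤ ∑ i, v (w i) :=
        single_le_sum (f := fun i => v (w i)) (fun _ _ => Nat.zero_le _) (mem_univ i)
      rw [hX]
      by_cases hst : (∑ i, v (w i)) + t < U
      · have hd : dl v U t (w i) = 0 := by
          unfold dl
          exact Nat.div_eq_of_lt (by omega)
        have hm1 : PredA_m Y c v lam σ U t i (dl v U t (w i))
            ((fun i => c (w i)), ∑ i, v (w i)) = 1 := by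
          unfold PredA_m
          rw [if_pos (show ∀ j, ¬ PredA_A Y c v lam σ (c (w j)) from hnone), if_pos hst]
          exact ind_of hd
        rw [hm1]
        refine ⟨one_pos, ?_⟩
        rw [Real.log_one, neg_zero]
        exact add_nonneg hA0 hS0
      · have hm1 : PredA_m Y c v lam σ U t i (dl v U t (w i))
            ((fun i => c (w i)), ∑ i, v (w i)) =
            (1 / 3) * (ind (dl v U t (w i) = ((∑ i, v (w i)) + t) / U - 1) +
              ind (dl v U t (w i) = ((∑ i, v (w i)) + t) / U) +
              PredA_P Y c v U t (c (w i)) (dl v U t (w i))) := by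
          unfold PredA_m
          rw [if_pos (show ∀ j, ¬ PredA_A Y c v lam σ (c (w j)) from hnone), if_neg hst]
        have hi1 := ind_nonneg (dl v U t (w i) = ((∑ i, v (w i)) + t) / U - 1)
        have hi2 := ind_nonneg (dl v U t (w i) = ((∑ i, v (w i)) + t) / U)
        have hpos : 0 < PredA_m Y c v lam σ U t i (dl v U t (w i))
            ((fun i => c (w i)), ∑ i, v (w i)) := by
          rw [hm1]
          positivity
        refine ⟨hpos, ?_⟩
        have hind : ind ((∀ i, ¬ act Y c v lam σ (w i)) ∧ U ≤ (∑ i, v (w i)) + t) = 1 :=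
          ind_of ⟨hnone, by omega⟩
        rw [hind, one_mul]
        by_cases hex : ∃ j, j ≠ i ∧ lam < v (w j)
        · obtain ⟨j, hj, hjl⟩ := hex
          have h1 := hpay j hj (Or.inr hjl)
          have h2 : (1 / 5) * PredA_P Y c v U t (c (w i)) (dl v U t (w i)) ≤
              PredA_m Y c v lam σ U t i (dl v U t (w i))
                ((fun i => c (w i)), ∑ i, v (w i)) := by
            rw [hm1]
            nlinarith
          have h3 := Real.log_le_log (by positivity) h2
          rw [Real.log_mul (by norm_num) hP.ne'] at h3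
          have h4 : Real.log (1 / 5 : ℝ) = - Real.log 5 := by
            rw [one_div, Real.log_inv]
          linarith
        · push Not at hex
          have hrest : ∑ j ∈ univ.erase i, v (w j) ≤ (k - 1) * lam := by
            have h1 : ∑ j ∈ univ.erase i, v (w j) ≤ ∑ _j ∈ univ.erase i, lam :=
              sum_le_sum fun j hj => hex j (ne_of_mem_erase hj)
            rw [sum_const, card_erase_of_mem (mem_univ _), card_univ, Fintype.card_fin,
              smul_eq_mul] at h1
            exact h1
          have hrest2 : ∑ j ∈ univ.erase i, v (w j) ≤ U := by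
            refine hrest.trans (le_trans ?_ hlam)
            exact Nat.mul_le_mul_right _ (Nat.sub_le _ _)
          have hsplit : ∑ i, v (w i) = v (w i) + ∑ j ∈ univ.erase i, v (w j) :=
            (add_sum_erase univ (fun i => v (w i)) (mem_univ i)).symm
          have hor : dl v U t (w i) = ((∑ i, v (w i)) + t) / U - 1 ∨
              dl v U t (w i) = ((∑ i, v (w i)) + t) / U := by
            unfold dl
            have h1 : (v (w i) + t) / U ≤ ((∑ i, v (w i)) + t) / U :=
              Nat.div_le_div_right (by omega)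
            have h2 : ((∑ i, v (w i)) + t) / U ≤ (v (w i) + t) / U + 1 := by
              rw [← Nat.add_div_right _ (by omega : 0 < U)]
              exact Nat.div_le_div_right (by omega)
            generalize (v (w i) + t) / U = x at h1 h2 ⊢
            generalize ((∑ i, v (w i)) + t) / U = y at h1 h2 ⊢
            omega
          have h2 : (1 / 5 : ℝ) ≤ PredA_m Y c v lam σ U t i (dl v U t (w i))
                ((fun i => c (w i)), ∑ i, v (w i)) := by
            rw [hm1]
            rcases hor with h | h
            · rw [ind_of h]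
              nlinarith
            · rw [ind_of h]
              nlinarith
          have h3 := Real.log_le_log (by norm_num) h2
          have h4 : Real.log (1 / 5 : ℝ) = - Real.log 5 := by
            rw [one_div, Real.log_inv]
          linarith
    · by_cases hone : act Y c v lam σ (w i) ∧ ∀ j, j ≠ i → ¬ act Y c v lam σ (w j)
      · have hX : X1 Y c v lam σ U t w i = 0 := by
          unfold X1
          rw [if_pos hone]
        have hm1 : PredA_m Y c v lam σ U t i (X1 Y c v lam σ U t w i)
            ((fun i => c (w i)), ∑ i, v (w i)) = 1 := by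
          unfold PredA_m
          rw [if_neg (show ¬ ∀ j, ¬ PredA_A Y c v lam σ (c (w j)) from hnone),
            if_pos (show PredA_A Y c v lam σ (c (w i)) ∧
              ∀ j, j ≠ i → ¬ PredA_A Y c v lam σ (c (w j)) from hone)]
          exact ind_of hX
        rw [hm1]
        refine ⟨one_pos, ?_⟩
        rw [Real.log_one, neg_zero]
        exact add_nonneg hA0 hS0
      · have hX : X1 Y c v lam σ U t w i = dl v U t (w i) := by
          unfold X1
          rw [if_neg hone]
        have hm1 : PredA_m Y c v lam σ U t i (X1 Y c v lam σ U t w i)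
            ((fun i => c (w i)), ∑ i, v (w i)) =
            PredA_P Y c v U t (c (w i)) (dl v U t (w i)) := by
          unfold PredA_m
          rw [if_neg (show ¬ ∀ j, ¬ PredA_A Y c v lam σ (c (w j)) from hnone),
            if_neg (show ¬ (PredA_A Y c v lam σ (c (w i)) ∧
              ∀ j, j ≠ i → ¬ PredA_A Y c v lam σ (c (w j))) from hone), hX]
        rw [hm1]
        refine ⟨hP, ?_⟩
        rw [hg]
        obtain ⟨j, hj, hja⟩ : ∃ j, j ≠ i ∧ act Y c v lam σ (w j) := by
          by_contra hcon
          push Not at hcon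
          apply hnone
          intro j
          by_cases hji : j = i
          · rw [hji]
            intro hai
            exact hone ⟨hai, hcon⟩
          · exact hcon j hji
        have h1 := hpay j hj (Or.inl hja)
        linarith
  refine (CE_gibbs_pi (PredA_m Y c v lam σ U t) (PredA_m_nonneg Y c v lam σ U t)
    (fun w _ i T => PredA_m_sum Y c v lam σ U t i T _) (fun w hw i => (key w hw i).1)).trans ?_
  apply sum_le_sum
  intro w hw
  refine (sum_le_sum fun i _ => (key w hw i).2).trans (le_of_eq ?_)
  unfold L1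
  rw [sum_add_distrib, sum_const, card_univ, Fintype.card_fin, nsmul_eq_mul]
  ring

end Pool.Agent.Helper35.TR
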