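import Pool.Agent.Helper35.TR.Ml
import Pool.Agent.Helper35.TR.Ci

set_option autoImplicit false

/-!
MP_120218_co, project TR: one step, and the iteration (module TR-17).

`step`: apply `ml` to `Y` and the `j ∈ X` with the smallest `Gam κ Y j`, then `ci` with
`H = exp (C Gam κ Y j)` to `G`.
-/

open Finset

namespace Pool.Agent.Helper35.TR

theorem step (k : ℕ) (hk : 2 ≤ k) (ε : ℝ) (hε : 0 < ε) : ∃ κ0 c1 C : ℝ,
    0 < κ0 ∧ κ0 ≤ 1 ∧ 0 < c1 ∧ c1 < 1 ∧ 1 ≤ C ∧ ∃ n0 : ℕ,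
    ∀ κ : ℝ, 0 < κ → κ ≤ κ0 → ∀ (Y X : Finset ℤ) (hX : X.Nonempty), 2 ≤ X.card →
      (∀ x ∈ X, ∀ y ∈ Y, y + x ≠ 0) → n0 ≤ Y.card → 2 / κ ^ 2 ≤ (Y.card : ℝ) ^ c1 →
      (∀ x ∈ X, (nP k Y x : ℝ) ≤ (Y.card : ℝ) ^ ((k : ℝ) - ε)) →
      ∀ D : ℝ, 1 ≤ D → (∀ x ∈ X, ∀ x' ∈ X, |((x - x' : ℤ) : ℝ)| ≤ D) →
      (∀ x ∈ X, Real.log 2 ≤ Gam κ Y x ∧ (X.card : ℝ) ^ 2 * Real.log D ≤ Gam κ Y x) →
      ∃ G ⊆ Y, c1 * Y.card ≤ (G.card : ℝ) ∧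
        X.inf' hX (fun x => Gam κ G x) ≤
          2 * (C + 2) / (κ ^ 2 * ((X.card : ℝ) - 1)) * X.inf' hX (fun x => Gam κ Y x) := by
  obtain ⟨κ0, c1, C, hκ0, hκ01, hc1, hc11, hC, n0, hml⟩ := ml k hk ε hε
  refine ⟨κ0, c1, C, hκ0, hκ01, hc1, hc11, hC, n0, ?_⟩
  intro κ hκ hκle Y X hX hX2 hne hn hbig hP D hD1 hD hW
  have hκ1 : κ ≤ 1 := hκle.trans hκ01
  obtain ⟨j, hj, hjmin⟩ := exists_mem_eq_inf' hX (fun x => Gam κ Y x)
  obtain ⟨G, c, hGY, hGc, hcl, hht⟩ := hml κ hκ hκle Y j (hne j hj) hn (hP j hj)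
  refine ⟨G, hGY, hGc, ?_⟩
  have hYpos : (0 : ℝ) < Y.card := by
    rcases Nat.eq_zero_or_pos Y.card with h | h
    · exfalso
      rw [h, Nat.cast_zero, Real.zero_rpow hc1.ne'] at hbig
      have : 0 < 2 / κ ^ 2 := by positivity
      linarith
    · exact_mod_cast h
  have hGne : G.Nonempty := by
    rw [← card_pos]
    have : (0 : ℝ) < G.card := lt_of_lt_of_le (by positivity) hGc
    exact_mod_cast this
  have hΓ : 0 ≤ Gam κ Y j := Gam_nonneg κ Y j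
  have hci := ci hκ hκ1 hGne c X hj (fun x hx a ha => hne x hx a (hGY ha))
    (fun a ha => hbig.trans (hcl a ha)) (H := Real.exp (C * Gam κ Y j))
    (by rw [Real.one_le_exp_iff]; positivity) hht hD1 hD
  rw [Real.log_exp] at hci
  have hX2' : (2 : ℝ) ≤ X.card := by exact_mod_cast hX2
  have hcard : ((X.erase j).card : ℝ) = X.card - 1 := by
    rw [card_erase_of_mem hj, Nat.cast_sub (by omega), Nat.cast_one]
  have hsum : ((X.card : ℝ) - 1) * X.inf' hX (fun x => Gam κ G x) ≤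
      ∑ x ∈ X.erase j, Gam κ G x := by
    rw [← hcard, ← nsmul_eq_mul]
    apply card_nsmul_le_sum
    intro x hx
    exact inf'_le _ (mem_of_mem_erase hx)
  have h1 := hW j hj
  rw [hjmin]
  rw [div_mul_eq_mul_div, le_div_iff₀ (mul_pos (by positivity) (by linarith))]
  have h2 : κ ^ 2 / 2 * (((X.card : ℝ) - 1) * X.inf' hX (fun x => Gam κ G x)) ≤
      κ ^ 2 / 2 * ∑ x ∈ X.erase j, Gam κ G x :=
    mul_le_mul_of_nonneg_left hsum (by positivity)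
  nlinarith [h2, hci, h1.1, h1.2]

theorem iterate {A : Finset ℤ} {μ : Finset ℤ → ℝ} {c1 ρ M0 : ℝ} (hc0 : 0 < c1) (hc1 : c1 ≤ 1)
    (hρ : 0 ≤ ρ)
    (hstep : ∀ Y ⊆ A, M0 ≤ (Y.card : ℝ) → ∃ G ⊆ Y, c1 * Y.card ≤ (G.card : ℝ) ∧ μ G ≤ ρ * μ Y)
    (T : ℕ) (hT : M0 ≤ c1 ^ T * A.card) :
    ∃ G ⊆ A, c1 ^ T * A.card ≤ (G.card : ℝ) ∧ μ G ≤ ρ ^ T * μ A := by
  induction T with
  | zero => exact ⟨A, Subset.refl _, by simp, by simp⟩
  | succ T ih =>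
    have h1 : c1 ^ (T + 1) * (A.card : ℝ) ≤ c1 ^ T * A.card := by
      apply mul_le_mul_of_nonneg_right _ (Nat.cast_nonneg _)
      rw [pow_succ]
      exact mul_le_of_le_one_right (by positivity) hc1
    obtain ⟨G, hGA, hGc, hGμ⟩ := ih (hT.trans h1)
    obtain ⟨G', hG', hG'c, hG'μ⟩ := hstep G hGA ((hT.trans h1).trans hGc)
    refine ⟨G', hG'.trans hGA, ?_, ?_⟩
    · refine le_trans ?_ hG'c
      rw [pow_succ, mul_comm (c1 ^ T) c1, mul_assoc]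
      exact mul_le_mul_of_nonneg_left hGc hc0.le
    · refine hG'μ.trans ?_
      rw [pow_succ, mul_comm (ρ ^ T) ρ, mul_assoc]
      exact mul_le_mul_of_nonneg_left hGμ hρ

end Pool.Agent.Helper35.TR
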